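import Mathlib

set_option autoImplicit false

namespace Pool.Agent.H431Z.LD

open FirstOrder FirstOrder.Language

/-- Quantifier depth (maximal nesting of quantifiers) of a first-order formula in the language of
graphs (adjacency and equality). -/
def qd : {n : ℕ} → Language.graph.BoundedFormula Empty n → ℕ
  | _, .falsum => 0
  | _, .equal _ _ => 0
  | _, .rel _ _ => 0
  | _, .imp φ ψ => max (qd φ) (qd ψ)
  | _, .all φ => qd φ + 1

/-- The graph `G` satisfies the sentence `Φ`. -/
def Models {V : Type} (G : SimpleGraph V) (Φ : Language.graph.Sentence) : Prop :=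
  @Sentence.Realize Language.graph V G.structure Φ

/-- The sentence `Φ` defines `G`: it holds in `G`, and every finite graph in which it holds is
isomorphic to `G`. -/
def Defines {V : Type} (Φ : Language.graph.Sentence) (G : SimpleGraph V) : Prop :=
  Models G Φ ∧ ∀ (m : ℕ) (H : SimpleGraph (Fin m)), Models H Φ → Nonempty (G ≃g H)

/-- The logical depth `D(G)`: the least quantifier depth of a sentence defining `G`. -/
noncomputable def logicalDepth {V : Type} (G : SimpleGraph V) : ℕ :=
  sInf {d | ∃ Φ : Language.graph.Sentence, Defines Φ G ∧ qd Φ = d}

open Classical in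
/-- The adjacency matrix of a graph on `Fin n`, as a list of rows. -/
noncomputable def adjRows {n : ℕ} (G : SimpleGraph (Fin n)) : List (List Bool) :=
  List.ofFn fun i => List.ofFn fun j => decide (G.Adj i j)

end Pool.Agent.H431Z.LD
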