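import Mathlib
import Pool.Agent.H431Z.LD.Defs

set_option autoImplicit false

namespace Pool.Agent.H431Z.LD

open FirstOrder FirstOrder.Language

variable {U V W : Type}

/-- the pebbled pairs form a partial isomorphism -/
def PI (G : SimpleGraph V) (H : SimpleGraph W) (l : List (V × W)) : Prop :=
  ∀ p ∈ l, ∀ q ∈ l, (p.1 = q.1 ↔ p.2 = q.2) ∧ (G.Adj p.1 q.1 ↔ H.Adj p.2 q.2)

/-- winning positions of Duplicator with `k` rounds left -/
def E (G : SimpleGraph V) (H : SimpleGraph W) : ℕ → List (V × W) → Prop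
  | 0, l => PI G H l
  | k + 1, l => PI G H l ∧ (∀ x, ∃ y, E G H k ((x, y) :: l)) ∧ (∀ y, ∃ x, E G H k ((x, y) :: l))

variable {G : SimpleGraph V} {H : SimpleGraph W} {F : SimpleGraph U}

lemma E.pi {k : ℕ} {l : List (V × W)} (h : E G H k l) : PI G H l := by
  cases k
  · exact h
  · exact h.1

lemma E.eq_iff {k : ℕ} {l : List (V × W)} (h : E G H k l) {x x' : V} {y y' : W}
    (h1 : (x, y) ∈ l) (h2 : (x', y') ∈ l) : x = x' ↔ y = y' := (h.pi _ h1 _ h2).1

lemma E.adj_iff {k : ℕ} {l : List (V × W)} (h : E G H k l) {x x' : V} {y y' : W}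
    (h1 : (x, y) ∈ l) (h2 : (x', y') ∈ l) : G.Adj x x' ↔ H.Adj y y' := (h.pi _ h1 _ h2).2

lemma E.sub {k : ℕ} : ∀ {l l' : List (V × W)}, E G H k l → (∀ p ∈ l', p ∈ l) → E G H k l' := by
  induction k with
  | zero => intro l l' h hs p hp q hq; exact h p (hs p hp) q (hs q hq)
  | succ k ih =>
    intro l l' h hs
    have hc : ∀ p : V × W, ∀ q ∈ p :: l', q ∈ p :: l := by
      intro p q hq
      rcases List.mem_cons.1 hq with rfl | hq
      · exact List.mem_cons_self
      · exact List.mem_cons_of_mem _ (hs q hq)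
    refine ⟨fun p hp q hq => h.1 p (hs p hp) q (hs q hq), fun x => ?_, fun y => ?_⟩
    · obtain ⟨y, hy⟩ := h.2.1 x
      exact ⟨y, ih hy (hc _)⟩
    · obtain ⟨x, hx⟩ := h.2.2 y
      exact ⟨x, ih hx (hc _)⟩

lemma E.pred {k : ℕ} : ∀ {l : List (V × W)}, E G H (k + 1) l → E G H k l := by
  induction k with
  | zero => intro l h; exact h.1
  | succ k ih =>
    intro l h
    refine ⟨h.1, fun x => ?_, fun y => ?_⟩
    · obtain ⟨y, hy⟩ := h.2.1 x
      exact ⟨y, ih hy⟩
    · obtain ⟨x, hx⟩ := h.2.2 y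
      exact ⟨x, ih hx⟩

lemma E.mono {k k' : ℕ} {l : List (V × W)} (h : E G H k l) (hk : k' ≤ k) : E G H k' l := by
  induction hk with
  | refl => exact h
  | step _ ih => exact ih h.pred

lemma E.forth {k k' : ℕ} {l : List (V × W)} (h : E G H k l) (hk : k' < k) (x : V) :
    ∃ y, E G H k' ((x, y) :: l) := (h.mono (k' := k' + 1) hk).2.1 x

lemma E.back {k k' : ℕ} {l : List (V × W)} (h : E G H k l) (hk : k' < k) (y : W) :
    ∃ x, E G H k' ((x, y) :: l) := (h.mono (k' := k' + 1) hk).2.2 y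

lemma E.symm {k : ℕ} : ∀ {l : List (V × W)}, E G H k l → E H G k (l.map Prod.swap) := by
  have hpi : ∀ {l : List (V × W)}, PI G H l → PI H G (l.map Prod.swap) := by
    intro l h p hp q hq
    obtain ⟨p', hp', rfl⟩ := List.mem_map.1 hp
    obtain ⟨q', hq', rfl⟩ := List.mem_map.1 hq
    exact ⟨(h p' hp' q' hq').1.symm, (h p' hp' q' hq').2.symm⟩
  induction k with
  | zero => intro l h; exact hpi h
  | succ k ih =>
    intro l h
    refine ⟨hpi h.1, fun y => ?_, fun x => ?_⟩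
    · obtain ⟨x, hx⟩ := h.2.2 y
      exact ⟨x, ih hx⟩
    · obtain ⟨y, hy⟩ := h.2.1 x
      exact ⟨y, ih hy⟩

lemma E.comp {k : ℕ} : ∀ {l₁ : List (U × V)} {l₂ : List (V × W)} {l : List (U × W)},
    E F G k l₁ → E G H k l₂ → (∀ p ∈ l, ∃ y, (p.1, y) ∈ l₁ ∧ (y, p.2) ∈ l₂) → E F H k l := by
  have hpi : ∀ {l₁ : List (U × V)} {l₂ : List (V × W)} {l : List (U × W)},
      PI F G l₁ → PI G H l₂ → (∀ p ∈ l, ∃ y, (p.1, y) ∈ l₁ ∧ (y, p.2) ∈ l₂) → PI F H l := by
    intro l₁ l₂ l h1 h2 hl p hp q hq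
    obtain ⟨y, a1, a2⟩ := hl p hp
    obtain ⟨y', b1, b2⟩ := hl q hq
    exact ⟨(h1 _ a1 _ b1).1.trans (h2 _ a2 _ b2).1, (h1 _ a1 _ b1).2.trans (h2 _ a2 _ b2).2⟩
  induction k with
  | zero => intro l₁ l₂ l h1 h2 hl; exact hpi h1 h2 hl
  | succ k ih =>
    intro l₁ l₂ l h1 h2 hl
    have hc : ∀ x y z, ∀ p ∈ (x, z) :: l, ∃ y', (p.1, y') ∈ (x, y) :: l₁ ∧ (y', p.2) ∈ (y, z) :: l₂ := by
      intro x y z p hp
      rcases List.mem_cons.1 hp with rfl | hp
      · exact ⟨y, List.mem_cons_self, List.mem_cons_self⟩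
      · obtain ⟨y', a1, a2⟩ := hl p hp
        exact ⟨y', List.mem_cons_of_mem _ a1, List.mem_cons_of_mem _ a2⟩
    refine ⟨hpi h1.1 h2.1 hl, fun x => ?_, fun z => ?_⟩
    · obtain ⟨y, hy⟩ := h1.2.1 x
      obtain ⟨z, hz⟩ := h2.2.1 y
      exact ⟨z, ih hy hz (hc x y z)⟩
    · obtain ⟨y, hy⟩ := h2.2.2 z
      obtain ⟨x, hx⟩ := h1.2.2 y
      exact ⟨x, ih hx hy (hc x y z)⟩

lemma E.of_iso (e : G ≃g H) (k : ℕ) : ∀ l : List (V × W), (∀ p ∈ l, e p.1 = p.2) → E G H k l := by
  have hpi : ∀ l : List (V × W), (∀ p ∈ l, e p.1 = p.2) → PI G H l := by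
    intro l hl p hp q hq
    rw [← hl p hp, ← hl q hq]
    exact ⟨e.injective.eq_iff.symm, e.map_adj_iff.symm⟩
  induction k with
  | zero => exact hpi
  | succ k ih =>
    intro l hl
    refine ⟨hpi l hl, fun x => ⟨e x, ih _ ?_⟩, fun y => ⟨e.symm y, ih _ ?_⟩⟩
    · intro p hp
      rcases List.mem_cons.1 hp with rfl | hp
      · rfl
      · exact hl p hp
    · intro p hp
      rcases List.mem_cons.1 hp with rfl | hp
      · exact e.apply_symm_apply y
      · exact hl p hp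

/-- realisation of a formula in a graph -/
def Rz (G : SimpleGraph V) {n : ℕ} (φ : Language.graph.BoundedFormula Empty n) (a : Fin n → V) : Prop :=
  @BoundedFormula.Realize Language.graph V G.structure Empty n φ default a

lemma term_eq {n : ℕ} (t : Language.graph.Term (Empty ⊕ Fin n)) :
    ∃ i : Fin n, t = Term.var (Sum.inr i) := by
  cases t with
  | var x =>
    rcases x with x | i
    · exact x.elim
    · exact ⟨i, rfl⟩
  | func f _ => exact f.elim

lemma Rz_falsum {n : ℕ} (a : Fin n → V) : Rz G .falsum a ↔ False := Iff.rfl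
lemma Rz_imp {n : ℕ} (φ ψ : Language.graph.BoundedFormula Empty n) (a : Fin n → V) :
    Rz G (.imp φ ψ) a ↔ (Rz G φ a → Rz G ψ a) := Iff.rfl
lemma Rz_all {n : ℕ} (φ : Language.graph.BoundedFormula Empty (n + 1)) (a : Fin n → V) :
    Rz G (.all φ) a ↔ ∀ x, Rz G φ (Fin.snoc a x) := Iff.rfl
lemma Rz_equal {n : ℕ} (i j : Fin n) (a : Fin n → V) :
    Rz G (.equal (Term.var (Sum.inr i)) (Term.var (Sum.inr j))) a ↔ a i = a j := Iff.rfl
lemma Rz_rel {n : ℕ} (t : Fin 2 → Fin n) (a : Fin n → V) :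
    Rz G (.rel adj (fun i => Term.var (Sum.inr (t i)))) a ↔ G.Adj (a (t 0)) (a (t 1)) := Iff.rfl

lemma E.rz {n : ℕ} (φ : Language.graph.BoundedFormula Empty n) : ∀ {k : ℕ} {l : List (V × W)}
    {a : Fin n → V} {b : Fin n → W}, E G H k l → (∀ i, (a i, b i) ∈ l) → qd φ ≤ k →
    (Rz G φ a ↔ Rz H φ b) := by
  induction φ with
  | falsum => intro k l a b _ _ _; exact Iff.rfl
  | equal t₁ t₂ =>
    intro k l a b h hl _
    obtain ⟨i, rfl⟩ := term_eq t₁
    obtain ⟨j, rfl⟩ := term_eq t₂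
    rw [Rz_equal, Rz_equal]
    exact h.eq_iff (hl i) (hl j)
  | rel R ts =>
    intro k l a b h hl _
    cases R
    choose t ht using fun i => term_eq (ts i)
    obtain rfl : ts = fun i => Term.var (Sum.inr (t i)) := funext ht
    rw [Rz_rel, Rz_rel]
    exact h.adj_iff (hl _) (hl _)
  | imp φ ψ ih1 ih2 =>
    intro k l a b h hl hq
    rw [Rz_imp, Rz_imp, ih1 h hl (le_trans (le_max_left _ _) hq),
      ih2 h hl (le_trans (le_max_right _ _) hq)]
  | all φ ih =>
    intro k l a b h hl hq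
    have hq' : qd φ < k := hq
    have hs : ∀ x y i, (Fin.snoc (α := fun _ => V) a x i, Fin.snoc (α := fun _ => W) b y i) ∈
        (x, y) :: l := by
      intro x y i
      refine Fin.lastCases ?_ (fun i => ?_) i
      · simp
      · simp only [Fin.snoc_castSucc]
        exact List.mem_cons_of_mem _ (hl i)
    rw [Rz_all, Rz_all]
    constructor
    · intro hx y
      obtain ⟨x, hE⟩ := h.back hq' y
      exact (ih hE (hs x y) le_rfl).1 (hx x)
    · intro hy x
      obtain ⟨y, hE⟩ := h.forth hq' x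
      exact (ih hE (hs x y) le_rfl).2 (hy y)

/-- a property of tuples in graphs that is expressed by a formula of depth at most `k` -/
def Df (k n : ℕ) (P : ∀ (W : Type), SimpleGraph W → (Fin n → W) → Prop) : Prop :=
  ∃ φ : Language.graph.BoundedFormula Empty n, qd φ ≤ k ∧
    ∀ (W : Type) (H : SimpleGraph W) (b : Fin n → W), Rz H φ b ↔ P W H b

lemma Df.congr {k n : ℕ} {P Q : ∀ (W : Type), SimpleGraph W → (Fin n → W) → Prop} (h : Df k n P)
    (hPQ : ∀ W H b, P W H b ↔ Q W H b) : Df k n Q := by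
  obtain ⟨φ, h1, h2⟩ := h
  exact ⟨φ, h1, fun W H b => (h2 W H b).trans (hPQ W H b)⟩

lemma Df.imp {k n : ℕ} {P Q : ∀ (W : Type), SimpleGraph W → (Fin n → W) → Prop} (h : Df k n P)
    (h' : Df k n Q) : Df k n fun W H b => P W H b → Q W H b := by
  obtain ⟨φ, h1, h2⟩ := h
  obtain ⟨ψ, h3, h4⟩ := h'
  exact ⟨.imp φ ψ, max_le h1 h3, fun W H b => by rw [Rz_imp, h2, h4]⟩

lemma Df.false (k n : ℕ) : Df k n fun _ _ _ => False :=
  ⟨.falsum, Nat.zero_le _, fun _ _ _ => Iff.rfl⟩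

lemma Df.not {k n : ℕ} {P : ∀ (W : Type), SimpleGraph W → (Fin n → W) → Prop} (h : Df k n P) :
    Df k n fun W H b => ¬ P W H b := h.imp (Df.false k n)

lemma Df.and {k n : ℕ} {P Q : ∀ (W : Type), SimpleGraph W → (Fin n → W) → Prop} (h : Df k n P)
    (h' : Df k n Q) : Df k n fun W H b => P W H b ∧ Q W H b :=
  (h.imp h'.not).not.congr fun _ _ _ => by tauto

lemma Df.const_iff {k n : ℕ} {P : ∀ (W : Type), SimpleGraph W → (Fin n → W) → Prop} (h : Df k n P)
    (p : Prop) : Df k n fun W H b => (p ↔ P W H b) := by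
  by_cases hp : p
  · exact h.congr fun _ _ _ => by tauto
  · exact h.not.congr fun _ _ _ => by tauto

lemma Df.forall {k n : ℕ} {ι : Type} [Finite ι]
    {P : ι → ∀ (W : Type), SimpleGraph W → (Fin n → W) → Prop} (h : ∀ i, Df k n (P i)) :
    Df k n fun W H b => ∀ i, P i W H b := by
  classical
  have := Fintype.ofFinite ι
  have key : ∀ s : Finset ι, Df k n fun W H b => ∀ i ∈ s, P i W H b := by
    intro s
    induction s using Finset.induction_on with
    | empty => exact (Df.false k n).not.congr fun _ _ _ => by simp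
    | insert i s _ ih => exact ((h i).and ih).congr fun _ _ _ => by simp
  exact (key Finset.univ).congr fun _ _ _ => by simp

lemma Df.exists {k n : ℕ} {ι : Type} [Finite ι]
    {P : ι → ∀ (W : Type), SimpleGraph W → (Fin n → W) → Prop} (h : ∀ i, Df k n (P i)) :
    Df k n fun W H b => ∃ i, P i W H b :=
  (Df.forall fun i => (h i).not).not.congr fun _ _ _ => by simp

lemma Df.all {k n : ℕ} {P : ∀ (W : Type), SimpleGraph W → (Fin (n + 1) → W) → Prop}
    (h : Df k (n + 1) P) : Df (k + 1) n fun W H b => ∀ y, P W H (Fin.snoc b y) := by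
  obtain ⟨φ, h1, h2⟩ := h
  exact ⟨.all φ, Nat.succ_le_succ h1, fun W H b => by rw [Rz_all]; simp only [h2]⟩

lemma Df.ex {k n : ℕ} {P : ∀ (W : Type), SimpleGraph W → (Fin (n + 1) → W) → Prop}
    (h : Df k (n + 1) P) : Df (k + 1) n fun W H b => ∃ y, P W H (Fin.snoc b y) :=
  h.not.all.not.congr fun _ _ _ => by simp

lemma Df.eq (k : ℕ) {n : ℕ} (i j : Fin n) : Df k n fun _ _ b => b i = b j :=
  ⟨.equal (Term.var (Sum.inr i)) (Term.var (Sum.inr j)), Nat.zero_le _, fun _ _ _ => Iff.rfl⟩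

lemma Df.adj (k : ℕ) {n : ℕ} (i j : Fin n) : Df k n fun _ H b => H.Adj (b i) (b j) :=
  ⟨.rel FirstOrder.Language.adj (fun t => Term.var (Sum.inr (![i, j] t))), Nat.zero_le _, fun _ _ _ => Iff.rfl⟩

lemma E_congr {k : ℕ} {l l' : List (V × W)} (h : ∀ p, p ∈ l ↔ p ∈ l') : E G H k l ↔ E G H k l' :=
  ⟨fun hE => hE.sub fun p hp => (h p).2 hp, fun hE => hE.sub fun p hp => (h p).1 hp⟩

lemma hintikka [Finite V] (G : SimpleGraph V) (k : ℕ) : ∀ (n : ℕ) (a : Fin n → V),
    Df k n fun W H b => E G H k (List.ofFn fun i => (a i, b i)) := by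
  have hpi : ∀ (k n : ℕ) (a : Fin n → V),
      Df k n fun W H b => PI G H (List.ofFn fun i => (a i, b i)) := by
    intro k n a
    refine (Df.forall fun i : Fin n => Df.forall fun j : Fin n =>
      ((Df.eq k i j).const_iff (a i = a j)).and
        ((Df.adj k i j).const_iff (G.Adj (a i) (a j)))).congr fun W H b => ?_
    simp [PI, List.mem_ofFn']
  induction k with
  | zero => exact hpi 0
  | succ k ih =>
    intro n a
    have hs : ∀ (W : Type) (H : SimpleGraph W) (b : Fin n → W) x y,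
        E G H k (List.ofFn fun i => (Fin.snoc (α := fun _ => V) a x i,
          Fin.snoc (α := fun _ => W) b y i)) ↔ E G H k ((x, y) :: List.ofFn fun i => (a i, b i)) := by
      intro W H b x y
      refine E_congr fun p => ?_
      simp only [List.mem_ofFn', Set.mem_range, List.mem_cons]
      constructor
      · rintro ⟨i, rfl⟩
        refine Fin.lastCases ?_ (fun i => ?_) i
        · simp
        · simp only [Fin.snoc_castSucc]
          exact Or.inr ⟨i, rfl⟩
      · rintro (rfl | ⟨i, rfl⟩)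
        · exact ⟨Fin.last n, by simp⟩
        · exact ⟨i.castSucc, by simp⟩
    refine ((hpi (k + 1) n a).and ((Df.forall fun x : V => (ih (n + 1) (Fin.snoc a x)).ex).and
      (Df.exists fun x : V => ih (n + 1) (Fin.snoc a x)).all)).congr fun W H b => ?_
    simp only [hs]
    rfl

lemma models_iff (Φ : Language.graph.Sentence) : Models G Φ ↔ Rz G Φ default := Iff.rfl

lemma E.models {k : ℕ} (h : E G H k []) {Φ : Language.graph.Sentence} (hq : qd Φ ≤ k) :
    Models G Φ ↔ Models H Φ :=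
  E.rz Φ h (fun i => i.elim0) hq

lemma exists_defines [Finite V] {k : ℕ}
    (h : ∀ (m : ℕ) (H : SimpleGraph (Fin m)), E G H k [] → Nonempty (G ≃g H)) :
    ∃ Φ, Defines Φ G ∧ qd Φ ≤ k := by
  obtain ⟨φ, h1, h2⟩ := hintikka G k 0 default
  refine ⟨φ, ⟨?_, fun m H hH => h m H ?_⟩, h1⟩
  · rw [models_iff, h2]
    exact E.of_iso (SimpleGraph.Iso.refl) k _ (by simp)
  · rw [models_iff, h2] at hH
    simpa using hH

lemma iso_of_E [Finite V] (h : E G H (Nat.card V + 1) []) : Nonempty (G ≃g H) := by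
  classical
  have := Fintype.ofFinite V
  have key : ∀ (s : List V) (k : ℕ), E G H (s.length + k) [] →
      ∃ l, E G H k l ∧ ∀ x ∈ s, ∃ y, (x, y) ∈ l := by
    intro s
    induction s with
    | nil => intro k h; exact ⟨[], by simpa using h, by simp⟩
    | cons x s ih =>
      intro k h
      obtain ⟨l, h1, h2⟩ := ih (k + 1) (by rwa [List.length_cons, add_assoc, add_comm 1 k] at h)
      obtain ⟨y, hy⟩ := h1.2.1 x
      refine ⟨_, hy, fun x' hx' => ?_⟩
      rcases List.mem_cons.1 hx' with rfl | hx'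
      · exact ⟨y, List.mem_cons_self⟩
      · obtain ⟨y', hy'⟩ := h2 x' hx'
        exact ⟨y', List.mem_cons_of_mem _ hy'⟩
  obtain ⟨l, h1, h2⟩ := key Finset.univ.toList 1 (by simpa using h)
  choose f hf using fun x => h2 x (by simp)
  have hinj : Function.Injective f := fun x x' e => (h1.eq_iff (hf x) (hf x')).2 e
  have hsurj : Function.Surjective f := by
    intro y
    obtain ⟨x, hx⟩ := h1.2.2 y
    exact ⟨x, ((E.eq_iff (k := 0) hx List.mem_cons_self (List.mem_cons_of_mem _ (hf x))).1 rfl).symm⟩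
  exact ⟨⟨Equiv.ofBijective f ⟨hinj, hsurj⟩, (h1.adj_iff (hf _) (hf _)).symm⟩⟩

theorem depth_le_iff [Finite V] (G : SimpleGraph V) (k : ℕ) : logicalDepth G ≤ k ↔
    ∀ (W : Type) [Finite W] (H : SimpleGraph W), E G H k [] → Nonempty (G ≃g H) := by
  have hne : {d | ∃ Φ : Language.graph.Sentence, Defines Φ G ∧ qd Φ = d}.Nonempty := by
    obtain ⟨Φ, h, -⟩ := exists_defines (G := G) (k := Nat.card V + 1) fun m H hE => iso_of_E hE
    exact ⟨_, Φ, h, rfl⟩
  constructor
  · intro hk W _ H hE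
    obtain ⟨Φ, h1, h2⟩ := Nat.sInf_mem hne
    obtain ⟨m, ⟨e⟩⟩ := Finite.exists_equiv_fin W
    let H' : SimpleGraph (Fin m) := H.comap e.symm
    let i : H' ≃g H := SimpleGraph.Iso.comap e.symm H
    have hE' : E G H' k [] := E.comp hE (E.of_iso i.symm k [] (by simp)) (by simp)
    have hq : qd Φ ≤ k := by rw [h2]; exact hk
    obtain ⟨j⟩ := h1.2 m H' ((hE'.models hq).1 h1.1)
    exact ⟨j.trans i⟩
  · intro h
    obtain ⟨Φ, h1, h2⟩ := exists_defines (G := G) (k := k) fun m H hE => h _ H hE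
    exact le_trans (Nat.sInf_le ⟨Φ, h1, rfl⟩) h2

theorem depth_le_iff_of_iso [Finite V] [Finite U] {G : SimpleGraph V} {F : SimpleGraph U}
    (e : F ≃g G) (k : ℕ) : logicalDepth F ≤ k ↔
    ∀ (W : Type) [Finite W] (H : SimpleGraph W), E G H k [] → Nonempty (G ≃g H) := by
  rw [depth_le_iff]
  constructor
  · intro h W _ H hE
    obtain ⟨j⟩ := h W H (E.comp (E.of_iso e k [] (by simp)) hE (by simp))
    exact ⟨e.symm.trans j⟩
  · intro h W _ H hE
    obtain ⟨j⟩ := h W H (E.comp (E.of_iso e.symm k [] (by simp)) hE (by simp))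
    exact ⟨e.trans j⟩

end Pool.Agent.H431Z.LD
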