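import Mathlib
import Pool.Agent.H431Z.LD.EF

set_option autoImplicit false
set_option linter.unusedVariables false

namespace Pool.Agent.H431Z.LD

/-- local rules for coloured graphs -/
structure Rules (C : Type) where
  r : ℕ
  un : C → Prop
  rel : ℕ → C → C → Prop
  nd : C → ℕ → Prop
  sq : C → C → C → Prop
  fin : C → C → C → C → Prop

variable {C C' V W : Type}

/-- the rules hold at the vertex `x` (for an adjacency relation `A`) -/
def Good (R : Rules C) (A : V → V → Prop) (c : V → C) (x : V) : Prop :=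
  R.un (c x) ∧ (∀ y, A x y → ∃ d < R.r, R.rel d (c x) (c y)) ∧
    (∀ d < R.r, R.nd (c x) d → ∃ y, A x y ∧ R.rel d (c x) (c y)) ∧
    (∀ d < R.r, ∀ y y', A x y → A x y' → R.rel d (c x) (c y) → R.rel d (c x) (c y') → y = y') ∧
    (∀ y y', A x y → A x y' → R.sq (c x) (c y) (c y') →
      ∃ z, A y z ∧ A y' z ∧ R.fin (c x) (c y) (c y') (c z))

/-- there is a finite nonempty coloured graph all of whose vertices satisfy the rules -/
def HasModel (R : Rules C) : Prop :=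
  ∃ (V : Type) (_ : Finite V) (_ : Nonempty V) (G : SimpleGraph V) (c : V → C), ∀ x, Good R G.Adj c x

/-- pull back of rules along a map of colours -/
def Rules.comap (R : Rules C) (f : C' → C) : Rules C' where
  r := R.r
  un a := R.un (f a)
  rel d a b := R.rel d (f a) (f b)
  nd a d := R.nd (f a) d
  sq a b c := R.sq (f a) (f b) (f c)
  fin a b c d := R.fin (f a) (f b) (f c) (f d)

lemma hasModel_comap (R : Rules C) {f : C' → C} (hf : Function.Surjective f) :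
    HasModel (R.comap f) ↔ HasModel R := by
  constructor
  · rintro ⟨V, h1, h2, G, c, h⟩
    exact ⟨V, h1, h2, G, f ∘ c, h⟩
  · rintro ⟨V, h1, h2, G, c, h⟩
    obtain ⟨g, hg⟩ := hf.hasRightInverse
    refine ⟨V, h1, h2, G, g ∘ c, fun x => ?_⟩
    have : c = f ∘ (g ∘ c) := by funext y; exact (hg _).symm
    have hx := h x
    rw [this] at hx
    exact hx

lemma Good.transfer {R : Rules C} {A : V → V → Prop} {B : W → W → Prop} {c : V → C} {c' : W → C}
    {x : V} {x' : W} (h : Good R A c x) (S : V → W → Prop) (hc : ∀ u v, S u v → c u = c' v)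
    (hi : ∀ u v u' v', S u v → S u' v' → (A u u' ↔ B v v') ∧ (u = u' → v = v'))
    (hx : S x x') (hb : ∀ y', B x' y' → ∃ y, S y y') (hf : ∀ y, A x y → ∃ y', S y y')
    (hf2 : ∀ y z, A x y → A y z → ∃ z', S z z') : Good R B c' x' := by
  obtain ⟨h1, h2, h3, h4, h5⟩ := h
  rw [Good, ← hc _ _ hx]
  refine ⟨h1, fun y' hy' => ?_, fun d hd hn => ?_, fun d hd y₁ y₂ a1 a2 b1 b2 => ?_,
    fun y₁ y₂ a1 a2 b => ?_⟩
  · obtain ⟨y, hy⟩ := hb y' hy'
    rw [← hc _ _ hy]
    exact h2 y ((hi _ _ _ _ hx hy).1.2 hy')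
  · obtain ⟨y, a, b⟩ := h3 d hd hn
    obtain ⟨y', hy⟩ := hf y a
    exact ⟨y', (hi _ _ _ _ hx hy).1.1 a, by rw [← hc _ _ hy]; exact b⟩
  · obtain ⟨u₁, hu₁⟩ := hb y₁ a1
    obtain ⟨u₂, hu₂⟩ := hb y₂ a2
    rw [← hc _ _ hu₁] at b1
    rw [← hc _ _ hu₂] at b2
    exact (hi _ _ _ _ hu₁ hu₂).2 (h4 d hd u₁ u₂ ((hi _ _ _ _ hx hu₁).1.2 a1)
      ((hi _ _ _ _ hx hu₂).1.2 a2) b1 b2)
  · obtain ⟨u₁, hu₁⟩ := hb y₁ a1
    obtain ⟨u₂, hu₂⟩ := hb y₂ a2
    rw [← hc _ _ hu₁, ← hc _ _ hu₂] at b ⊢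
    obtain ⟨z, e1, e2, e3⟩ := h5 u₁ u₂ ((hi _ _ _ _ hx hu₁).1.2 a1) ((hi _ _ _ _ hx hu₂).1.2 a2) b
    obtain ⟨z', hz⟩ := hf2 u₁ z ((hi _ _ _ _ hx hu₁).1.2 a1) e1
    exact ⟨z', (hi _ _ _ _ hu₁ hz).1.1 e1, (hi _ _ _ _ hu₂ hz).1.1 e2, by rw [← hc _ _ hz]; exact e3⟩

lemma closed_good_empty {R : Rules C} (hR : ¬ HasModel R) {A : V → V → Prop}
    (hs : ∀ x y, A x y → A y x) (hi : ∀ x, ¬ A x x) (c : V → C) (S : Set V) (hS : S.Finite)
    (hcl : ∀ x ∈ S, ∀ y, A x y → y ∈ S) (hg : ∀ x ∈ S, Good R A c x) : ∀ x, x ∉ S := by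
  intro x hx
  apply hR
  let G : SimpleGraph S :=
    { Adj := fun u v => A u.1 v.1
      symm := ⟨fun u v h => hs _ _ h⟩
      loopless := ⟨fun u h => hi _ h⟩ }
  refine ⟨S, hS, ⟨⟨x, hx⟩⟩, G, fun u => c u.1, fun u => ?_⟩
  refine (hg u.1 u.2).transfer (fun a b => a = b.1) ?_ ?_ rfl ?_ ?_ ?_
  · rintro a b rfl; rfl
  · rintro a b a' b' rfl rfl
    exact ⟨Iff.rfl, fun h => Subtype.ext h⟩
  · intro y' _; exact ⟨y'.1, rfl⟩
  · intro y hy; exact ⟨⟨y, hcl _ u.2 _ hy⟩, rfl⟩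
  · intro y z hy hz; exact ⟨⟨z, hcl _ (hcl _ u.2 _ hy) _ hz⟩, rfl⟩

/-- `y` is reached from `x` in at most `n` steps -/
def Near (A : V → V → Prop) : ℕ → V → V → Prop
  | 0, x, y => x = y
  | n + 1, x, y => Near A n x y ∨ ∃ z, Near A n x z ∧ A z y

variable {A : V → V → Prop}

lemma Near.succ {n : ℕ} {x y : V} (h : Near A n x y) : Near A (n + 1) x y := Or.inl h

lemma Near.mono {n m : ℕ} {x y : V} (h : Near A n x y) (hnm : n ≤ m) : Near A m x y := by
  induction hnm with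
  | refl => exact h
  | step _ ih => exact ih.succ

lemma Near.refl (n : ℕ) (x : V) : Near A n x x := Near.mono (n := 0) rfl (Nat.zero_le _)

lemma Near.step {n : ℕ} {x y z : V} (h : Near A n x y) (h' : A y z) : Near A (n + 1) x z :=
  Or.inr ⟨y, h, h'⟩

lemma Near.trans {n m : ℕ} {x y : V} (h : Near A n x y) : ∀ {z : V}, Near A m y z →
    Near A (n + m) x z := by
  induction m with
  | zero => intro z h'; obtain rfl : y = z := h'; exact h
  | succ m ih =>
    rintro z (h' | ⟨u, h1, h2⟩)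
    · exact (ih h').succ
    · exact (ih h1).step h2

lemma Near.symm (hs : ∀ x y, A x y → A y x) {n : ℕ} {x : V} : ∀ {y : V}, Near A n x y →
    Near A n y x := by
  induction n with
  | zero => intro y h; exact Eq.symm h
  | succ n ih =>
    rintro y (h | ⟨u, h1, h2⟩)
    · exact (ih h).succ
    · have := ((Near.refl 0 y).step (hs _ _ h2)).trans (ih h1)
      rwa [zero_add, add_comm] at this

lemma Near.inv {n : ℕ} {x : V} (P : V → Prop) (hP : ∀ a b, A a b → P a → P b) (hx : P x) :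
    ∀ {y : V}, Near A n x y → P y := by
  induction n with
  | zero => intro y h; obtain rfl : x = y := h; exact hx
  | succ n ih =>
    rintro y (h | ⟨u, h1, h2⟩)
    · exact ih h
    · exact hP _ _ h2 (ih h1)

lemma Good.nbrs {R : Rules C} {c : V → C} {x : V} (h : Good R A c x) :
    ∃ s : Finset V, s.card ≤ R.r ∧ ∀ y, A x y → y ∈ s := by
  classical
  refine ⟨(Finset.range R.r).image fun d =>
    if h : ∃ y, A x y ∧ R.rel d (c x) (c y) then h.choose else x, ?_, fun y hy => ?_⟩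
  · exact Finset.card_image_le.trans (by simp)
  · obtain ⟨d, hd, hrel⟩ := h.2.1 y hy
    refine Finset.mem_image.2 ⟨d, Finset.mem_range.2 hd, ?_⟩
    have hex : ∃ y, A x y ∧ R.rel d (c x) (c y) := ⟨y, hy, hrel⟩
    rw [dif_pos hex]
    exact h.2.2.2.1 d hd _ _ hex.choose_spec.1 hy hex.choose_spec.2 hrel

lemma ball_bound {R : Rules C} {c : V → C} (h : ∀ x, Good R A c x) (x : V) (n : ℕ) :
    ∃ s : Finset V, s.card ≤ (R.r + 1) ^ n ∧ ∀ y, Near A n x y → y ∈ s := by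
  classical
  choose N hN1 hN2 using fun x => (h x).nbrs
  induction n with
  | zero => exact ⟨{x}, by simp, fun y hy => by obtain rfl : x = y := hy; simp⟩
  | succ n ih =>
    obtain ⟨s, h1, h2⟩ := ih
    refine ⟨s ∪ s.biUnion N, ?_, ?_⟩
    · calc (s ∪ s.biUnion N).card ≤ s.card + (s.biUnion N).card := Finset.card_union_le _ _
        _ ≤ s.card + s.card * R.r := by
            gcongr
            exact Finset.card_biUnion_le_card_mul _ _ _ fun a _ => hN1 a
        _ = s.card * (R.r + 1) := by ring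
        _ ≤ _ := by rw [pow_succ]; gcongr
    · rintro y (hy | ⟨u, a, b⟩)
      · exact Finset.mem_union_left _ (h2 y hy)
      · exact Finset.mem_union_right _ (Finset.mem_biUnion.2 ⟨u, h2 u a, hN2 u y b⟩)

/-! ### graded partial isomorphisms and a Hanf type argument -/

section Hanf

variable {L : Type} (A) (lab : V → L)

/-- a graded partial isomorphism of the labelled graph `(V, A, lab)` -/
structure Graded (R : ℕ → V → V → Prop) : Prop where
  anti : ∀ i u v, R (i + 1) u v → R i u v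
  iso : ∀ u v u' v', R 0 u v → R 0 u' v' → (u = u' ↔ v = v') ∧ (A u u' ↔ A v v')
  lab : ∀ u v, R 0 u v → lab u = lab v
  forth : ∀ i u v u', R (i + 1) u v → A u u' → ∃ v', R i u' v'
  back : ∀ i u v v', R (i + 1) u v → A v v' → ∃ u', R i u' v'

/-- the balls of radius `r` about `x` and `y` are isomorphic -/
def Patch (r : ℕ) (x y : V) : Prop := ∃ R, Graded A lab R ∧ R r x y

variable {A lab}

lemma Graded.mono {R : ℕ → V → V → Prop} (h : Graded A lab R) {i j : ℕ} {u v : V} (huv : R j u v)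
    (hij : i ≤ j) : R i u v := by
  induction hij with
  | refl => exact huv
  | step _ ih => exact ih (h.anti _ _ _ huv)

lemma Graded.flip {R : ℕ → V → V → Prop} (h : Graded A lab R) :
    Graded A lab (fun i u v => R i v u) where
  anti i u v := h.anti i v u
  iso u v u' v' a b := ⟨(h.iso _ _ _ _ a b).1.symm, (h.iso _ _ _ _ a b).2.symm⟩
  lab u v a := (h.lab _ _ a).symm
  forth i u v u' a b := h.back _ _ _ _ a b
  back i u v u' a b := h.forth _ _ _ _ a b

lemma Graded.walk {R : ℕ → V → V → Prop} (h : Graded A lab R) {s : ℕ} {u v : V} :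
    ∀ {i : ℕ} {u' : V}, R (i + s) u v → Near A s u u' → ∃ v', R i u' v' ∧ Near A s v v' := by
  induction s with
  | zero => intro i u' a b; obtain rfl : u = u' := b; exact ⟨v, a, rfl⟩
  | succ s ih =>
    rintro i u' a (b | ⟨z, b1, b2⟩)
    · obtain ⟨v', c1, c2⟩ := ih (i := i) (h.anti _ _ _ a) b
      exact ⟨v', c1, c2.succ⟩
    · obtain ⟨z', c1, c2⟩ := ih (i := i + 1) (by rwa [add_assoc, add_comm 1 s]) b1
      obtain ⟨v', d⟩ := h.forth _ _ _ _ c1 b2
      refine ⟨v', d, c2.step ?_⟩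
      exact (h.iso _ _ _ _ (h.mono c1 (Nat.zero_le _)) (h.mono d (Nat.zero_le _))).2.1 b2

lemma Graded.eq : Graded A lab (fun _ u v => u = v) where
  anti _ _ _ h := h
  iso := by rintro u v u' v' rfl rfl; exact ⟨Iff.rfl, Iff.rfl⟩
  lab := by rintro u v rfl; rfl
  forth := by rintro i u v u' rfl _; exact ⟨u', rfl⟩
  back := by rintro i u v u' rfl _; exact ⟨u', rfl⟩

lemma Patch.symm {r : ℕ} {x y : V} (h : Patch A lab r x y) : Patch A lab r y x := by
  obtain ⟨R, h1, h2⟩ := h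
  exact ⟨_, h1.flip, h2⟩

lemma Patch.mono {r r' : ℕ} {x y : V} (h : Patch A lab r x y) (hr : r' ≤ r) :
    Patch A lab r' x y := by
  obtain ⟨R, h1, h2⟩ := h
  exact ⟨R, h1, h1.mono h2 hr⟩

lemma Patch.trans {r : ℕ} {x y z : V} (h : Patch A lab r x y) (h' : Patch A lab r y z) :
    Patch A lab r x z := by
  obtain ⟨R, h1, h2⟩ := h
  obtain ⟨R', h3, h4⟩ := h'
  refine ⟨fun i u w => ∃ v, R i u v ∧ R' i v w, ⟨?_, ?_, ?_, ?_, ?_⟩, y, h2, h4⟩
  · rintro i u w ⟨v, a, b⟩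
    exact ⟨v, h1.anti _ _ _ a, h3.anti _ _ _ b⟩
  · rintro u w u' w' ⟨v, a, b⟩ ⟨v', a', b'⟩
    exact ⟨(h1.iso _ _ _ _ a a').1.trans (h3.iso _ _ _ _ b b').1,
      (h1.iso _ _ _ _ a a').2.trans (h3.iso _ _ _ _ b b').2⟩
  · rintro u w ⟨v, a, b⟩
    exact (h1.lab _ _ a).trans (h3.lab _ _ b)
  · rintro i u w u' ⟨v, a, b⟩ hu
    obtain ⟨v', c⟩ := h1.forth _ _ _ _ a hu
    have hv : A v v' :=
      (h1.iso _ _ _ _ (h1.mono a (Nat.zero_le _)) (h1.mono c (Nat.zero_le _))).2.1 hu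
    obtain ⟨w', d⟩ := h3.forth _ _ _ _ b hv
    exact ⟨w', v', c, d⟩
  · rintro i u w w' ⟨v, a, b⟩ hw
    obtain ⟨v', c⟩ := h3.back _ _ _ _ b hw
    have hv : A v v' :=
      (h3.iso _ _ _ _ (h3.mono b (Nat.zero_le _)) (h3.mono c (Nat.zero_le _))).2.2 hw
    obtain ⟨u', d⟩ := h1.back _ _ _ _ a hv
    exact ⟨u', v', d, c⟩

variable (A lab) in
/-- `x` looks like a point outside `S` -/
def Ab (S : V → Prop) (r : ℕ) (x : V) : Prop := ∃ c, ¬ S c ∧ Patch A lab r x c

lemma Ab.mono {S : V → Prop} {r r' : ℕ} {x : V} (h : Ab A lab S r x) (hr : r' ≤ r) :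
    Ab A lab S r' x := by
  obtain ⟨c, h1, h2⟩ := h
  exact ⟨c, h1, h2.mono hr⟩

lemma Ab.walk {S : V → Prop} (hS : ∀ a b, A a b → ¬ S a → ¬ S b) {r s : ℕ} {x x' : V}
    (h : Ab A lab S (r + s) x) (hn : Near A s x x') : Ab A lab S r x' := by
  obtain ⟨c, h1, R, h2, h3⟩ := h
  obtain ⟨c', a, b⟩ := h2.walk h3 hn
  exact ⟨c', b.inv (fun a => ¬ S a) hS h1, R, h2, a⟩

lemma Ab.patch {S : V → Prop} {r : ℕ} {x y : V} (h : Ab A lab S r x) (h' : Patch A lab r y x) :
    Ab A lab S r y := by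
  obtain ⟨c, h1, h2⟩ := h
  exact ⟨c, h1, h'.trans h2⟩

variable (A lab) in
/-- invariant of the strategy of Duplicator -/
def HInv (S : V → Prop) (r : ℕ) (l : List (V × V)) : Prop :=
  ∃ R, Graded A lab R ∧ (∀ i u v, R i u v → u = v ∨ Ab A lab S i u) ∧ ∀ p ∈ l, R r p.1 p.2

lemma HInv.flip {S : V → Prop} {r : ℕ} {l : List (V × V)} (h : HInv A lab S r l) :
    HInv A lab S r (l.map Prod.swap) := by
  obtain ⟨R, h1, h2, h3⟩ := h
  refine ⟨_, h1.flip, fun i u v a => ?_, fun p hp => ?_⟩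
  · rcases h2 i v u a with e | e
    · exact Or.inl e.symm
    · exact Or.inr (e.patch ⟨_, h1.flip, a⟩)
  · obtain ⟨q, hq, rfl⟩ := List.mem_map.1 hp
    exact h3 q hq

lemma HInv.far (hs : ∀ x y, A x y → A y x) {S : V → Prop} (hS : ∀ a b, A a b → ¬ S a → ¬ S b)
    {r r' : ℕ} (hr : r ≤ r') {l : List (V × V)} (h : HInv A lab S r' l) {x y : V}
    (hx : ∀ p ∈ l, ¬ Near A (2 * r + 1) p.1 x) (hy : ∀ p ∈ l, ¬ Near A (2 * r + 1) p.2 y)
    (hxy : x = y ∨ (Patch A lab r x y ∧ Ab A lab S r x)) : HInv A lab S r ((x, y) :: l) := by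
  obtain ⟨R, h1, h2, h3⟩ := h
  obtain ⟨R', g1, g2, g3⟩ : ∃ R', Graded A lab R' ∧ R' r x y ∧
      ∀ i u v, i ≤ r → R' i u v → Near A (r - i) x u → u = v ∨ Ab A lab S i u := by
    rcases hxy with rfl | ⟨⟨R', a, b⟩, c⟩
    · exact ⟨_, Graded.eq, rfl, fun i u v _ e _ => Or.inl e⟩
    · refine ⟨R', a, b, fun i u v hi _ e => Or.inr (Ab.walk hS ?_ e)⟩
      rwa [Nat.add_sub_cancel' hi]
  have sep : ∀ {a b u u' : V}, ¬ Near A (2 * r + 1) a b → Near A (r - 0) a u → Near A (r - 0) b u' →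
      u ≠ u' ∧ ¬ A u u' ∧ ¬ A u' u := by
    intro a b u u' hn e1 e2
    have e3 := e2.symm hs
    refine ⟨?_, fun e => hn ?_, fun e => hn ?_⟩
    · rintro rfl
      exact hn ((e1.trans e3).mono (by omega))
    · exact ((e1.step e).trans e3).mono (by omega)
    · exact ((e1.step (hs _ _ e)).trans e3).mono (by omega)
  refine ⟨fun i u v => i ≤ r ∧ ((R i u v ∧ ∃ p ∈ l, Near A (r - i) p.1 u ∧ Near A (r - i) p.2 v) ∨
    (R' i u v ∧ Near A (r - i) x u ∧ Near A (r - i) y v)), ⟨?_, ?_, ?_, ?_, ?_⟩, ?_, ?_⟩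
  · rintro i u v ⟨hi, ⟨a, p, hp, b, c⟩ | ⟨a, b, c⟩⟩
    · exact ⟨by omega, Or.inl ⟨h1.anti _ _ _ a, p, hp, b.mono (by omega), c.mono (by omega)⟩⟩
    · exact ⟨by omega, Or.inr ⟨g1.anti _ _ _ a, b.mono (by omega), c.mono (by omega)⟩⟩
  · rintro u v u' v' ⟨-, ⟨a, p, hp, b, c⟩ | ⟨a, b, c⟩⟩ ⟨-, ⟨a', p', hp', b', c'⟩ | ⟨a', b', c'⟩⟩
    · exact h1.iso _ _ _ _ a a'
    · have e1 := sep (hx p hp) b b'
      have e2 := sep (hy p hp) c c'
      exact ⟨iff_of_false e1.1 e2.1, iff_of_false e1.2.1 e2.2.1⟩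
    · have e1 := sep (hx p' hp') b' b
      have e2 := sep (hy p' hp') c' c
      exact ⟨iff_of_false e1.1.symm e2.1.symm, iff_of_false e1.2.2 e2.2.2⟩
    · exact g1.iso _ _ _ _ a a'
  · rintro u v ⟨-, ⟨a, -⟩ | ⟨a, -⟩⟩
    · exact h1.lab _ _ a
    · exact g1.lab _ _ a
  · rintro i u v u' ⟨hi, ⟨a, p, hp, b, c⟩ | ⟨a, b, c⟩⟩ hu
    · obtain ⟨v', d⟩ := h1.forth _ _ _ _ a hu
      have hv : A v v' :=
        (h1.iso _ _ _ _ (h1.mono a (Nat.zero_le _)) (h1.mono d (Nat.zero_le _))).2.1 hu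
      exact ⟨v', by omega, Or.inl ⟨d, p, hp, (b.step hu).mono (by omega), (c.step hv).mono (by omega)⟩⟩
    · obtain ⟨v', d⟩ := g1.forth _ _ _ _ a hu
      have hv : A v v' :=
        (g1.iso _ _ _ _ (g1.mono a (Nat.zero_le _)) (g1.mono d (Nat.zero_le _))).2.1 hu
      exact ⟨v', by omega, Or.inr ⟨d, (b.step hu).mono (by omega), (c.step hv).mono (by omega)⟩⟩
  · rintro i u v v' ⟨hi, ⟨a, p, hp, b, c⟩ | ⟨a, b, c⟩⟩ hv
    · obtain ⟨u', d⟩ := h1.back _ _ _ _ a hv
      have hu : A u u' :=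
        (h1.iso _ _ _ _ (h1.mono a (Nat.zero_le _)) (h1.mono d (Nat.zero_le _))).2.2 hv
      exact ⟨u', by omega, Or.inl ⟨d, p, hp, (b.step hu).mono (by omega), (c.step hv).mono (by omega)⟩⟩
    · obtain ⟨u', d⟩ := g1.back _ _ _ _ a hv
      have hu : A u u' :=
        (g1.iso _ _ _ _ (g1.mono a (Nat.zero_le _)) (g1.mono d (Nat.zero_le _))).2.2 hv
      exact ⟨u', by omega, Or.inr ⟨d, (b.step hu).mono (by omega), (c.step hv).mono (by omega)⟩⟩
  · rintro i u v ⟨hi, ⟨a, -⟩ | ⟨a, b, -⟩⟩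
    · exact h2 _ _ _ a
    · exact g3 _ _ _ hi a b
  · intro p hp
    rcases List.mem_cons.1 hp with rfl | hp
    · exact ⟨le_rfl, Or.inr ⟨g2, Near.refl _ _, Near.refl _ _⟩⟩
    · exact ⟨le_rfl, Or.inl ⟨h1.mono (h3 p hp) hr, p, hp, Near.refl _ _, Near.refl _ _⟩⟩

/-- one move: the answer to `x` is near a pebbled answer, or `x` itself, or a fresh point -/
lemma HInv.move (hs : ∀ x y, A x y → A y x) {S : V → Prop} (hS : ∀ a b, A a b → ¬ S a → ¬ S b)
    {r : ℕ} (hr : 1 ≤ r) {l : List (V × V)} (h : HInv A lab S (4 * r) l)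
    (fresh : ∀ c, ¬ S c → ∃ y, S y ∧ Patch A lab r y c ∧
      ∀ p ∈ l, ¬ Near A (2 * r + 1) p.1 y ∧ ¬ Near A (2 * r + 1) p.2 y)
    (T : V → Prop) (hT : ∀ a b, A a b → T a → T b) (hTS : ∀ a, S a → T a) (hl : ∀ p ∈ l, T p.2)
    (x : V) : ∃ y, T y ∧ HInv A lab S r ((x, y) :: l) := by
  by_cases hx : ∃ p ∈ l, Near A (2 * r + 1) p.1 x
  · obtain ⟨p, hp, hn⟩ := hx
    obtain ⟨R, h1, h2, h3⟩ := h
    obtain ⟨y, a, b⟩ := h1.walk (i := r) (h1.mono (h3 p hp) (by omega)) hn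
    refine ⟨y, b.inv T hT (hl p hp), R, h1, h2, fun q hq => ?_⟩
    rcases List.mem_cons.1 hq with rfl | hq
    · exact a
    · exact h1.mono (h3 q hq) (by omega)
  · push Not at hx
    have fr : Ab A lab S r x → ∃ y, T y ∧ HInv A lab S r ((x, y) :: l) := by
      rintro ⟨c, h1, h2⟩
      obtain ⟨y, a, b, d⟩ := fresh c h1
      exact ⟨y, hTS y a, h.far hs hS (by omega) hx (fun p hp => (d p hp).2)
        (Or.inr ⟨h2.trans b.symm, c, h1, h2⟩)⟩
    by_cases hSx : S x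
    · by_cases hy : ∃ p ∈ l, Near A (2 * r + 1) p.2 x
      · obtain ⟨p, hp, hn⟩ := hy
        obtain ⟨R, h1, h2, h3⟩ := h.flip
        rcases h2 _ _ _ (h3 p.swap (List.mem_map_of_mem hp)) with e | e
        · exact absurd (by rw [show p.1 = p.2 from e.symm]; exact hn) (hx p hp)
        · exact fr (Ab.walk hS (e.mono (by omega)) hn)
      · push Not at hy
        exact ⟨x, hTS x hSx, h.far hs hS (by omega) hx hy (Or.inl rfl)⟩
    · exact fr ⟨x, hSx, _, Graded.eq, rfl⟩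

end Hanf

/-- adjacency of cells -/
def cellAdj {VH : Type} (H : SimpleGraph VH) (cell : VH → Prop) (a b : VH) : Prop :=
  cell a ∧ cell b ∧ H.Adj a b

/-- label of a vertex: its name, if it is not a cell, and its neighbours that are not cells -/
def cellLab {VH : Type} (H : SimpleGraph VH) (cell : VH → Prop) (a : VH) : VH → Prop × Prop :=
  fun v => (¬ cell a ∧ a = v, ¬ cell v ∧ H.Adj a v)

/-- Hanf type lemma: `H` is obtained from `G` by adding cells that look like many cells of `G`. -/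
theorem hanf {VG VH : Type} (G : SimpleGraph VG) (H : SimpleGraph VH) (ι : G ↪g H)
    (cell : VH → Prop)
    (hcl : ∀ a b, cell a → cell b → H.Adj a b → a ∈ Set.range ι → b ∈ Set.range ι) (k : ℕ)
    (fresh : ∀ c, c ∉ Set.range ι → ∀ u : List VH, u.length ≤ 2 * k → ∃ y ∈ Set.range ι,
      Patch (cellAdj H cell) (cellLab H cell) (4 ^ k) y c ∧
        ∀ p ∈ u, ∀ n, ¬ Near (cellAdj H cell) n p y) :
    E G H k [] := by
  classical
  set A : VH → VH → Prop := cellAdj H cell with hA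
  set lab := cellLab H cell with hlab
  set S : VH → Prop := fun v => v ∈ Set.range ι with hSdef
  have hs : ∀ x y, A x y → A y x := fun x y h => ⟨h.2.1, h.1, h.2.2.symm⟩
  have hS' : ∀ a b, A a b → S a → S b := fun a b h => hcl a b h.1 h.2.1 h.2.2
  have hS : ∀ a b, A a b → ¬ S a → ¬ S b := fun a b h ha hb => ha (hS' b a (hs _ _ h) hb)
  have hl1 : ∀ a b, lab a = lab b → ¬ cell a → a = b := by
    intro a b h ha
    have := congrArg Prod.fst (congrFun h a)
    simp only [hlab, cellLab, eq_iff_iff] at this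
    exact (this.1 ⟨ha, trivial⟩).2.symm
  have hl2 : ∀ a b v, lab a = lab b → ¬ cell v → (H.Adj a v ↔ H.Adj b v) := by
    intro a b v h hv
    have := congrArg Prod.snd (congrFun h v)
    simpa only [hlab, cellLab, eq_iff_iff, hv, not_false_eq_true, true_and] using this
  have key : ∀ (j : ℕ) (l : List (VG × VH)), l.length + j ≤ k →
      HInv A lab S (4 ^ j) (l.map fun p => (ι p.1, p.2)) → E G H j l := by
    have hpi : ∀ (j : ℕ) (l : List (VG × VH)),
        HInv A lab S j (l.map fun p => (ι p.1, p.2)) → PI G H l := by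
      rintro j l ⟨R, h1, -, h3⟩ p hp q hq
      have a := h1.mono (h3 _ (List.mem_map_of_mem hp)) (Nat.zero_le _)
      have b := h1.mono (h3 _ (List.mem_map_of_mem hq)) (Nat.zero_le _)
      have c := h1.iso _ _ _ _ a b
      have la := h1.lab _ _ a
      have lb := h1.lab _ _ b
      simp only at a b c la lb
      refine ⟨ι.injective.eq_iff.symm.trans c.1, ι.map_adj_iff.symm.trans ?_⟩
      by_cases h5 : cell q.2
      · by_cases h4 : cell p.2
        · have e1 : cell (ι p.1) := by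
            by_contra h; exact h (hl1 _ _ la h ▸ h4)
          have e2 : cell (ι q.1) := by
            by_contra h; exact h (hl1 _ _ lb h ▸ h5)
          have := c.2
          simpa only [hA, cellAdj, e1, e2, h4, h5, true_and] using this
        · rw [← hl1 _ _ la.symm h4, H.adj_comm, hl2 _ _ _ lb h4, H.adj_comm]
      · rw [← hl1 _ _ lb.symm h5, hl2 _ _ _ la h5]
    intro j
    induction j with
    | zero => intro l _ h; exact hpi _ l h
    | succ j ih =>
      intro l hk h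
      have hr : 1 ≤ 4 ^ j := Nat.one_le_pow _ _ (by norm_num)
      rw [pow_succ, mul_comm] at h
      have fr : ∀ l' : List (VH × VH), l'.length ≤ k → ∀ c, ¬ S c → ∃ y, S y ∧
          Patch A lab (4 ^ j) y c ∧
          ∀ p ∈ l', ¬ Near A (2 * 4 ^ j + 1) p.1 y ∧ ¬ Near A (2 * 4 ^ j + 1) p.2 y := by
        intro l' hl' c hc
        obtain ⟨y, a, b, d⟩ := fresh c hc (l'.map Prod.fst ++ l'.map Prod.snd) (by simp; omega)
        refine ⟨y, a, b.mono (Nat.pow_le_pow_right (by norm_num) (by omega)), fun p hp => ⟨?_, ?_⟩⟩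
        · exact d _ (List.mem_append_left _ (List.mem_map_of_mem hp)) _
        · exact d _ (List.mem_append_right _ (List.mem_map_of_mem hp)) _
      refine ⟨hpi _ l h, fun x => ?_, fun y => ?_⟩
      · obtain ⟨y, -, hy⟩ := h.move hs hS hr (fr _ (by simp; omega)) (fun _ => True)
          (fun _ _ _ _ => trivial) (fun _ _ => trivial) (fun _ _ => trivial) (ι x)
        exact ⟨y, ih _ (by simp; omega) hy⟩
      · obtain ⟨x, ⟨x, rfl⟩, hx⟩ := h.flip.move hs hS hr (fr _ (by simp; omega)) S hS'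
          (fun _ h => h) (by
            intro p hp
            simp only [List.map_map, List.mem_map] at hp
            obtain ⟨q, -, rfl⟩ := hp
            exact ⟨q.1, rfl⟩) y
        refine ⟨x, ih _ (by simp; omega) ?_⟩
        have := hx.flip
        simpa [List.map_map, Function.comp_def] using this
  exact key k [] (by simp) ⟨_, Graded.eq, fun _ _ _ e => Or.inl e, by simp⟩

end Pool.Agent.H431Z.LD
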