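import Mathlib
import Pool.Agent.H431Z.LD.Rules
import Pool.Agent.Helper948.Erode.Reg

set_option autoImplicit false
set_option linter.unusedVariables false

namespace Pool.Agent.H431Z.LD

open Pool.Agent.Helper948.Erode

/-- the finite part of a colour -/
structure K0 (P J : Type) (D : ℕ) where
  tm : Fin 3
  vm : Fin 3
  dm : Fin 3
  side : Option Bool
  hT : Bool
  hT' : Bool
  hV : Bool
  hV' : Bool
  h1 : Bool
  st : Option P
  br : Bool
  fl : Option J → Fin (D + 3) → Bool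

instance {P J : Type} [Finite P] [Finite J] (D : ℕ) : Finite (K0 P J D) := by
  refine Finite.of_injective (fun a : K0 P J D =>
    (a.tm, a.vm, a.dm, a.side, a.hT, a.hT', a.hV, a.hV', a.h1, a.st, a.br, a.fl)) ?_
  rintro ⟨⟩ ⟨⟩ h
  simp only [Prod.mk.injEq] at h
  simp only [K0.mk.injEq]
  exact h

variable {P J : Type} {D : ℕ}

/-- window of register flags -/
def K0.g (a : K0 P J D) (i : Option J) (e : ℕ) : Bool :=
  if h : e < D + 3 then a.fl i ⟨e, h⟩ else true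

variable (M : DM P J) (p0 : P) (j0 : J) (N : ℕ)

/-- increments, with a clock -/
def vec' (p : P) (b : Bool) : Option J → ℤ
  | none => 1
  | some j => M.vec p b j

/-- time edge -/
def relT (a b : K0 P J D) : Prop :=
  b.tm.val = (a.tm.val + 1) % 3 ∧ b.vm = a.vm ∧ b.dm = a.dm ∧ a.side = none ∧ b.side = none ∧
    a.hT = true ∧ b.hT' = true ∧ b.hV = a.hV ∧ b.hV' = a.hV' ∧
    ∃ p, a.st = some p ∧ b.st = M.nxt p a.br ∧ ∀ i, b.g i 1 = a.g i (1 + vec' M p a.br i).toNat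

/-- vertical edge -/
def relV (a b : K0 P J D) : Prop :=
  b.vm.val = (a.vm.val + 1) % 3 ∧ b.tm = a.tm ∧ b.dm = a.dm ∧ b.side = a.side ∧ a.hV = true ∧
    b.hV' = true ∧ b.hT = a.hT ∧ b.hT' = a.hT' ∧ b.st = a.st ∧ b.br = a.br ∧
    (b.h1 = true ↔ a.hV' = false) ∧ ∀ i, ∀ e ≤ D + 1, b.g i (e + 1) = a.g i e

/-- tree edge -/
def relC (s : Bool) (a b : K0 P J D) : Prop :=
  b.dm.val = (a.dm.val + 1) % 3 ∧ b.tm = a.tm ∧ b.vm = a.vm ∧ b.side = some s ∧ a.hV' = true ∧
    (a.h1 = true ↔ b.hV' = false)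

/-- edges, finite part -/
def rel0 (d : ℕ) (a b : K0 P J D) : Prop :=
  (d = 0 ∧ relT M a b) ∨ (d = 1 ∧ relT M b a) ∨ (d = 2 ∧ relV a b) ∨ (d = 3 ∧ relV b a) ∨
    (d = 4 ∧ relC false a b) ∨ (d = 5 ∧ relC true a b) ∨ (d = 6 ∧ ∃ s, relC s b a)

/-- edges -/
def relN (d : ℕ) (a b : K0 P J D × ℕ) : Prop :=
  rel0 M d a.1 b.1 ∧ (d = 2 → b.2 = min (a.2 + 1) N) ∧ (d = 3 → a.2 = min (b.2 + 1) N)

/-- vertex condition, finite part -/
def un0 (a : K0 P J D) : Prop :=
  a.side = none → ((a.hT = true ↔ a.st ≠ none) ∧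
    (a.hV' = false → (∀ i e, 2 ≤ e → a.g i e = true) ∧
      ∀ p, a.st = some p → a.br = a.g (some (M.reg p)) 1) ∧
    (a.hV = false → ∀ i, a.g i 0 = false ∧ a.g i 1 = false) ∧ (a.hT' = false → a.st = some p0))

/-- initial flags -/
def ini0 (b : Prop) (a : K0 P J D) : Prop :=
  a.side = none → a.hT' = false → ∀ i, (a.g i 1 = true ↔ i = some j0 ∧ b)

/-- required neighbours -/
def nd0 (a : K0 P J D) (d : ℕ) : Prop :=
  (d = 0 ∧ a.side = none ∧ a.hT = true) ∨ (d = 1 ∧ a.side = none ∧ a.hT' = true) ∨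
    (d = 2 ∧ a.hV = true) ∨ (d = 3 ∧ a.hV' = true) ∨ (d = 4 ∧ a.hV' = true) ∨
    (d = 5 ∧ a.hV' = true) ∨ (d = 6 ∧ a.side ≠ none)

variable (D) in
/-- the rules describing a halting computation -/
def srcRules : Rules (K0 P J D × ℕ) where
  r := 7
  un a := un0 M p0 a.1 ∧ a.2 ≤ N ∧ (a.1.hV' = false ∧ a.1.side = none → a.2 = 0) ∧
    ini0 j0 (a.2 < N) a.1
  rel := relN M N
  nd a d := nd0 a.1 d
  sq a b c := (relN M N 2 a b ∧ (relN M N 4 a c ∨ relN M N 5 a c)) ∨
    (relN M N 0 a b ∧ relN M N 2 a c)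
  fin a b c z := (relN M N 2 a b → relN M N 4 a c → relN M N 4 b z ∧ relN M N 2 c z) ∧
    (relN M N 2 a b → relN M N 5 a c → relN M N 5 b z ∧ relN M N 2 c z) ∧
    (relN M N 0 a b → relN M N 2 a c → relN M N 2 b z ∧ relN M N 0 c z)

lemma relN0 (a b : K0 P J D × ℕ) : relN M N 0 a b ↔ relT M a.1 b.1 := by simp [relN, rel0]
lemma relN1 (a b : K0 P J D × ℕ) : relN M N 1 a b ↔ relT M b.1 a.1 := by simp [relN, rel0]
lemma relN2 (a b : K0 P J D × ℕ) : relN M N 2 a b ↔ relV a.1 b.1 ∧ b.2 = min (a.2 + 1) N := by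
  simp [relN, rel0]
lemma relN3 (a b : K0 P J D × ℕ) : relN M N 3 a b ↔ relV b.1 a.1 ∧ a.2 = min (b.2 + 1) N := by
  simp [relN, rel0]
lemma relN4 (a b : K0 P J D × ℕ) : relN M N 4 a b ↔ relC false a.1 b.1 := by simp [relN, rel0]
lemma relN5 (a b : K0 P J D × ℕ) : relN M N 5 a b ↔ relC true a.1 b.1 := by simp [relN, rel0]
lemma relN6 (a b : K0 P J D × ℕ) : relN M N 6 a b ↔ ∃ s, relC s b.1 a.1 := by simp [relN, rel0]

section sound

variable {V : Type} (G : SimpleGraph V) (c : V → K0 P J D × ℕ)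

/-- time edge in the model -/
def ET (x y : V) : Prop := G.Adj x y ∧ relT M (c x).1 (c y).1
/-- vertical edge in the model -/
def EV (x y : V) : Prop := G.Adj x y ∧ relV (c x).1 (c y).1 ∧ (c y).2 = min ((c x).2 + 1) N
/-- tree edge in the model -/
def EC (s : Bool) (x y : V) : Prop := G.Adj x y ∧ relC s (c x).1 (c y).1

/-- height -/
inductive Ht : V → ℕ → Prop
  | bot (x : V) : (c x).1.hV' = false → Ht x 0
  | up (x y : V) (n : ℕ) : Ht x n → EV N G c x y → Ht y (n + 1)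

/-- column above `b` -/
inductive Up (b : V) : ℕ → V → Prop
  | bot : Up b 0 b
  | up (x y : V) (n : ℕ) : Up b n x → EV N G c x y → Up b (n + 1) y

variable {M p0 j0 N G c} (h : ∀ x, Good (srcRules D M p0 j0 N) G.Adj c x)
include h

lemma uT {x y y' : V} (a : ET M G c x y) (b : ET M G c x y') : y = y' :=
  (h x).2.2.2.1 0 (by simp [srcRules]) _ _ a.1 b.1 ((relN0 ..).2 a.2) ((relN0 ..).2 b.2)
lemma uV {x y y' : V} (a : EV N G c x y) (b : EV N G c x y') : y = y' :=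
  (h x).2.2.2.1 2 (by simp [srcRules]) _ _ a.1 b.1 ((relN2 ..).2 a.2) ((relN2 ..).2 b.2)
lemma uV' {x y y' : V} (a : EV N G c y x) (b : EV N G c y' x) : y = y' :=
  (h x).2.2.2.1 3 (by simp [srcRules]) _ _ a.1.symm b.1.symm ((relN3 ..).2 a.2) ((relN3 ..).2 b.2)
lemma uC {s : Bool} {x y y' : V} (a : EC G c s x y) (b : EC G c s x y') : y = y' := by
  cases s
  · exact (h x).2.2.2.1 4 (by simp [srcRules]) _ _ a.1 b.1 ((relN4 ..).2 a.2) ((relN4 ..).2 b.2)
  · exact (h x).2.2.2.1 5 (by simp [srcRules]) _ _ a.1 b.1 ((relN5 ..).2 a.2) ((relN5 ..).2 b.2)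
lemma uC' {s s' : Bool} {x y y' : V} (a : EC G c s y x) (b : EC G c s' y' x) : y = y' :=
  (h x).2.2.2.1 6 (by simp [srcRules]) _ _ a.1.symm b.1.symm ((relN6 ..).2 ⟨s, a.2⟩)
    ((relN6 ..).2 ⟨s', b.2⟩)
lemma xT {x : V} (a : (c x).1.side = none) (b : (c x).1.hT = true) : ∃ y, ET M G c x y := by
  obtain ⟨y, h1, h2⟩ := (h x).2.2.1 0 (by simp [srcRules]) (by simp [srcRules, nd0, a, b])
  exact ⟨y, h1, (relN0 ..).1 h2⟩
lemma xT' {x : V} (a : (c x).1.side = none) (b : (c x).1.hT' = true) : ∃ y, ET M G c y x := by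
  obtain ⟨y, h1, h2⟩ := (h x).2.2.1 1 (by simp [srcRules]) (by simp [srcRules, nd0, a, b])
  exact ⟨y, h1.symm, (relN1 ..).1 h2⟩
lemma xV {x : V} (b : (c x).1.hV = true) : ∃ y, EV N G c x y := by
  obtain ⟨y, h1, h2⟩ := (h x).2.2.1 2 (by simp [srcRules]) (by simp [srcRules, nd0, b])
  exact ⟨y, h1, (relN2 ..).1 h2⟩
lemma xV' {x : V} (b : (c x).1.hV' = true) : ∃ y, EV N G c y x := by
  obtain ⟨y, h1, h2⟩ := (h x).2.2.1 3 (by simp [srcRules]) (by simp [srcRules, nd0, b])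
  exact ⟨y, h1.symm, (relN3 ..).1 h2⟩
lemma xC (s : Bool) {x : V} (b : (c x).1.hV' = true) : ∃ y, EC G c s x y := by
  cases s
  · obtain ⟨y, h1, h2⟩ := (h x).2.2.1 4 (by simp [srcRules]) (by simp [srcRules, nd0, b])
    exact ⟨y, h1, (relN4 ..).1 h2⟩
  · obtain ⟨y, h1, h2⟩ := (h x).2.2.1 5 (by simp [srcRules]) (by simp [srcRules, nd0, b])
    exact ⟨y, h1, (relN5 ..).1 h2⟩
lemma xC' {x : V} (b : (c x).1.side ≠ none) : ∃ y s, EC G c s y x := by
  obtain ⟨y, h1, h2⟩ := (h x).2.2.1 6 (by simp [srcRules]) (by simp [srcRules, nd0, b])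
  obtain ⟨s, hs⟩ := (relN6 ..).1 h2
  exact ⟨y, s, h1.symm, hs⟩
lemma sqC {s : Bool} {x y y' : V} (a : EV N G c x y) (b : EC G c s x y') :
    ∃ z, EC G c s y z ∧ EV N G c y' z := by
  have a2 := (relN2 M N ..).2 a.2
  cases s
  · have b2 := (relN4 M N ..).2 b.2
    obtain ⟨z, h1, h2, h3, -⟩ := (h x).2.2.2.2 y y' a.1 b.1 (Or.inl ⟨a2, Or.inl b2⟩)
    exact ⟨z, ⟨h1, (relN4 ..).1 (h3 a2 b2).1⟩, h2, (relN2 ..).1 (h3 a2 b2).2⟩
  · have b2 := (relN5 M N ..).2 b.2
    obtain ⟨z, h1, h2, -, h3, -⟩ := (h x).2.2.2.2 y y' a.1 b.1 (Or.inl ⟨a2, Or.inr b2⟩)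
    exact ⟨z, ⟨h1, (relN5 ..).1 (h3 a2 b2).1⟩, h2, (relN2 ..).1 (h3 a2 b2).2⟩
lemma sqT {x y y' : V} (a : ET M G c x y) (b : EV N G c x y') :
    ∃ z, EV N G c y z ∧ ET M G c y' z := by
  have a2 := (relN0 M N ..).2 a.2
  have b2 := (relN2 M N ..).2 b.2
  obtain ⟨z, h1, h2, -, -, h3⟩ := (h x).2.2.2.2 y y' a.1 b.1 (Or.inr ⟨a2, b2⟩)
  exact ⟨z, ⟨h1, (relN2 ..).1 (h3 a2 b2).1⟩, h2, (relN0 ..).1 (h3 a2 b2).2⟩

lemma Ht_unique {x : V} {n : ℕ} (a : Ht N G c x n) : ∀ {m : ℕ}, Ht N G c x m → n = m := by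
  induction a with
  | bot x hx =>
    intro m b
    cases b with
    | bot => rfl
    | up y _ k _ e => have := e.2.1.2.2.2.2.2.1; simp [hx] at this
  | up x y n _ e ih =>
    intro m b
    cases b with
    | bot _ hx => have := e.2.1.2.2.2.2.2.1; simp [hx] at this
    | up x' _ k b e' =>
      obtain rfl := uV' h e e'
      rw [ih b]

lemma Ht_child {v : V} {n : ℕ} (a : Ht N G c v n) : ∀ {u : V} {s : Bool}, EC G c s u v →
    Ht N G c u (n + 1) := by
  induction a with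
  | bot x hx =>
    intro u s e
    obtain ⟨y, hy⟩ := xV' h e.2.2.2.2.2.1
    exact Ht.up y u 0 (Ht.bot y (hy.2.1.2.2.2.2.2.2.2.2.2.2.1.1 (e.2.2.2.2.2.2.2 hx))) hy
  | up q v n _ e' ih =>
    intro u s e
    obtain ⟨y, hy⟩ := xV' h e.2.2.2.2.2.1
    have h1 : (c y).1.hV' = true := by
      by_contra h0
      have := e.2.2.2.2.2.2.1 (hy.2.1.2.2.2.2.2.2.2.2.2.2.1.2 (by simpa using h0))
      have h2 := e'.2.1.2.2.2.2.2.1
      simp [this] at h2
    obtain ⟨ys, hys⟩ := xC h s h1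
    obtain ⟨z, z1, z2⟩ := sqC h hy hys
    obtain rfl := uC h z1 e
    obtain rfl := uV' h z2 e'
    exact Ht.up y u _ (ih hys) hy

lemma Ht_exists [Finite V] (x : V) : ∃ n, Ht N G c x n := by
  classical
  by_contra hx
  let S := {x : V // ¬ ∃ n, Ht N G c x n}
  have key : ∀ (s : Bool) (u : S), ∃ v : S, EC G c s u.1 v.1 := by
    intro s u
    have h1 : (c u.1).1.hV' = true := by
      by_contra h0
      exact u.2 ⟨0, Ht.bot _ (by simpa using h0)⟩
    obtain ⟨v, hv⟩ := xC h s h1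
    exact ⟨⟨v, fun ⟨n, hn⟩ => u.2 ⟨_, Ht_child h hn hv⟩⟩, hv⟩
  choose f hf using key
  have hinj : Function.Injective fun p : Bool × S => f p.1 p.2 := by
    rintro ⟨s, u⟩ ⟨s', u'⟩ e
    simp only at e
    have a := hf s u
    have b := hf s' u'
    rw [e] at a
    have e1 : u = u' := Subtype.ext (uC' h a b)
    have e2 : s = s' := by
      have := a.2.2.2.2.1.symm.trans b.2.2.2.2.1
      simpa using this
    rw [e1, e2]
  have := Nat.card_le_card_of_injective _ hinj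
  have hpos : 0 < Nat.card S := by
    have : Nonempty S := ⟨⟨x, hx⟩⟩
    exact Nat.card_pos
  simp at this
  omega

lemma Ht_bound [Finite V] : ∃ B, ∀ x n, Ht N G c x n → n ≤ B := by
  choose f hf using Ht_exists h
  obtain ⟨B, hB⟩ := (Set.finite_range f).bddAbove
  exact ⟨B, fun x n hn => by rw [Ht_unique h hn (hf x)]; exact hB ⟨x, rfl⟩⟩

lemma exists_bot [Finite V] [Nonempty V] :
    ∃ b, (c b).1.side = none ∧ (c b).1.hV' = false := by
  have h1 : ∃ x, (c x).1.side = none := by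
    by_contra h0
    push Not at h0
    obtain ⟨B, hB⟩ := Ht_bound h
    have : ∀ k, ∃ x n, k ≤ n ∧ Ht N G c x n := by
      intro k
      induction k with
      | zero =>
        obtain ⟨n, hn⟩ := Ht_exists h (Classical.arbitrary V)
        exact ⟨_, n, Nat.zero_le _, hn⟩
      | succ k ih =>
        obtain ⟨x, n, a, b⟩ := ih
        obtain ⟨y, s, e⟩ := xC' h (h0 x)
        exact ⟨y, n + 1, by omega, Ht_child h b e⟩
    obtain ⟨x, n, a, b⟩ := this (B + 1)
    have := hB x n b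
    omega
  obtain ⟨x, hx⟩ := h1
  obtain ⟨n, hn⟩ := Ht_exists h x
  induction hn with
  | bot x a => exact ⟨x, hx, a⟩
  | up x y n _ e ih => exact ih (e.2.1.2.2.2.1.symm.trans hx)

omit h in
lemma Up_same {b x : V} {n : ℕ} (a : Up N G c b n x) : (c x).1.side = (c b).1.side ∧
    (c x).1.hT = (c b).1.hT ∧ (c x).1.hT' = (c b).1.hT' ∧ (c x).1.st = (c b).1.st ∧
    (c x).1.br = (c b).1.br := by
  induction a with
  | bot => simp
  | up x y n _ e ih =>
    obtain ⟨-, ⟨-, -, -, e1, -, -, e2, e3, e4, e5, -⟩, -⟩ := e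
    rw [e1, e2, e3, e4, e5]; exact ih

omit h in
lemma Up_Ht {b x : V} {n : ℕ} (hb : (c b).1.hV' = false) (a : Up N G c b n x) : Ht N G c x n := by
  induction a with
  | bot => exact Ht.bot _ hb
  | up x y n _ e ih => exact Ht.up _ _ _ ih e

lemma exists_top [Finite V] {b : V} (hb : (c b).1.hV' = false) :
    ∃ n x, Up N G c b n x ∧ (c x).1.hV = false := by
  by_contra h0
  push Not at h0
  obtain ⟨B, hB⟩ := Ht_bound h
  have : ∀ n, ∃ x, Up N G c b n x := by
    intro n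
    induction n with
    | zero => exact ⟨b, Up.bot⟩
    | succ n ih =>
      obtain ⟨x, hx⟩ := ih
      obtain ⟨y, hy⟩ := xV h (x := x) (by simpa using h0 n x hx)
      exact ⟨y, Up.up _ _ _ hx hy⟩
  obtain ⟨x, hx⟩ := this (B + 1)
  have := hB _ _ (Up_Ht hb hx)
  omega

lemma Up_par {b b' : V} (e : ET M G c b b') {n : ℕ} {x' : V} (a : Up N G c b' n x') :
    ∃ x, Up N G c b n x ∧ ET M G c x x' := by
  induction a with
  | bot => exact ⟨b, Up.bot, e⟩
  | up x' y' n _ e' ih =>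
    obtain ⟨x, h1, h2⟩ := ih
    obtain ⟨y, hy⟩ := xV h (x := x) (h2.2.2.2.2.2.2.2.2.1.symm.trans e'.2.1.2.2.2.2.1)
    obtain ⟨z, z1, z2⟩ := sqT h h2 hy
    obtain rfl := uV h z1 e'
    exact ⟨y, Up.up _ _ _ h1 hy, z2⟩

variable (N G c) in
/-- the clock flag is set below height `n` -/
def AllTrue (b : V) (n : ℕ) : Prop := ∀ j < n, ∀ x, Up N G c b j x → (c x).1.g none 1 = true

variable (N G c) in
/-- value of the clock -/
noncomputable def gam (b : V) : ℕ := sInf {n | ¬ AllTrue N G c b n}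

lemma gam_lt [Finite V] {b b' : V} (hb : (c b).1.hV' = false) (e : ET M G c b b') :
    gam N G c b < gam N G c b' := by
  have hb' : (c b').1.hV' = false := e.2.2.2.2.2.2.2.2.2.1.trans hb
  have hne : {n | ¬ AllTrue N G c b' n}.Nonempty := by
    obtain ⟨n, x, h1, h2⟩ := exists_top h hb'
    refine ⟨n + 1, fun h3 => ?_⟩
    have a := h3 n (Nat.lt_succ_self n) x h1
    have b := (((h x).1.1 ((Up_same h1).1.trans e.2.2.2.2.2.1)).2.2.1 h2 none).2
    simp [a] at b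
  have h1 : ¬ AllTrue N G c b' (gam N G c b') := Nat.sInf_mem hne
  rcases hg : gam N G c b' with _ | m
  · rw [hg] at h1
    exact absurd (fun j hj => absurd hj (Nat.not_lt_zero _)) h1
  · rw [hg] at h1
    refine Nat.lt_succ_of_le (Nat.sInf_le fun h2 => h1 fun j hj x' hx' => ?_)
    obtain ⟨x, a1, a2⟩ := Up_par h e hx'
    obtain ⟨p, -, -, a3⟩ := a2.2.2.2.2.2.2.2.2.2.2
    rw [a3 none]
    change (c x).1.g none 2 = true
    cases a1 with
    | bot => exact (((h b).1.1 e.2.2.2.2.1).2.1 hb).1 none 2 le_rfl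
    | up x0 _ n a4 a5 =>
      rw [a5.2.1.2.2.2.2.2.2.2.2.2.2.2 none 1 (by omega)]
      exact h2 n (by omega) x0 a4

variable (N G c) in
/-- the column above `b` represents a configuration -/
def Rep (b : V) (o : Option P) (cc : Option J → ℤ) : Prop :=
  (c b).1.side = none ∧ (c b).1.hV' = false ∧ (c b).1.st = o ∧ (∀ i, 0 ≤ cc i) ∧
    ∀ j x, Up N G c b j x → ∀ i, ((c x).1.g i 1 = true ↔ (j : ℤ) < cc i)

lemma Rep_window {b : V} {o : Option P} {cc : Option J → ℤ} (r : Rep N G c b o cc) {j : ℕ} {x : V}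
    (a : Up N G c b j x) (i : Option J) (e : ℕ) (he : e ≤ D + 2) :
    (c x).1.g i e = true ↔ (j : ℤ) + 1 - e < cc i := by
  have key : ∀ e, 1 ≤ e → e ≤ D + 2 → ((c x).1.g i e = true ↔ (j : ℤ) + 1 - e < cc i) := by
    induction a with
    | bot =>
      intro e h1 h2
      rcases h1.eq_or_lt with rfl | h1
      · simpa using r.2.2.2.2 0 b Up.bot i
      · have := r.2.2.2.1 i
        refine iff_of_true ((((h b).1.1 r.1).2.1 r.2.1).1 i e h1) ?_
        push_cast; omega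
    | up x y n a e' ih =>
      intro e h1 h2
      rcases h1.eq_or_lt with rfl | h1
      · simpa using r.2.2.2.2 _ y (Up.up _ _ _ a e') i
      · obtain ⟨e, rfl⟩ : ∃ e', e = e' + 1 := ⟨e - 1, by omega⟩
        rw [e'.2.1.2.2.2.2.2.2.2.2.2.2.2 i e (by omega), ih e (by omega) (by omega)]
        push_cast
        constructor <;> intro <;> omega
  rcases Nat.eq_zero_or_pos e with rfl | he'
  · by_cases hv : (c x).1.hV = true
    · obtain ⟨y, hy⟩ := xV h hv
      rw [← hy.2.1.2.2.2.2.2.2.2.2.2.2.2 i 0 (by omega)]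
      simpa using r.2.2.2.2 _ y (Up.up _ _ _ a hy) i
    · have t := ((h x).1.1 ((Up_same a).1.trans r.1)).2.2.1 (by simpa using hv) i
      have t2 := r.2.2.2.2 j x a i
      rw [t.2] at t2
      rw [t.1]
      simp only [Bool.false_eq_true, false_iff, not_lt] at t2 ⊢
      push_cast; omega
  · exact key e he' he

lemma Rep_step (hD : ∀ p b i, vec' M p b i ≤ D + 1) {b : V} {p : P} {cc : Option J → ℤ}
    (r : Rep N G c b (some p) cc) : ∃ b', ET M G c b b' ∧
      Rep N G c b' (M.nxt p (M.br p (cc ∘ some))) (cc + vec' M p (M.br p (cc ∘ some))) := by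
  have hu := (h b).1.1 r.1
  obtain ⟨b', e⟩ := xT h r.1 (hu.1.2 (by rw [r.2.2.1]; simp))
  have hbr : (c b).1.br = M.br p (cc ∘ some) := by
    rw [(hu.2.1 r.2.1).2 p r.2.2.1]
    have := r.2.2.2.2 0 b Up.bot (some (M.reg p))
    rw [Bool.eq_iff_iff, this]
    simp [DM.br]
  have hnn : ∀ i, 0 ≤ (cc + vec' M p (M.br p (cc ∘ some))) i := by
    rintro (_ | j)
    · have := r.2.2.2.1 none
      simp only [Pi.add_apply, vec']; omega
    · exact M.st_nonneg (some p, cc ∘ some) (fun j => r.2.2.2.1 (some j)) j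
  have hge : ∀ bb i, -1 ≤ vec' M p bb i := by
    rintro bb (_ | j)
    · simp [vec']
    · cases bb
      · have := M.hz p j; simp only [vec']; omega
      · by_cases hj : j = M.reg p
        · subst hj; simp only [vec']; rw [M.hp']
        · have := M.hp p j hj; simp only [vec']; omega
  refine ⟨b', e, e.2.2.2.2.2.1, e.2.2.2.2.2.2.2.2.2.1.trans r.2.1, ?_, hnn, fun j x' hx' i => ?_⟩
  · obtain ⟨p', a1, a2, -⟩ := e.2.2.2.2.2.2.2.2.2.2
    rw [r.2.2.1] at a1
    obtain rfl : p = p' := Option.some.inj a1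
    rw [a2, hbr]
  · obtain ⟨x, a1, a2⟩ := Up_par h e hx'
    obtain ⟨p', a3, -, a4⟩ := a2.2.2.2.2.2.2.2.2.2.2
    rw [(Up_same a1).2.2.2.1, r.2.2.1] at a3
    obtain rfl : p = p' := Option.some.inj a3
    have b1 := hD p (M.br p (cc ∘ some)) i
    have b2 := hge (M.br p (cc ∘ some)) i
    rw [a4 i, (Up_same a1).2.2.2.2, hbr, Rep_window h r a1 i _ (by omega)]
    simp only [Pi.add_apply]
    constructor <;> intro <;> omega

lemma sound [DecidableEq J] [Finite V] [Nonempty V] (hD : ∀ p b i, vec' M p b i ≤ D + 1) :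
    M.Halts (some p0, Pi.single j0 (N : ℤ)) := by
  classical
  obtain ⟨B, hB⟩ := (Set.finite_range (gam N G c)).bddAbove
  have key : ∀ n b o cc, Rep N G c b o cc → B - gam N G c b ≤ n → M.Halts (o, cc ∘ some) := by
    intro n
    induction n using Nat.strong_induction_on with
    | _ n ih =>
      intro b o cc r hn
      rcases o with _ | p
      · exact ⟨0, rfl⟩
      · obtain ⟨b', e, r'⟩ := Rep_step h hD r
        have h1 := gam_lt h r.2.1 e
        have h2 : gam N G c b' ≤ B := hB ⟨b', rfl⟩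
        have := ih (B - gam N G c b') (by omega) b' _ _ r' le_rfl
        rw [← DM.halts_st]
        exact this
  obtain ⟨b, hb, hmin⟩ := Set.exists_min_image {b | (c b).1.side = none ∧ (c b).1.hV' = false}
    (gam N G c) (Set.toFinite _) (exists_bot h)
  have hT' : (c b).1.hT' = false := by
    by_contra h0
    obtain ⟨b0, e⟩ := xT' h hb.1 (by simpa using h0)
    have h1 : (c b0).1.hV' = false := e.2.2.2.2.2.2.2.2.2.1.symm.trans hb.2
    have := gam_lt h h1 e
    have := hmin b0 ⟨e.2.2.2.2.1, h1⟩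
    omega
  have hidx : ∀ j x, Up N G c b j x → (c x).2 = min j N := by
    intro j x a
    induction a with
    | bot => rw [(h b).1.2.2.1 ⟨hb.2, hb.1⟩]; simp
    | up x y n _ e ih => rw [e.2.2, ih]; omega
  have r : Rep N G c b (some p0) (fun i => if i = some j0 then N else 0) := by
    refine ⟨hb.1, hb.2, ((h b).1.1 hb.1).2.2.2 hT', fun i => by dsimp only; split_ifs <;> omega,
      fun j x a i => ?_⟩
    rw [(h x).1.2.2.2 ((Up_same a).1.trans hb.1) ((Up_same a).2.2.1.trans hT') i, hidx j x a]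
    by_cases hi : i = some j0
    · simp only [hi, true_and, if_true]; omega
    · simp only [hi, false_and, if_false, false_iff]; omega
  have := key _ b _ _ r le_rfl
  convert this using 2
  funext j
  by_cases hj : j = j0
  · subst hj; simp
  · simp [hj]

end sound

end Pool.Agent.H431Z.LD
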