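import Mathlib
import Pool.Agent.H431Z.LD.Source

set_option autoImplicit false
set_option linter.unusedVariables false

namespace Pool.Agent.H431Z.LD

open Pool.Agent.Helper948.Erode

variable {P J : Type} {D : ℕ} (M : DM P J) (p0 : P) (j0 : J) (N : ℕ)

section complete

variable (x0 : Option P × (J → ℤ)) (τ K : ℕ)

/-- registers at time `t`, with the clock -/
def regs (t : ℕ) : Option J → ℤ
  | none => t
  | some j => (M.st^[t] x0).2 j

/-- branch at time `t` -/
def brt (t : ℕ) : Bool :=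
  match (M.st^[t] x0).1 with
  | none => false
  | some p => M.br p (M.st^[t] x0).2

/-- nodes of the model -/
def Node (τ K : ℕ) : Type := {x : ℕ × ℕ × List Bool // x.1 ≤ τ ∧ x.2.1 ≤ K ∧ x.2.2.length ≤ x.2.1}

instance : Finite (Node τ K) := by
  have h : ({x : ℕ × ℕ × List Bool | x.1 ≤ τ ∧ x.2.1 ≤ K ∧ x.2.2.length ≤ x.2.1}).Finite := by
    refine ((Set.finite_Iic τ).prod ((Set.finite_Iic K).prod (List.finite_length_le Bool K))).subset ?_
    rintro ⟨a, b, c⟩ ⟨h1, h2, h3⟩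
    exact ⟨h1, h2, le_trans h3 h2⟩
  exact h

/-- directed edges -/
def arc (x y : ℕ × ℕ × List Bool) : Prop :=
  (x.2.2 = [] ∧ y = (x.1 + 1, x.2.1, [])) ∨ y = (x.1, x.2.1 + 1, x.2.2) ∨
    ∃ s, y = (x.1, x.2.1, s :: x.2.2)

/-- the model -/
def nodeGraph : SimpleGraph (Node τ K) where
  Adj x y := arc x.1 y.1 ∨ arc y.1 x.1
  symm := ⟨fun _ _ h => h.symm⟩
  loopless := ⟨by
    rintro ⟨⟨a, b, c⟩, h⟩ h'
    simp [arc] at h'⟩

variable (D) in
/-- colours of the model -/
def ncol (x : ℕ × ℕ × List Bool) : K0 P J D × ℕ :=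
  (⟨⟨x.1 % 3, Nat.mod_lt _ (by norm_num)⟩, ⟨x.2.1 % 3, Nat.mod_lt _ (by norm_num)⟩,
    ⟨x.2.2.length % 3, Nat.mod_lt _ (by norm_num)⟩, x.2.2.head?, decide (x.1 < τ), decide (0 < x.1),
    decide (x.2.1 < K), decide (x.2.2.length < x.2.1), decide (x.2.2.length + 1 = x.2.1),
    (M.st^[x.1] x0).1, brt M x0 x.1,
    fun i e => decide ((x.2.1 : ℤ) + 1 - (e : ℕ) < regs M x0 x.1 i)⟩, min x.2.1 N)

lemma ncol_g (x : ℕ × ℕ × List Bool) (i : Option J) {e : ℕ} (he : e ≤ D + 2) :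
    (ncol D M N x0 τ K x).1.g i e = decide ((x.2.1 : ℤ) + 1 - e < regs M x0 x.1 i) := by
  unfold K0.g
  rw [dif_pos (by omega)]
  rfl

variable {M N x0 τ K}

lemma charT {x y : ℕ × ℕ × List Bool} (a : arc x y ∨ arc y x)
    (b : relT M (ncol D M N x0 τ K x).1 (ncol D M N x0 τ K y).1) :
    x.2.2 = [] ∧ y = (x.1 + 1, x.2.1, []) := by
  obtain ⟨t, j, w⟩ := x
  obtain ⟨t', j', w'⟩ := y
  obtain ⟨b1, b2, b3, -⟩ := b
  simp only [ncol, Fin.mk.injEq] at b1 b2 b3
  simp only [arc, Prod.mk.injEq] at a ⊢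
  rcases a with (a | a | ⟨s, a⟩) | (a | a | ⟨s, a⟩)
  · exact a
  all_goals omega

lemma charV {x y : ℕ × ℕ × List Bool} (a : arc x y ∨ arc y x)
    (b : relV (ncol D M N x0 τ K x).1 (ncol D M N x0 τ K y).1) : y = (x.1, x.2.1 + 1, x.2.2) := by
  obtain ⟨t, j, w⟩ := x
  obtain ⟨t', j', w'⟩ := y
  obtain ⟨b1, b2, b3, -⟩ := b
  simp only [ncol, Fin.mk.injEq] at b1 b2 b3
  simp only [arc, Prod.mk.injEq] at a ⊢
  rcases a with (a | a | ⟨s, a⟩) | (a | a | ⟨s, a⟩)
  · omega
  · exact a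
  all_goals omega

lemma charC {s : Bool} {x y : ℕ × ℕ × List Bool} (a : arc x y ∨ arc y x)
    (b : relC s (ncol D M N x0 τ K x).1 (ncol D M N x0 τ K y).1) :
    y = (x.1, x.2.1, s :: x.2.2) := by
  obtain ⟨t, j, w⟩ := x
  obtain ⟨t', j', w'⟩ := y
  obtain ⟨b1, b2, b3, b4, -⟩ := b
  simp only [ncol, Fin.mk.injEq] at b1 b2 b3 b4
  simp only [arc, Prod.mk.injEq] at a ⊢
  rcases a with (a | a | ⟨s', a⟩) | (a | a | ⟨s', a⟩)
  · omega
  · omega
  · obtain ⟨a1, a2, rfl⟩ := a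
    simp only [List.head?_cons, Option.some.injEq] at b4
    exact ⟨a1, a2, by rw [b4]⟩
  · omega
  · omega
  · obtain ⟨a1, a2, rfl⟩ := a
    simp only [List.length_cons] at b1
    omega

lemma isV {t j : ℕ} {w : List Bool} (h1 : j < K) (h2 : w.length ≤ j) :
    relN M N 2 (ncol D M N x0 τ K (t, j, w)) (ncol D M N x0 τ K (t, j + 1, w)) := by
  rw [relN2]
  refine ⟨⟨?_, rfl, rfl, rfl, ?_, ?_, rfl, rfl, rfl, rfl, ?_, fun i e he => ?_⟩, ?_⟩
  · simp [ncol]
  · simpa [ncol] using h1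
  · simp only [ncol, decide_eq_true_eq]; omega
  · simp only [ncol, decide_eq_true_eq, decide_eq_false_iff_not]; omega
  · rw [ncol_g _ _ _ _ _ _ _ (by omega), ncol_g _ _ _ _ _ _ _ (by omega)]
    push_cast
    congr 2
    ring
  · simp only [ncol]; omega

lemma isC (s : Bool) {t j : ℕ} {w : List Bool} (h2 : w.length < j) :
    relC s (ncol D M N x0 τ K (t, j, w)).1 (ncol D M N x0 τ K (t, j, s :: w)).1 := by
  refine ⟨?_, rfl, rfl, rfl, ?_, ?_⟩
  · simp [ncol]
  · simpa [ncol] using h2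
  · simp only [ncol, decide_eq_true_eq, decide_eq_false_iff_not, List.length_cons]; omega

lemma isT (hD : ∀ p b i, vec' M p b i ≤ D + 1) (hτ : ∀ t < τ, (M.st^[t] x0).1 ≠ none)
    {t j : ℕ} (h1 : t < τ) :
    relT M (ncol D M N x0 τ K (t, j, [])).1 (ncol D M N x0 τ K (t + 1, j, [])).1 := by
  obtain ⟨p, hp⟩ := Option.ne_none_iff_exists'.1 (hτ t h1)
  have hbr : brt M x0 t = M.br p (M.st^[t] x0).2 := by simp only [brt, hp]
  have hst : M.st^[t + 1] x0 = (M.nxt p (brt M x0 t), (M.st^[t] x0).2 + M.vec p (brt M x0 t)) := by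
    rw [Function.iterate_succ_apply', hbr]
    generalize M.st^[t] x0 = y at hp
    obtain ⟨o, c⟩ := y
    obtain rfl : o = some p := hp
    rfl
  have hge : ∀ bb i, -1 ≤ vec' M p bb i := by
    rintro bb (_ | j)
    · simp [vec']
    · cases bb
      · have := M.hz p j; simp only [vec']; omega
      · by_cases hj : j = M.reg p
        · subst hj; simp only [vec']; rw [M.hp']
        · have := M.hp p j hj; simp only [vec']; omega
  have hreg : ∀ i, regs M x0 (t + 1) i = regs M x0 t i + vec' M p (brt M x0 t) i := by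
    rintro (_ | j)
    · simp [regs, vec']
    · simp only [regs, vec', hst, Pi.add_apply]
  refine ⟨?_, rfl, rfl, rfl, rfl, ?_, ?_, rfl, rfl, p, hp, ?_, fun i => ?_⟩
  · simp [ncol]
  · simpa [ncol] using h1
  · simp [ncol]
  · change (M.st^[t + 1] x0).1 = M.nxt p (brt M x0 t)
    rw [hst]
  · change _ = (ncol D M N x0 τ K (t, j, [])).1.g i (1 + vec' M p (brt M x0 t) i).toNat
    have b1 := hD p (brt M x0 t) i
    have b2 := hge (brt M x0 t) i
    rw [ncol_g _ _ _ _ _ _ _ (by omega), ncol_g _ _ _ _ _ _ _ (by omega), hreg]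
    simp only [decide_eq_decide]
    constructor <;> intro <;> omega

end complete

theorem complete [DecidableEq J] [Finite J] (hD : ∀ p b i, vec' M p b i ≤ D + 1)
    (hh : M.Halts (some p0, Pi.single j0 (N : ℤ))) : HasModel (srcRules D M p0 j0 N) := by
  classical
  set x0 : Option P × (J → ℤ) := (some p0, Pi.single j0 (N : ℤ)) with hx0
  let τ := Nat.find hh
  have hτ1 : (M.st^[τ] x0).1 = none := Nat.find_spec hh
  have hτ : ∀ t < τ, (M.st^[t] x0).1 ≠ none := fun t ht => Nat.find_min hh ht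
  obtain ⟨K, hK⟩ : ∃ K : ℕ, ∀ t ≤ τ, ∀ i, regs M x0 t i ≤ K := by
    obtain ⟨B, hB⟩ := (Set.finite_range
      (fun q : Fin (τ + 1) × Option J => (regs M x0 q.1 q.2).toNat)).bddAbove
    refine ⟨B, fun t ht i => ?_⟩
    have := hB ⟨(⟨t, by omega⟩, i), rfl⟩
    simp only at this
    omega
  have hnn : ∀ t i, 0 ≤ regs M x0 t i := by
    rintro t (_ | j)
    · simp [regs]
    · induction t generalizing j with
      | zero =>
        by_cases hj : j = j0
        · subst hj; simp [regs, hx0]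
        · simp [regs, hx0, hj]
      | succ t ih =>
        simp only [regs] at ih ⊢
        rw [Function.iterate_succ_apply']
        exact M.st_nonneg _ ih j
  refine ⟨Node τ K, inferInstance, ⟨⟨(0, 0, []), by simp⟩⟩, nodeGraph τ K,
    fun x => ncol D M N x0 τ K x.1, ?_⟩
  rintro ⟨⟨t, j, w⟩, h1, h2, h3⟩
  simp only at h1 h2 h3
  have aT : ∀ {t j : ℕ} {a b}, (nodeGraph τ K).Adj ⟨(t, j, []), a⟩ ⟨(t + 1, j, []), b⟩ :=
    Or.inl (Or.inl ⟨rfl, rfl⟩)
  have aV : ∀ {t j : ℕ} {w a b}, (nodeGraph τ K).Adj ⟨(t, j, w), a⟩ ⟨(t, j + 1, w), b⟩ :=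
    Or.inl (Or.inr (Or.inl rfl))
  have aC : ∀ {t j : ℕ} {w s a b}, (nodeGraph τ K).Adj ⟨(t, j, w), a⟩ ⟨(t, j, s :: w), b⟩ :=
    Or.inl (Or.inr (Or.inr ⟨_, rfl⟩))
  refine ⟨⟨fun hs => ⟨?_, fun hv => ⟨fun i e he => ?_, fun p hp => ?_⟩, fun hv i => ?_, fun ht => ?_⟩,
    ?_, ?_, fun hs ht i => ?_⟩, ?_, ?_, ?_, ?_⟩
  · simp only [ncol, decide_eq_true_eq]
    refine ⟨hτ t, fun h => lt_of_le_of_ne h1 fun e => h (e ▸ hτ1)⟩
  · have hw : w = [] := by simpa [ncol] using hs
    subst hw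
    have hj : j = 0 := by simpa [ncol] using hv
    subst hj
    by_cases he' : e ≤ D + 2
    · rw [ncol_g _ _ _ _ _ _ _ he']
      have := hnn t i
      simp only [decide_eq_true_eq]
      omega
    · unfold K0.g
      rw [dif_neg (by omega)]
  · have hw : w = [] := by simpa [ncol] using hs
    subst hw
    have hj : j = 0 := by simpa [ncol] using hv
    subst hj
    rw [ncol_g _ _ _ _ _ _ _ (by omega)]
    have hp' : (M.st^[t] x0).1 = some p := hp
    change brt M x0 t = _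
    simp [brt, hp', DM.br, regs]
  · have hj : j = K := by
      have : ¬ j < K := by simpa [ncol] using hv
      omega
    rw [ncol_g _ _ _ _ _ _ _ (by omega), ncol_g _ _ _ _ _ _ _ (by omega)]
    have := hK t h1 i
    simp only [decide_eq_false_iff_not]
    omega
  · have : t = 0 := by simpa [ncol] using ht
    subst this
    rfl
  · exact min_le_right _ _
  · rintro ⟨hv, hs⟩
    have hw : w = [] := by simpa [ncol] using hs
    subst hw
    have hj : j = 0 := by simpa [ncol] using hv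
    subst hj
    simp [ncol]
  · have : t = 0 := by simpa [ncol] using ht
    subst this
    rw [ncol_g _ _ _ _ _ _ _ (by omega)]
    simp only [decide_eq_true_eq, ncol]
    rcases i with _ | i
    · simp [regs]
    · by_cases hi : i = j0
      · subst hi
        simp only [regs, hx0, Function.iterate_zero, id_eq, Pi.single_eq_same, true_and]
        omega
      · simp only [regs, hx0, Function.iterate_zero, id_eq, Pi.single_eq_of_ne hi,
          Option.some.injEq, hi, false_and, iff_false]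
        omega
  · rintro ⟨⟨t', j', w'⟩, g1, g2, g3⟩ a
    simp only at g1 g2 g3
    simp only [nodeGraph, arc, Prod.mk.injEq] at a
    rcases a with (⟨rfl, rfl, rfl, rfl⟩ | ⟨rfl, rfl, rfl⟩ | ⟨s, rfl, rfl, rfl⟩) |
      (⟨rfl, rfl, rfl, rfl⟩ | ⟨rfl, rfl, rfl⟩ | ⟨s, rfl, rfl, rfl⟩)
    · exact ⟨0, by simp [srcRules], (relN0 ..).2 (isT hD hτ (by omega))⟩
    · exact ⟨2, by simp [srcRules], isV (by omega) h3⟩
    · cases s
      · exact ⟨4, by simp [srcRules], (relN4 ..).2 (isC _ g3)⟩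
      · exact ⟨5, by simp [srcRules], (relN5 ..).2 (isC _ g3)⟩
    · exact ⟨1, by simp [srcRules], (relN1 ..).2 (isT hD hτ (by omega))⟩
    · exact ⟨3, by simp [srcRules], (relN3 ..).2 ((relN2 ..).1 (isV (by omega) g3))⟩
    · exact ⟨6, by simp [srcRules], (relN6 ..).2 ⟨s, isC _ h3⟩⟩
  · rintro d - (⟨rfl, a, b⟩ | ⟨rfl, a, b⟩ | ⟨rfl, a⟩ | ⟨rfl, a⟩ | ⟨rfl, a⟩ | ⟨rfl, a⟩ | ⟨rfl, a⟩)
    · have hw : w = [] := by simpa [ncol] using a
      subst hw
      have ht : t < τ := by simpa [ncol] using b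
      exact ⟨⟨(t + 1, j, []), ht, h2, h3⟩, aT, (relN0 ..).2 (isT hD hτ ht)⟩
    · have hw : w = [] := by simpa [ncol] using a
      subst hw
      have ht : 0 < t := by simpa [ncol] using b
      obtain ⟨t, rfl⟩ : ∃ t', t = t' + 1 := ⟨t - 1, by omega⟩
      exact ⟨⟨(t, j, []), by simp only; omega, h2, h3⟩, aT.symm, (relN1 ..).2 (isT hD hτ h1)⟩
    · have hj : j < K := by simpa [ncol] using a
      exact ⟨⟨(t, j + 1, w), h1, hj, by simp only; omega⟩, aV, isV hj h3⟩
    · have hj : w.length < j := by simpa [ncol] using a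
      obtain ⟨j, rfl⟩ : ∃ j', j = j' + 1 := ⟨j - 1, by omega⟩
      exact ⟨⟨(t, j, w), h1, by simp only; omega, by simp only; omega⟩, aV.symm,
        (relN3 ..).2 ((relN2 ..).1 (isV h2 (by omega)))⟩
    · have hj : w.length < j := by simpa [ncol] using a
      exact ⟨⟨(t, j, false :: w), h1, h2, hj⟩, aC, (relN4 ..).2 (isC _ hj)⟩
    · have hj : w.length < j := by simpa [ncol] using a
      exact ⟨⟨(t, j, true :: w), h1, h2, hj⟩, aC, (relN5 ..).2 (isC _ hj)⟩
    · rcases w with _ | ⟨s, w⟩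
      · simp [ncol] at a
      · exact ⟨⟨(t, j, w), h1, h2, by simp only [List.length_cons] at h3 ⊢; omega⟩, aC.symm,
          (relN6 ..).2 ⟨s, isC _ h3⟩⟩
  · rintro d hd ⟨⟨t1, j1, w1⟩, y1⟩ ⟨⟨t2, j2, w2⟩, y2⟩ a b e f
    refine Subtype.ext ?_
    have hd' : d < 7 := hd
    interval_cases d
    · rw [(charT a ((relN0 ..).1 e)).2, (charT b ((relN0 ..).1 f)).2]
    · have e' := charT a.symm ((relN1 ..).1 e)
      have f' := charT b.symm ((relN1 ..).1 f)
      simp only [Prod.mk.injEq] at e' f' ⊢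
      exact ⟨by omega, by omega, e'.1.trans f'.1.symm⟩
    · rw [charV a ((relN2 ..).1 e).1, charV b ((relN2 ..).1 f).1]
    · have e' := charV a.symm ((relN3 ..).1 e).1
      have f' := charV b.symm ((relN3 ..).1 f).1
      simp only [Prod.mk.injEq] at e' f' ⊢
      exact ⟨by omega, by omega, e'.2.2.symm.trans f'.2.2⟩
    · rw [charC a ((relN4 ..).1 e), charC b ((relN4 ..).1 f)]
    · rw [charC a ((relN5 ..).1 e), charC b ((relN5 ..).1 f)]
    · obtain ⟨s, e⟩ := (relN6 ..).1 e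
      obtain ⟨s', f⟩ := (relN6 ..).1 f
      have e' := charC a.symm e
      have f' := charC b.symm f
      simp only [Prod.mk.injEq] at e' f' ⊢
      exact ⟨by omega, by omega, (List.cons.inj (e'.2.2.symm.trans f'.2.2)).2⟩
  · rintro ⟨⟨t1, j1, w1⟩, y1⟩ ⟨⟨t2, j2, w2⟩, y2⟩ a b hsq
    have caseC : ∀ s, relN M N 2 (ncol D M N x0 τ K (t, j, w)) (ncol D M N x0 τ K (t1, j1, w1)) →
        relC s (ncol D M N x0 τ K (t, j, w)).1 (ncol D M N x0 τ K (t2, j2, w2)).1 →
        ∃ z : Node τ K, (nodeGraph τ K).Adj ⟨(t1, j1, w1), y1⟩ z ∧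
          (nodeGraph τ K).Adj ⟨(t2, j2, w2), y2⟩ z ∧
          (srcRules D M p0 j0 N).fin (ncol D M N x0 τ K (t, j, w)) (ncol D M N x0 τ K (t1, j1, w1))
            (ncol D M N x0 τ K (t2, j2, w2)) (ncol D M N x0 τ K z.1) := by
      intro s e f
      have e' := charV a ((relN2 ..).1 e).1
      have f' := charC b f
      simp only [Prod.mk.injEq] at e' f'
      obtain ⟨rfl, rfl, rfl⟩ := e'
      obtain ⟨rfl, rfl, rfl⟩ := f'
      simp only [List.length_cons] at y1 y2
      refine ⟨⟨(t2, j2 + 1, s :: w1), h1, y1.2.1, by simp only [List.length_cons]; omega⟩, aC, aV,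
        fun _ f2 => ?_, fun _ f2 => ?_, fun e2 _ => ?_⟩
      · have := charC b ((relN4 ..).1 f2)
        simp only [Prod.mk.injEq, List.cons.injEq, true_and, and_true] at this
        subst this
        exact ⟨(relN4 ..).2 (isC _ (by omega)), isV y1.2.1 y2.2.2⟩
      · have := charC b ((relN5 ..).1 f2)
        simp only [Prod.mk.injEq, List.cons.injEq, true_and, and_true] at this
        subst this
        exact ⟨(relN5 ..).2 (isC _ (by omega)), isV y1.2.1 y2.2.2⟩
      · have := (charT a ((relN0 ..).1 e2)).2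
        simp at this
    rcases hsq with ⟨e, f | f⟩ | ⟨e, f⟩
    · exact caseC false e ((relN4 ..).1 f)
    · exact caseC true e ((relN5 ..).1 f)
    · have e' := charT a ((relN0 ..).1 e)
      have f' := charV b ((relN2 ..).1 f).1
      simp only [Prod.mk.injEq] at e' f'
      obtain ⟨rfl, rfl, rfl, rfl⟩ := e'
      obtain ⟨rfl, rfl, rfl⟩ := f'
      refine ⟨⟨(t2 + 1, j1 + 1, []), y1.1, y2.2.1, by simp⟩, aV, aT,
        fun e2 _ => ?_, fun e2 _ => ?_, fun _ _ => ?_⟩
      · have := charV a ((relN2 ..).1 e2).1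
        simp at this
      · have := charV a ((relN2 ..).1 e2).1
        simp at this
      · exact ⟨isV y2.2.1 (by simp), (relN0 ..).2 (isT hD hτ y1.1)⟩

theorem src_iff [DecidableEq J] [Finite J] (hD : ∀ p b i, vec' M p b i ≤ D + 1) :
    HasModel (srcRules D M p0 j0 N) ↔ M.Halts (some p0, Pi.single j0 (N : ℤ)) := by
  refine ⟨?_, complete M p0 j0 N hD⟩
  rintro ⟨V, h1, h2, G, c, h⟩
  exact sound h hD

end Pool.Agent.H431Z.LD
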