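import Mathlib
import Pool.Agent.H431Z.LD.Rules

set_option autoImplicit false
set_option linter.unusedVariables false

namespace Pool.Agent.H431Z.LD

/-- tower of exponentials -/
def tw (a : ℕ) : ℕ → ℕ
  | 0 => a
  | j + 1 => 2 ^ tw a j

/-- base of the window codes -/
def bb (a : ℕ) : ℕ := 2 ^ tw a 3 * a
/-- number of windows -/
def YY (a : ℕ) : ℕ := bb a ^ (tw a 3 + 1)
/-- digits of a window code -/
def dig (a w i : ℕ) : ℕ := w / bb a ^ i % bb a
/-- colours in a window -/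
def wcol (a w i : ℕ) : ℕ := dig a w i % a
/-- adjacency in a window -/
def wadj (a w i j : ℕ) : Prop :=
  i < tw a 3 ∧ j < tw a 3 ∧ i ≠ j ∧ (dig a w i / a).testBit j = true ∧ (dig a w j / a).testBit i = true
/-- labelled cells -/
def lbl (R : Rules ℕ) (a w i z : ℕ) : Prop := z = 0 ∨ ¬ Good R (wadj a w) (wcol a w) i

/-- raw vertices -/
abbrev Vx : Type := ℕ × ℕ × ℕ × ℕ

/-- vertices of the graph -/
def valid (a : ℕ) (v : Vx) : Prop :=
  (v.1 = 0 ∧ v.2.1 ≤ 18 + 2 * a ∧ v.2.2.1 = 0 ∧ v.2.2.2 = 0) ∨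
  (v.1 = 1 ∧ 1 ≤ v.2.1 ∧ v.2.1 ≤ 4 ∧ v.2.2.1 < tw a v.2.1 ∧ v.2.2.2 = 0) ∨
  (v.1 = 2 ∧ v.2.1 < YY a ∧ v.2.2.1 < tw a 3 ∧ v.2.2.2 ≤ tw a 2)

/-- directed edges -/
def arcG (R : Rules ℕ) (a : ℕ) (u v : Vx) : Prop :=
  (u.1 = 0 ∧ v.1 = 0 ∧ v.2.1 = u.2.1 + 1) ∨
  (u.1 = 1 ∧ v.1 = 0 ∧ (v.2.1 = 8 ∨ v.2.1 = 10 ∨ v.2.1 = 10 + 2 * u.2.1 ∨
    (u.2.1 = 1 ∧ 20 ≤ v.2.1 ∧ v.2.1 % 2 = 0 ∧ u.2.2.1.testBit ((v.2.1 - 20) / 2) = true))) ∨
  (u.1 = 1 ∧ v.1 = 1 ∧ u.2.1 = v.2.1 + 1 ∧ u.2.2.1.testBit v.2.2.1 = true) ∨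
  (u.1 = 2 ∧ v.1 = 0 ∧ (v.2.1 = 2 * (u.2.2.2 % 3) + 2 ∨ v.2.1 = 20 + 2 * wcol a u.2.1 u.2.2.1)) ∨
  (u.1 = 2 ∧ v.1 = 1 ∧ v.2.1 = 4 ∧ lbl R a u.2.1 u.2.2.1 u.2.2.2 ∧
    (Encodable.encode u).testBit v.2.2.1 = true) ∨
  (u.1 = 2 ∧ v.1 = 2 ∧ v.2.1 = u.2.1 ∧ ((v.2.2.2 = u.2.2.2 ∧ wadj a u.2.1 u.2.2.1 v.2.2.1) ∨
    (v.2.2.1 = u.2.2.1 ∧ v.2.2.2 = u.2.2.2 + 1)))

/-- edges -/
def aj (R : Rules ℕ) (a : ℕ) (u v : Vx) : Prop := arcG R a u v ∨ arcG R a v u

lemma wadj_symm {a w i j : ℕ} (h : wadj a w i j) : wadj a w j i :=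
  ⟨h.2.1, h.1, h.2.2.1.symm, h.2.2.2.2, h.2.2.2.1⟩

lemma wadj_irrefl (a w i : ℕ) : ¬ wadj a w i i := fun h => h.2.2.1 rfl

variable {R : Rules ℕ} {a : ℕ}

lemma aj_irrefl (u : Vx) : ¬ aj R a u u := by
  have := wadj_irrefl a u.2.1 u.2.2.1
  simp only [aj, arcG, or_self]
  rintro (h | h | h | h | h | h)
  · omega
  · omega
  · omega
  · omega
  · omega
  · rcases h.2.2.2 with h | h
    · exact this h.2
    · omega

/-- vertex type -/
abbrev VG (a : ℕ) : Type := {v : Vx // valid a v}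

variable (R a) in
/-- the graph -/
def GG : SimpleGraph (VG a) where
  Adj u v := aj R a u.1 v.1
  symm := ⟨fun _ _ h => h.symm⟩
  loopless := ⟨fun u => aj_irrefl u.1⟩

lemma GG_adj (u v : VG a) : (GG R a).Adj u v ↔ aj R a u.1 v.1 := Iff.rfl

lemma aj_PP (i i' x y x' y' : ℕ) : aj R a (0, i, x, y) (0, i', x', y') ↔ i' = i + 1 ∨ i = i' + 1 := by
  simp [aj, arcG]
lemma aj_LP (j b i x y y' : ℕ) : aj R a (1, j, b, y) (0, i, x, y') ↔ i = 8 ∨ i = 10 ∨ i = 10 + 2 * j ∨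
    (j = 1 ∧ 20 ≤ i ∧ i % 2 = 0 ∧ b.testBit ((i - 20) / 2) = true) := by
  simp [aj, arcG]
lemma aj_LL (j b j' b' y y' : ℕ) : aj R a (1, j, b, y) (1, j', b', y') ↔
    (j = j' + 1 ∧ b.testBit b' = true) ∨ (j' = j + 1 ∧ b'.testBit b = true) := by
  simp [aj, arcG]
lemma aj_CP (w i z p x y : ℕ) : aj R a (2, w, i, z) (0, p, x, y) ↔
    p = 2 * (z % 3) + 2 ∨ p = 20 + 2 * wcol a w i := by
  simp [aj, arcG]
lemma aj_CL (w i z j b y : ℕ) : aj R a (2, w, i, z) (1, j, b, y) ↔ j = 4 ∧ lbl R a w i z ∧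
    (Encodable.encode ((2, w, i, z) : Vx)).testBit b = true := by
  simp only [aj, arcG]
  simp only [OfNat.ofNat_ne_zero, OfNat.ofNat_ne_one, false_and, true_and, false_or, or_false,
    one_ne_zero, OfNat.one_ne_ofNat, and_false]
lemma aj_CC (w i z w' i' z' : ℕ) : aj R a (2, w, i, z) (2, w', i', z') ↔
    w' = w ∧ ((z' = z ∧ wadj a w i i') ∨ (i' = i ∧ (z' = z + 1 ∨ z = z' + 1))) := by
  simp only [aj, arcG]
  simp only [OfNat.ofNat_ne_zero, OfNat.ofNat_ne_one, false_and, true_and, false_or,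
    and_false]
  constructor
  · rintro (⟨rfl, h | h⟩ | ⟨rfl, h | h⟩)
    · exact ⟨rfl, Or.inl h⟩
    · exact ⟨rfl, Or.inr ⟨h.1, Or.inl h.2⟩⟩
    · exact ⟨rfl, Or.inl ⟨h.1.symm, wadj_symm h.2⟩⟩
    · exact ⟨rfl, Or.inr ⟨h.1.symm, Or.inr h.2⟩⟩
  · rintro ⟨rfl, h | ⟨h, h' | h'⟩⟩
    · exact Or.inl ⟨rfl, Or.inl h⟩
    · exact Or.inl ⟨rfl, Or.inr ⟨h, h'⟩⟩
    · exact Or.inr ⟨rfl, Or.inr ⟨h.symm, h'⟩⟩
lemma aj_comm (u v : Vx) : aj R a u v ↔ aj R a v u := Or.comm

/-- path vertex -/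
def vP (i : ℕ) (h : i ≤ 18 + 2 * a) : VG a := ⟨(0, i, 0, 0), Or.inl ⟨rfl, h, rfl, rfl⟩⟩
/-- level vertex -/
def vL (j b : ℕ) (h : 1 ≤ j ∧ j ≤ 4 ∧ b < tw a j) : VG a :=
  ⟨(1, j, b, 0), Or.inr (Or.inl ⟨rfl, h.1, h.2.1, h.2.2, rfl⟩)⟩
/-- cell -/
def vC (w i z : ℕ) (h : w < YY a ∧ i < tw a 3 ∧ z ≤ tw a 2) : VG a :=
  ⟨(2, w, i, z), Or.inr (Or.inr ⟨rfl, h⟩)⟩

@[simp] lemma vP_val (i : ℕ) (h : i ≤ 18 + 2 * a) : (vP i h).1 = (0, i, 0, 0) := rfl
@[simp] lemma vL_val (j b : ℕ) (h : 1 ≤ j ∧ j ≤ 4 ∧ b < tw a j) : (vL j b h).1 = (1, j, b, 0) := rfl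
@[simp] lemma vC_val (w i z : ℕ) (h : w < YY a ∧ i < tw a 3 ∧ z ≤ tw a 2) :
    (vC w i z h).1 = (2, w, i, z) := rfl

lemma vg_cases (v : VG a) : (∃ i h, v = vP i h) ∨ (∃ j b h, v = vL j b h) ∨
    ∃ w i z h, v = vC w i z h := by
  obtain ⟨⟨t, x, y, z⟩, h | h | h⟩ := v
  · obtain ⟨h1, h2, h3, h4⟩ := h
    simp only at h1 h2 h3 h4
    subst h1 h3 h4
    exact Or.inl ⟨x, h2, rfl⟩
  · obtain ⟨h1, h2, h3, h4, h5⟩ := h
    simp only at h1 h2 h3 h4 h5
    subst h1 h5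
    exact Or.inr (Or.inl ⟨x, y, ⟨h2, h3, h4⟩, rfl⟩)
  · obtain ⟨h1, h2⟩ := h
    simp only at h1 h2
    subst h1
    exact Or.inr (Or.inr ⟨x, y, z, h2, rfl⟩)

/-! ### numerical facts -/

lemma tw_lt (a j : ℕ) : tw a j < tw a (j + 1) := Nat.lt_two_pow_self

lemma tw_mono (a : ℕ) : StrictMono (tw a) := strictMono_nat_of_lt_succ (tw_lt a)

lemma cube_le (x : ℕ) (hx : 20 ≤ x) : 40 * x * x ≤ 2 ^ x := by
  induction hx with
  | refl => norm_num
  | @step m hm ih =>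
    have hm' : 20 ≤ m := hm
    rw [pow_succ]
    nlinarith

lemma bb_pos (ha : 40 ≤ a) : 0 < bb a := by unfold bb; positivity

lemma le_YY (ha : 40 ≤ a) : tw a 4 ≤ YY a := by
  have h1 : tw a 4 ≤ bb a := by
    unfold bb
    exact Nat.le_mul_of_pos_right _ (by omega)
  exact h1.trans (Nat.le_self_pow (Nat.succ_ne_zero _) _)

lemma YY_le (ha : 40 ≤ a) : (YY a + 1) ^ 8 ≤ 2 ^ tw a 4 := by
  have h0 : a < tw a 3 := tw_mono a (show 0 < 3 by norm_num)
  set s := tw a 3 with hs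
  have h1 : bb a ≤ 2 ^ (2 * s) := by
    unfold bb
    rw [two_mul, pow_add]
    exact Nat.mul_le_mul_left _ (h0.le.trans Nat.lt_two_pow_self.le)
  have h2 : YY a ≤ 2 ^ (2 * s * (s + 1)) := by
    unfold YY
    rw [pow_mul]
    exact Nat.pow_le_pow_left h1 _
  have h3 : YY a + 1 ≤ 2 ^ (2 * s * (s + 1) + 1) := by
    have : 0 < 2 ^ (2 * s * (s + 1)) := by positivity
    rw [pow_succ]; omega
  calc (YY a + 1) ^ 8 ≤ (2 ^ (2 * s * (s + 1) + 1)) ^ 8 := Nat.pow_le_pow_left h3 _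
    _ = 2 ^ ((2 * s * (s + 1) + 1) * 8) := by rw [← pow_mul]
    _ ≤ 2 ^ (2 ^ s) := by
        refine Nat.pow_le_pow_right (by norm_num) (le_trans ?_ (cube_le s (by omega)))
        nlinarith

lemma encode_lt (ha : 40 ≤ a) {v : Vx} (hv : valid a v) : Encodable.encode v < (YY a + 1) ^ 8 := by
  have h4 := le_YY ha
  have h0 : tw a 1 < tw a 2 := tw_lt _ _
  have h1 : tw a 2 < tw a 3 := tw_lt _ _
  have h2 : tw a 3 < tw a 4 := tw_lt _ _
  have h5 : 40 * a * a ≤ tw a 1 := cube_le a (by omega)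
  have h6 : 18 + 2 * a ≤ 40 * a * a := by nlinarith
  obtain ⟨t, x, y, z⟩ := v
  have hb : t ≤ YY a ∧ x ≤ YY a ∧ y ≤ YY a ∧ z ≤ YY a := by
    rcases hv with h | h | h
    · simp only at h; omega
    · have : tw a x ≤ tw a 4 := (tw_mono a).monotone h.2.2.1
      simp only at h; omega
    · simp only at h; omega
  set Y := YY a + 1 with hY
  have hY1 : 1 ≤ Y := by omega
  have e1 : Nat.pair y z < Y ^ 2 :=
    (Nat.pair_lt_max_add_one_sq _ _).trans_le (Nat.pow_le_pow_left (by omega) _)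
  have p2 : Y ≤ Y ^ 2 := Nat.le_self_pow (by norm_num) _
  have p4 : Y ≤ Y ^ 4 := Nat.le_self_pow (by norm_num) _
  have e2 : Nat.pair x (Nat.pair y z) < Y ^ 4 := by
    refine (Nat.pair_lt_max_add_one_sq _ _).trans_le ?_
    calc _ ≤ (Y ^ 2) ^ 2 := Nat.pow_le_pow_left (by omega) _
      _ = Y ^ 4 := by ring
  have e3 : Nat.pair t (Nat.pair x (Nat.pair y z)) < Y ^ 8 := by
    refine (Nat.pair_lt_max_add_one_sq _ _).trans_le ?_
    calc _ ≤ (Y ^ 4) ^ 2 := Nat.pow_le_pow_left (by omega) _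
      _ = Y ^ 8 := by ring
  exact e3

lemma vg_finite (ha : 40 ≤ a) : Finite (VG a) :=
  Finite.of_injective (fun v : VG a => (⟨Encodable.encode v.1, encode_lt ha v.2⟩ : Fin _))
    fun u v h => Subtype.ext (Encodable.encode_injective (congrArg Fin.val h))

lemma wcol_lt (ha : 40 ≤ a) (w i : ℕ) : wcol a w i < a := Nat.mod_lt _ (by omega)

lemma tw2_pos (a : ℕ) : 1 ≤ tw a 2 := Nat.one_le_two_pow

/-! ### definable vertices -/

section pins

variable {V : Type} {G : SimpleGraph V}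

variable (G) in
/-- the vertex is determined by its type of depth `d` -/
def Pinned (d : ℕ) (v : V) : Prop := ∀ x, E G G d [(x, v)] → x = v

lemma Pinned.mono {d d' : ℕ} {v : V} (h : Pinned G d v) (hd : d ≤ d') : Pinned G d' v :=
  fun x hx => h x (hx.mono hd)

lemma Pinned.eq {d : ℕ} {m v : V} (h : Pinned G d m) (hE : E G G d [(m, v)]) : m = v :=
  (h v hE.symm).symm

lemma Pinned.adj {d d' : ℕ} {m x v : V} (h : Pinned G d m) (hE : E G G d' [(x, v)]) (hd : d < d') :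
    G.Adj x m ↔ G.Adj v m := by
  obtain ⟨u, hu⟩ := hE.back hd m
  have := h u (hu.sub (by simp))
  subst this
  exact hu.adj_iff (by simp) (by simp)

end pins

lemma three_nbrs (ha : 40 ≤ a) (x : VG a) (hx : x.1.1 ≠ 0) : ∃ u v w : VG a, u ≠ v ∧ u ≠ w ∧ v ≠ w ∧
    (GG R a).Adj x u ∧ (GG R a).Adj x v ∧ (GG R a).Adj x w := by
  rcases vg_cases x with ⟨i, h, rfl⟩ | ⟨j, b, h, rfl⟩ | ⟨w, i, z, h, rfl⟩
  · exact absurd rfl hx
  · refine ⟨vP 8 (by omega), vP 10 (by omega), vP (10 + 2 * j) (by omega), ?_, ?_, ?_, ?_, ?_, ?_⟩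
    · simp [Subtype.ext_iff]
    · simp [Subtype.ext_iff]; omega
    · simp [Subtype.ext_iff]; omega
    all_goals simp [GG_adj, vL_val, vP_val, aj_LP]
  · have hc := wcol_lt ha w i
    have hL := tw2_pos a
    by_cases hz : z < tw a 2
    · refine ⟨vP (2 * (z % 3) + 2) (by omega), vP (20 + 2 * wcol a w i) (by omega),
        vC w i (z + 1) ⟨h.1, h.2.1, hz⟩, ?_, ?_, ?_, ?_, ?_, ?_⟩
      · simp [Subtype.ext_iff]; omega
      · simp [Subtype.ext_iff]
      · simp [Subtype.ext_iff]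
      all_goals simp [GG_adj, vC_val, vP_val, aj_CP, aj_CC]
    · refine ⟨vP (2 * (z % 3) + 2) (by omega), vP (20 + 2 * wcol a w i) (by omega),
        vC w i (z - 1) ⟨h.1, h.2.1, by omega⟩, ?_, ?_, ?_, ?_, ?_, ?_⟩
      · simp [Subtype.ext_iff]; omega
      · simp [Subtype.ext_iff]
      · simp [Subtype.ext_iff]
      · simp [GG_adj, vC_val, vP_val, aj_CP]
      · simp [GG_adj, vC_val, vP_val, aj_CP]
      · simp only [GG_adj, vC_val, aj_CC, true_and]; omega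

lemma two_nbrs (ha : 40 ≤ a) (x : VG a) (hx : x ≠ vP 0 (by omega)) : ∃ u v : VG a, u ≠ v ∧
    (GG R a).Adj x u ∧ (GG R a).Adj x v := by
  by_cases h0 : x.1.1 = 0
  · rcases vg_cases x with ⟨i, h, rfl⟩ | ⟨j, b, h, rfl⟩ | ⟨w, i, z, h, rfl⟩
    · have hi : i ≠ 0 := by rintro rfl; exact hx rfl
      by_cases hi' : i < 18 + 2 * a
      · refine ⟨vP (i - 1) (by omega), vP (i + 1) hi', ?_, ?_, ?_⟩
        · simp [Subtype.ext_iff]
        · simp only [GG_adj, vP_val, aj_PP]; omega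
        · simp [GG_adj, aj_PP]
      · refine ⟨vP (i - 1) (by omega), vL 1 (2 ^ (a - 1))
          ⟨le_rfl, by norm_num, Nat.pow_lt_pow_right (by norm_num) (by change a - 1 < a; omega)⟩,
          ?_, ?_, ?_⟩
        · simp [Subtype.ext_iff]
        · simp only [GG_adj, vP_val, aj_PP]; omega
        · rw [GG_adj, aj_comm]
          simp only [vP_val, vL_val, aj_LP, Nat.testBit_two_pow, decide_eq_true_eq, true_and]
          omega
    · simp at h0
    · simp at h0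
  · obtain ⟨u, v, w, h1, -, -, h2, h3, -⟩ := three_nbrs (R := R) ha x h0
    exact ⟨u, v, h1, h2, h3⟩

lemma adj_vP_odd {i : ℕ} {h : i ≤ 18 + 2 * a} (hi : i % 2 = 1 ∨ i = 0) {x : VG a}
    (hx : (GG R a).Adj x (vP i h)) : x.1 = (0, i + 1, 0, 0) ∨ (i ≠ 0 ∧ x.1 = (0, i - 1, 0, 0)) := by
  rcases vg_cases x with ⟨i', h, rfl⟩ | ⟨j, b, h, rfl⟩ | ⟨w, i, z, h, rfl⟩
  · simp only [GG_adj, vP_val, aj_PP, Prod.mk.injEq, true_and, and_true] at hx ⊢
    omega
  · simp only [GG_adj, vP_val, vL_val, aj_LP] at hx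
    omega
  · simp only [GG_adj, vP_val, vC_val, aj_CP] at hx
    omega

lemma pin_vP (ha : 40 ≤ a) : ∀ (i : ℕ) (h : i ≤ 18 + 2 * a), Pinned (GG R a) (i + 3) (vP i h) := by
  intro i
  induction i using Nat.strong_induction_on with
  | _ i ih =>
    intro h x hE
    rcases i with _ | i
    · by_contra hx
      obtain ⟨u, v, h1, h2, h3⟩ := two_nbrs (R := R) ha x hx
      obtain ⟨u', hu⟩ := hE.forth (k' := 1) (by omega) u
      obtain ⟨v', hv⟩ := hu.forth (k' := 0) (by omega) v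
      have a1 := adj_vP_odd (Or.inr rfl)
        ((hv.adj_iff (y := vP 0 h) (y' := u') (by simp) (by simp)).1 h2).symm
      have a2 := adj_vP_odd (Or.inr rfl)
        ((hv.adj_iff (y := vP 0 h) (y' := v') (by simp) (by simp)).1 h3).symm
      simp only [ne_eq, not_true_eq_false, false_and, or_false] at a1 a2
      exact h1 ((hv.eq_iff (by simp) (by simp)).2 (Subtype.ext (a1.trans a2.symm)))
    · have hadj : (GG R a).Adj x (vP i (by omega)) := by
        rw [(ih i (by omega) (by omega)).adj hE (by omega)]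
        simp [GG_adj, vP_val, aj_PP]
      have hne : i ≠ 0 → x.1 ≠ (0, i - 1, 0, 0) := by
        intro hi hx
        have e : x = vP (i - 1) (by omega) := Subtype.ext hx
        subst e
        have := (ih (i - 1) (by omega) (by omega)).eq (hE.mono (by omega))
        simp only [vP_val, Subtype.ext_iff, Prod.mk.injEq] at this
        omega
      by_cases hi : i % 2 = 1 ∨ i = 0
      · rcases adj_vP_odd hi hadj with e | e
        · exact Subtype.ext e
        · exact absurd e.2 (hne e.1)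
      · by_cases h0 : x.1.1 = 0
        · rcases vg_cases x with ⟨i', h, rfl⟩ | ⟨j, b, h, rfl⟩ | ⟨w, i, z, h, rfl⟩
          · simp only [GG_adj, vP_val, aj_PP, Prod.mk.injEq, true_and, and_true, ne_eq,
              Subtype.ext_iff] at hadj hne ⊢
            omega
          · simp at h0
          · simp at h0
        · exfalso
          obtain ⟨u, v, w, h1, h2, h3, h4, h5, h6⟩ := three_nbrs (R := R) ha x h0
          obtain ⟨u', hu⟩ := hE.forth (k' := 2) (by omega) u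
          obtain ⟨v', hv⟩ := hu.forth (k' := 1) (by omega) v
          obtain ⟨w', hw⟩ := hv.forth (k' := 0) (by omega) w
          have a1 := adj_vP_odd (by omega)
            ((hw.adj_iff (y := vP (i + 1) h) (y' := u') (by simp) (by simp)).1 h4).symm
          have a2 := adj_vP_odd (by omega)
            ((hw.adj_iff (y := vP (i + 1) h) (y' := v') (by simp) (by simp)).1 h5).symm
          have a3 := adj_vP_odd (by omega)
            ((hw.adj_iff (y := vP (i + 1) h) (y' := w') (by simp) (by simp)).1 h6).symm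
          have b1 : u'.1 ≠ v'.1 := fun e => h1 ((hw.eq_iff (by simp) (by simp)).2 (Subtype.ext e))
          have b2 : u'.1 ≠ w'.1 := fun e => h2 ((hw.eq_iff (by simp) (by simp)).2 (Subtype.ext e))
          have b3 : v'.1 ≠ w'.1 := fun e => h3 ((hw.eq_iff (by simp) (by simp)).2 (Subtype.ext e))
          rcases a1 with a1 | ⟨-, a1⟩ <;> rcases a2 with a2 | ⟨-, a2⟩ <;>
            rcases a3 with a3 | ⟨-, a3⟩ <;> simp_all

lemma bits_eq {n b b' : ℕ} (hb : b < 2 ^ n) (hb' : b' < 2 ^ n)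
    (h : ∀ c < n, (b.testBit c = true ↔ b'.testBit c = true)) : b = b' := by
  refine Nat.eq_of_testBit_eq fun c => ?_
  rcases lt_or_ge c n with hc | hc
  · exact Bool.eq_iff_iff.2 (h c hc)
  · rw [Nat.testBit_lt_two_pow (hb.trans_le (Nat.pow_le_pow_right (by norm_num) hc)),
      Nat.testBit_lt_two_pow (hb'.trans_le (Nat.pow_le_pow_right (by norm_num) hc))]

lemma pin_vL (ha : 40 ≤ a) : ∀ (j b : ℕ) (h : 1 ≤ j ∧ j ≤ 4 ∧ b < tw a j),
    Pinned (GG R a) (2 * a + 21 + j) (vL j b h) := by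
  intro j
  induction j with
  | zero => intro b h; omega
  | succ j ih =>
    intro b h x hE
    have hadj : (GG R a).Adj x (vP (10 + 2 * (j + 1)) (by omega)) := by
      rw [(pin_vP ha _ _).adj hE (by omega)]
      simp [GG_adj, vP_val, vL_val, aj_LP]
    rcases vg_cases x with ⟨i', h', rfl⟩ | ⟨j', b', h', rfl⟩ | ⟨w, i, z, h', rfl⟩
    · have := (pin_vP ha _ _).eq (hE.mono (by omega))
      simp [Subtype.ext_iff] at this
    · simp only [GG_adj, vP_val, vL_val, aj_LP] at hadj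
      obtain rfl : j' = j + 1 := by omega
      have : b' = b := by
        refine bits_eq h'.2.2 h.2.2 fun c hc => ?_
        rcases Nat.eq_zero_or_pos j with rfl | hj
        · have hc' : c < a := hc
          have := (pin_vP (R := R) ha (20 + 2 * c) (by omega)).adj hE (by omega)
          simp only [GG_adj, vP_val, vL_val, aj_LP] at this
          have e : (20 + 2 * c - 20) / 2 = c := by omega
          rw [e] at this
          have e1 : ¬ 20 + 2 * c = 8 := by omega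
          have e2 : ¬ 20 + 2 * c = 10 := by omega
          have e3 : ¬ 20 + 2 * c = 10 + 2 * (0 + 1) := by omega
          have e4 : 20 ≤ 20 + 2 * c := by omega
          have e5 : (20 + 2 * c) % 2 = 0 := by omega
          simpa only [e1, e2, e3, e4, e5, false_or, true_and] using this
        · have := (ih c ⟨hj, by omega, hc⟩).adj hE (by omega)
          simp only [GG_adj, vL_val, aj_LL] at this
          have e1 : ¬ j = j + 1 + 1 := by omega
          simpa only [e1, false_and, or_false, true_and] using this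
      subst this
      rfl
    · simp only [GG_adj, vP_val, vC_val, aj_CP] at hadj
      omega

lemma pin_vC (ha : 40 ≤ a) {w i z : ℕ} (h : w < YY a ∧ i < tw a 3 ∧ z ≤ tw a 2)
    (hl : lbl R a w i z) : Pinned (GG R a) (2 * a + 26) (vC w i z h) := by
  intro x hE
  rcases vg_cases x with ⟨i', h', rfl⟩ | ⟨j', b', h', rfl⟩ | ⟨w', i', z', h', rfl⟩
  · have := (pin_vP ha _ _).eq (hE.mono (by omega))
    simp [Subtype.ext_iff] at this
  · have := (pin_vL ha _ _ _).eq (hE.mono (by omega))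
    simp [Subtype.ext_iff] at this
  · have key : ∀ c < tw a 4, (lbl R a w' i' z' ∧
        (Encodable.encode ((2, w', i', z') : Vx)).testBit c = true ↔
        (Encodable.encode ((2, w, i, z) : Vx)).testBit c = true) := by
      intro c hc
      have := (pin_vL (R := R) ha 4 c ⟨by norm_num, le_rfl, hc⟩).adj hE (by omega)
      simpa only [GG_adj, vL_val, vC_val, aj_CL, true_and, hl] using this
    have e1 := (encode_lt ha (vC w i z h).2).trans_le (YY_le ha)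
    have e2 := (encode_lt ha (vC w' i' z' h').2).trans_le (YY_le ha)
    have hl' : lbl R a w' i' z' := by
      have : Encodable.encode ((2, w, i, z) : Vx) ≠ 0 := by
        intro e
        have := Encodable.encode_injective (e.trans (show 0 = Encodable.encode ((0, 0, 0, 0) : Vx) from rfl))
        simp at this
      obtain ⟨c, hc⟩ := Nat.exists_testBit_of_ne_zero this
      have hc' : c < tw a 4 := by
        by_contra h0
        have := Nat.testBit_lt_two_pow (e1.trans_le (Nat.pow_le_pow_right (by norm_num) (not_lt.1 h0)))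
        exact absurd (hc.symm.trans this) (by simp)
      exact ((key c hc').2 hc).1
    refine Subtype.ext (Encodable.encode_injective (bits_eq e2 e1 fun c hc => ?_))
    have := key c hc
    simp only [hl', true_and] at this
    exact this

variable (R) in
/-- labelled vertices -/
def Lam (v : VG a) : Prop := v.1.1 = 2 → lbl R a v.1.2.1 v.1.2.2.1 v.1.2.2.2

lemma pin_Lam (ha : 40 ≤ a) {v : VG a} (hv : Lam R v) : Pinned (GG R a) (2 * a + 26) v := by
  rcases vg_cases v with ⟨i', h', rfl⟩ | ⟨j', b', h', rfl⟩ | ⟨w', i', z', h', rfl⟩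
  · exact (pin_vP ha _ _).mono (by omega)
  · exact (pin_vL ha _ _ _).mono (by omega)
  · exact pin_vC ha h' (hv rfl)

end Pool.Agent.H431Z.LD
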