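import Mathlib
import Pool.Agent.H431Z.LD.Frame

set_option autoImplicit false
set_option linter.unusedVariables false

namespace Pool.Agent.H431Z.LD

section generic

variable {V : Type} (G : SimpleGraph V) (δ : V → Option (ℕ × ℕ))

/-- horizontal edges -/
def hor (u v : V) : Prop := G.Adj u v ∧ ∃ q c c', δ u = some (q, c) ∧ δ v = some (q, c')
/-- upward edges -/
def upw (u v : V) : Prop := G.Adj u v ∧ ∃ q c, δ u = some (q, c) ∧ δ v = some ((q + 1) % 3, c)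
/-- colour -/
def cOf (u : V) : ℕ := ((δ u).getD (0, 0)).2

variable {G δ}
lemma hor_symm {u v : V} (h : hor G δ u v) : hor G δ v u := by
  obtain ⟨h1, q, c, c', h2, h3⟩ := h
  exact ⟨h1.symm, q, c', c, h3, h2⟩

end generic

variable {R : Rules ℕ} {a : ℕ}

/-- layer and colour of a cell -/
def dG (v : VG a) : Option (ℕ × ℕ) :=
  if v.1.1 = 2 then some (v.1.2.2.2 % 3, wcol a v.1.2.1 v.1.2.2.1) else none

@[simp] lemma dG_vP (i : ℕ) (h : i ≤ 18 + 2 * a) : dG (vP i h) = none := rfl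
@[simp] lemma dG_vL (j b : ℕ) (h : 1 ≤ j ∧ j ≤ 4 ∧ b < tw a j) : dG (vL j b h) = none := rfl
@[simp] lemma dG_vC (w i z : ℕ) (h : w < YY a ∧ i < tw a 3 ∧ z ≤ tw a 2) :
    dG (vC w i z h) = some (z % 3, wcol a w i) := rfl

lemma cell_of_dG {v : VG a} (h : dG v ≠ none) : ∃ w i z h, v = vC w i z h := by
  rcases vg_cases v with ⟨i', h', rfl⟩ | ⟨j', b', h', rfl⟩ | h
  · exact absurd rfl h
  · exact absurd rfl h
  · exact h

lemma Lam_of_dG {v : VG a} (h : dG v = none) : Lam R v := by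
  intro h2
  simp [dG, h2] at h

lemma hor_vC {w i z : ℕ} {h : w < YY a ∧ i < tw a 3 ∧ z ≤ tw a 2} {v : VG a} :
    hor (GG R a) dG (vC w i z h) v ↔ ∃ i', ∃ h' : wadj a w i i', v = vC w i' z ⟨h.1, h'.2.1, h.2.2⟩ := by
  constructor
  · rintro ⟨h1, q, c, c', h2, h3⟩
    obtain ⟨w', i', z', h', rfl⟩ := cell_of_dG (v := v) (by simp [h3])
    simp only [dG_vC, Option.some.injEq, Prod.mk.injEq] at h2 h3
    simp only [GG_adj, vC_val, aj_CC] at h1
    obtain ⟨rfl, ⟨rfl, h4⟩ | h4⟩ := h1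
    · exact ⟨i', h4, rfl⟩
    · omega
  · rintro ⟨i', h', rfl⟩
    refine ⟨?_, _, _, _, rfl, rfl⟩
    simp [GG_adj, aj_CC, h']

lemma upw_vC {w i z : ℕ} {h : w < YY a ∧ i < tw a 3 ∧ z ≤ tw a 2} {v : VG a} :
    upw (GG R a) dG (vC w i z h) v ↔ ∃ h' : z < tw a 2, v = vC w i (z + 1) ⟨h.1, h.2.1, h'⟩ := by
  constructor
  · rintro ⟨h1, q, c, h2, h3⟩
    obtain ⟨w', i', z', h', rfl⟩ := cell_of_dG (v := v) (by simp [h3])
    simp only [dG_vC, Option.some.injEq, Prod.mk.injEq] at h2 h3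
    simp only [GG_adj, vC_val, aj_CC] at h1
    obtain ⟨rfl, h4 | ⟨rfl, rfl | h4⟩⟩ := h1
    · omega
    · exact ⟨h'.2.2, rfl⟩
    · omega
  · rintro ⟨h', rfl⟩
    refine ⟨?_, _, _, rfl, ?_⟩
    · simp [GG_adj, aj_CC]
    · simp

lemma vC_upw {w i z : ℕ} {h : w < YY a ∧ i < tw a 3 ∧ z ≤ tw a 2} {v : VG a} :
    upw (GG R a) dG v (vC w i z h) ↔ ∃ z', ∃ h' : z = z' + 1,
      v = vC w i z' ⟨h.1, h.2.1, by omega⟩ := by
  constructor
  · intro hu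
    obtain ⟨w', i', z', h', rfl⟩ := cell_of_dG (v := v) (by
      obtain ⟨-, q, c, h2, -⟩ := hu; simp [h2])
    obtain ⟨h1, h2⟩ := upw_vC.1 hu
    simp only [Subtype.ext_iff, vC_val, Prod.mk.injEq, true_and] at h2
    obtain ⟨rfl, rfl, rfl⟩ := h2
    exact ⟨z', rfl, rfl⟩
  · rintro ⟨z', rfl, rfl⟩
    exact upw_vC.2 ⟨h.2.2, rfl⟩

lemma G_U0 {u v : VG a} (hu : dG u ≠ none) (hv : dG v ≠ none) (h : (GG R a).Adj u v) :
    hor (GG R a) dG u v ∨ upw (GG R a) dG u v ∨ upw (GG R a) dG v u := by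
  obtain ⟨w, i, z, h1, rfl⟩ := cell_of_dG hu
  obtain ⟨w', i', z', h2, rfl⟩ := cell_of_dG hv
  simp only [GG_adj, vC_val, aj_CC] at h
  obtain ⟨rfl, ⟨rfl, h4⟩ | ⟨rfl, rfl | rfl⟩⟩ := h
  · exact Or.inl (hor_vC.2 ⟨_, h4, rfl⟩)
  · exact Or.inr (Or.inl (upw_vC.2 ⟨h2.2.2, rfl⟩))
  · exact Or.inr (Or.inr (upw_vC.2 ⟨h1.2.2, rfl⟩))

lemma cell_of_upw {u v : VG a} (h : upw (GG R a) dG u v) : ∃ w i z h, u = vC w i z h :=
  cell_of_dG (by obtain ⟨-, q, c, h2, -⟩ := h; simp [h2])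

lemma G_U1 {x y y' : VG a} (h : upw (GG R a) dG x y) (h' : upw (GG R a) dG x y') : y = y' := by
  obtain ⟨w, i, z, h1, rfl⟩ := cell_of_upw h
  obtain ⟨_, rfl⟩ := upw_vC.1 h
  obtain ⟨_, rfl⟩ := upw_vC.1 h'
  rfl

lemma G_U2 {x y y' : VG a} (h : upw (GG R a) dG y x) (h' : upw (GG R a) dG y' x) : y = y' := by
  obtain ⟨w, i, z, h1, rfl⟩ := cell_of_upw h
  obtain ⟨_, rfl⟩ := upw_vC.1 h
  obtain ⟨z', e, rfl⟩ := vC_upw.1 h'
  obtain rfl : z = z' := by omega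
  rfl

lemma G_U4 {x x' y : VG a} (h : hor (GG R a) dG x x') (h' : upw (GG R a) dG x y) :
    ∃ y', upw (GG R a) dG x' y' ∧ hor (GG R a) dG y y' := by
  obtain ⟨w, i, z, h1, rfl⟩ := cell_of_upw h'
  obtain ⟨h2, rfl⟩ := upw_vC.1 h'
  obtain ⟨i', h3, rfl⟩ := hor_vC.1 h
  exact ⟨_, upw_vC.2 ⟨h2, rfl⟩, hor_vC.2 ⟨i', h3, rfl⟩⟩

lemma G_U5 {x y y' : VG a} (h : hor (GG R a) dG y y') (h' : upw (GG R a) dG x y) :
    ∃ x', upw (GG R a) dG x' y' ∧ hor (GG R a) dG x x' := by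
  obtain ⟨w, i, z, h1, rfl⟩ := cell_of_upw h'
  obtain ⟨h2, rfl⟩ := upw_vC.1 h'
  obtain ⟨i', h3, rfl⟩ := hor_vC.1 h
  exact ⟨vC w i' z ⟨h1.1, h3.2.1, h1.2.2⟩, upw_vC.2 ⟨h2, rfl⟩, hor_vC.2 ⟨i', h3, rfl⟩⟩

lemma G_U6 {x : VG a} (h : ¬ Lam R x) : Good R (hor (GG R a) dG) (cOf dG) x := by
  obtain ⟨w, i, z, h1, rfl⟩ := cell_of_dG (v := x) fun e => h (Lam_of_dG e)
  have hg : Good R (wadj a w) (wcol a w) i := by
    by_contra h0
    exact h fun _ => Or.inr h0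
  refine hg.transfer (fun u v => ∃ hu : u < tw a 3, v = vC w u z ⟨h1.1, hu, h1.2.2⟩) ?_ ?_
    ⟨h1.2.1, rfl⟩ ?_ ?_ ?_
  · rintro u v ⟨hu, rfl⟩; rfl
  · rintro u v u' v' ⟨hu, rfl⟩ ⟨hu', rfl⟩
    refine ⟨?_, by rintro rfl; rfl⟩
    rw [hor_vC]
    constructor
    · intro e; exact ⟨u', e, rfl⟩
    · rintro ⟨i', e, e'⟩
      simp only [Subtype.ext_iff, vC_val, Prod.mk.injEq, true_and, and_true] at e'
      rwa [e']
  · intro y' hy'
    obtain ⟨i', e, rfl⟩ := hor_vC.1 hy'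
    exact ⟨i', e.2.1, rfl⟩
  · intro y hy; exact ⟨_, hy.2.1, rfl⟩
  · intro y z' _ hy; exact ⟨_, hy.2.1, rfl⟩

lemma G_U9 {x x' v : VG a} (h : ¬ Lam R x) (h' : ¬ Lam R x') (e : dG x = dG x') (hv : dG v = none) :
    (GG R a).Adj x v ↔ (GG R a).Adj x' v := by
  obtain ⟨w, i, z, h1, rfl⟩ := cell_of_dG (v := x) fun e => h (Lam_of_dG e)
  obtain ⟨w', i', z', h2, rfl⟩ := cell_of_dG (v := x') fun e => h' (Lam_of_dG e)
  simp only [dG_vC, Option.some.injEq, Prod.mk.injEq] at e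
  have l1 : ¬ lbl R a w i z := fun l => h fun _ => l
  have l2 : ¬ lbl R a w' i' z' := fun l => h' fun _ => l
  rcases vg_cases v with ⟨p, h', rfl⟩ | ⟨j', b', h', rfl⟩ | ⟨_, _, _, _, rfl⟩
  · simp only [GG_adj, vC_val, vP_val, aj_CP, e.1, e.2]
  · simp only [GG_adj, vC_val, vL_val, aj_CL, l1, l2, false_and, and_false]
  · simp at hv

/-- the setting of the rigidity argument -/
structure Ctx (R : Rules ℕ) (a : ℕ) {W : Type} (H : SimpleGraph W) where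
  ha : 40 ≤ a
  hh : VG a → W
  gg : W → VG a
  hh_spec : ∀ v, E (GG R a) H (2 * a + 30) [(v, hh v)]
  gg_spec : ∀ y, E (GG R a) H (2 * a + 30) [(gg y, y)]

namespace Ctx

variable {W : Type} {H : SimpleGraph W} (c : Ctx R a H)

lemma pin_eq {m : VG a} (hm : Lam R m) {d : ℕ} {l : List (VG a × W)} (hE : E (GG R a) H d l)
    (hd : 2 * a + 26 ≤ d) {x : VG a} {y : W} (hx : (x, y) ∈ l) : x = m ↔ y = c.hh m := by
  have hp := pin_Lam c.ha hm
  have h1 : E (GG R a) H (2 * a + 26) [(x, y)] := (hE.mono hd).sub (by simpa using hx)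
  constructor
  · rintro rfl
    obtain ⟨x', hx'⟩ := (c.hh_spec x).back (k' := 2 * a + 26) (by omega) y
    have : x' = x := hp x' (E.comp hx' h1.symm (by simp))
    exact (hx'.eq_iff (by simp) (by simp)).1 this
  · rintro rfl
    exact hp x (E.comp h1 ((c.hh_spec m).mono (by omega)).symm (by simp))

lemma pin_adj {m : VG a} (hm : Lam R m) {d : ℕ} {l : List (VG a × W)} (hE : E (GG R a) H d l)
    (hd : 2 * a + 27 ≤ d) {x : VG a} {y : W} (hx : (x, y) ∈ l) :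
    (GG R a).Adj x m ↔ H.Adj y (c.hh m) := by
  obtain ⟨y', hy'⟩ := hE.forth (k' := 2 * a + 26) (by omega) m
  have := (c.pin_eq hm hy' le_rfl List.mem_cons_self).1 rfl
  subst this
  exact hy'.adj_iff (List.mem_cons_of_mem _ hx) List.mem_cons_self

/-- layer and colour in `H` -/
def dH (y : W) : Option (ℕ × ℕ) := dG (c.gg y)

lemma delta {d : ℕ} {l : List (VG a × W)} (hE : E (GG R a) H d l)
    (hd : 2 * a + 27 ≤ d) {x : VG a} {y : W} (hx : (x, y) ∈ l) : dG x = c.dH y := by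
  unfold dH
  have hg := c.gg_spec y
  by_cases h1 : dG x = none
  · have e1 := (c.pin_eq (Lam_of_dG h1) hE (by omega) hx).1 rfl
    rw [(c.pin_eq (Lam_of_dG h1) hg (by omega) List.mem_cons_self).2 e1]
  · by_cases h2 : dG (c.gg y) = none
    · have e1 := (c.pin_eq (Lam_of_dG h2) hg (by omega) List.mem_cons_self).1 rfl
      rw [(c.pin_eq (Lam_of_dG h2) hE (by omega) hx).2 e1]
    · obtain ⟨w, i, z, h3, rfl⟩ := cell_of_dG h1
      obtain ⟨w', i', z', h4, e⟩ := cell_of_dG h2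
      have key : ∀ p (hp : p ≤ 18 + 2 * a), (p = 2 * (z % 3) + 2 ∨ p = 20 + 2 * wcol a w i) →
          (p = 2 * (z' % 3) + 2 ∨ p = 20 + 2 * wcol a w' i') := by
        intro p hp h5
        have l1 : Lam R (vP p hp) := Lam_of_dG rfl
        have a1 := (c.pin_adj l1 hE hd hx).1 (by simpa [GG_adj, aj_CP] using h5)
        have a2 := (c.pin_adj l1 hg (by omega) List.mem_cons_self).2 a1
        rw [e] at a2
        simpa [GG_adj, aj_CP] using a2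
      have hc := wcol_lt c.ha w i
      have k1 := key _ (by omega) (Or.inl rfl)
      have k2 := key _ (by omega) (Or.inr rfl)
      rw [e]
      simp only [dG_vC, Option.some.injEq, Prod.mk.injEq]
      omega

lemma tr_hor {d : ℕ} {l : List (VG a × W)} (hE : E (GG R a) H d l) (hd : 2 * a + 27 ≤ d)
    {x x' : VG a} {y y' : W} (hx : (x, y) ∈ l) (hx' : (x', y') ∈ l) :
    hor (GG R a) dG x x' ↔ hor H c.dH y y' := by
  unfold hor
  rw [c.delta hE hd hx, c.delta hE hd hx', hE.adj_iff hx hx']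

lemma tr_upw {d : ℕ} {l : List (VG a × W)} (hE : E (GG R a) H d l) (hd : 2 * a + 27 ≤ d)
    {x x' : VG a} {y y' : W} (hx : (x, y) ∈ l) (hx' : (x', y') ∈ l) :
    upw (GG R a) dG x x' ↔ upw H c.dH y y' := by
  unfold upw
  rw [c.delta hE hd hx, c.delta hE hd hx', hE.adj_iff hx hx']

lemma tr_col {d : ℕ} {l : List (VG a × W)} (hE : E (GG R a) H d l) (hd : 2 * a + 27 ≤ d)
    {x : VG a} {y : W} (hx : (x, y) ∈ l) : cOf dG x = cOf c.dH y := by
  unfold cOf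
  rw [c.delta hE hd hx]

lemma three (y y₁ y₂ : W) : ∃ x₁ x₂, E (GG R a) H (2 * a + 28) [(x₂, y₂), (x₁, y₁), (c.gg y, y)] := by
  obtain ⟨x₁, h1⟩ := (c.gg_spec y).back (k' := 2 * a + 29) (by omega) y₁
  obtain ⟨x₂, h2⟩ := h1.back (k' := 2 * a + 28) (by omega) y₂
  exact ⟨x₁, x₂, h2⟩

lemma U0 {u v : W} (hu : c.dH u ≠ none) (hv : c.dH v ≠ none) (h : H.Adj u v) :
    hor H c.dH u v ∨ upw H c.dH u v ∨ upw H c.dH v u := by
  obtain ⟨x, hx⟩ := (c.gg_spec u).back (k' := 2 * a + 29) (by omega) v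
  have m1 : (c.gg u, u) ∈ [(x, v), (c.gg u, u)] := by simp
  have m2 : (x, v) ∈ [(x, v), (c.gg u, u)] := by simp
  rw [← c.tr_hor hx (by omega) m1 m2, ← c.tr_upw hx (by omega) m1 m2, ← c.tr_upw hx (by omega) m2 m1]
  exact G_U0 hu (by rwa [c.delta hx (by omega) m2]) ((hx.adj_iff m1 m2).2 h)

lemma U1 {x y y' : W} (h : upw H c.dH x y) (h' : upw H c.dH x y') : y = y' := by
  obtain ⟨x₁, x₂, e⟩ := c.three x y y'
  exact (e.eq_iff (by simp) (by simp)).1 (G_U1 (R := R) (x := c.gg x) (y := x₁) (y' := x₂)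
    ((c.tr_upw e (by omega) (by simp) (by simp)).2 h) ((c.tr_upw e (by omega) (by simp) (by simp)).2 h'))

lemma U2 {x y y' : W} (h : upw H c.dH y x) (h' : upw H c.dH y' x) : y = y' := by
  obtain ⟨x₁, x₂, e⟩ := c.three x y y'
  exact (e.eq_iff (by simp) (by simp)).1 (G_U2 (R := R) (x := c.gg x) (y := x₁) (y' := x₂)
    ((c.tr_upw e (by omega) (by simp) (by simp)).2 h) ((c.tr_upw e (by omega) (by simp) (by simp)).2 h'))

lemma U4 {x x' y : W} (h : hor H c.dH x x') (h' : upw H c.dH x y) :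
    ∃ y', upw H c.dH x' y' ∧ hor H c.dH y y' := by
  obtain ⟨x₁, x₂, e⟩ := c.three x x' y
  obtain ⟨u, h1, h2⟩ := G_U4 (R := R) (x := c.gg x) (x' := x₁) (y := x₂)
    ((c.tr_hor e (by omega) (by simp) (by simp)).2 h) ((c.tr_upw e (by omega) (by simp) (by simp)).2 h')
  obtain ⟨v, e'⟩ := e.forth (k' := 2 * a + 27) (by omega) u
  exact ⟨v, (c.tr_upw e' le_rfl (by simp) (by simp)).1 h1, (c.tr_hor e' le_rfl (by simp) (by simp)).1 h2⟩

lemma U5 {x y y' : W} (h : hor H c.dH y y') (h' : upw H c.dH x y) :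
    ∃ x', upw H c.dH x' y' ∧ hor H c.dH x x' := by
  obtain ⟨x₁, x₂, e⟩ := c.three x y y'
  obtain ⟨u, h1, h2⟩ := G_U5 (R := R) (x := c.gg x) (y := x₁) (y' := x₂)
    ((c.tr_hor e (by omega) (by simp) (by simp)).2 h) ((c.tr_upw e (by omega) (by simp) (by simp)).2 h')
  obtain ⟨v, e'⟩ := e.forth (k' := 2 * a + 27) (by omega) u
  exact ⟨v, (c.tr_upw e' le_rfl (by simp) (by simp)).1 h1, (c.tr_hor e' le_rfl (by simp) (by simp)).1 h2⟩

lemma U6 {y : W} (h : ¬ Lam R (c.gg y)) : Good R (hor H c.dH) (cOf c.dH) y := by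
  obtain ⟨h1, h2, h3, h4, h5⟩ := G_U6 h
  have e0 := c.tr_col (c.gg_spec y) (by omega) List.mem_cons_self
  rw [Good, ← e0]
  refine ⟨h1, fun y' hy' => ?_, fun d hd hn => ?_, fun d hd y₁ y₂ a1 a2 b1 b2 => ?_,
    fun y₁ y₂ a1 a2 b => ?_⟩
  · obtain ⟨x, e⟩ := (c.gg_spec y).back (k' := 2 * a + 29) (by omega) y'
    rw [← c.tr_col e (by omega) List.mem_cons_self]
    exact h2 x ((c.tr_hor e (by omega) (by simp) (by simp)).2 hy')
  · obtain ⟨x, a1, a2⟩ := h3 d hd hn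
    obtain ⟨y', e⟩ := (c.gg_spec y).forth (k' := 2 * a + 29) (by omega) x
    exact ⟨y', (c.tr_hor e (by omega) (by simp) (by simp)).1 a1,
      by rw [← c.tr_col e (by omega) List.mem_cons_self]; exact a2⟩
  · obtain ⟨x₁, x₂, e⟩ := c.three y y₁ y₂
    rw [← c.tr_col (x := x₁) e (by omega) (by simp)] at b1
    rw [← c.tr_col (x := x₂) e (by omega) (by simp)] at b2
    exact (e.eq_iff (by simp) (by simp)).1 (h4 d hd x₁ x₂
      ((c.tr_hor e (by omega) (by simp) (by simp)).2 a1)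
      ((c.tr_hor e (by omega) (by simp) (by simp)).2 a2) b1 b2)
  · obtain ⟨x₁, x₂, e⟩ := c.three y y₁ y₂
    rw [← c.tr_col (x := x₁) (y := y₁) e (by omega) (by simp),
      ← c.tr_col (x := x₂) (y := y₂) e (by omega) (by simp)] at b ⊢
    obtain ⟨u, u1, u2, u3⟩ := h5 x₁ x₂ ((c.tr_hor e (by omega) (by simp) (by simp)).2 a1)
      ((c.tr_hor e (by omega) (by simp) (by simp)).2 a2) b
    obtain ⟨v, e'⟩ := e.forth (k' := 2 * a + 27) (by omega) u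
    exact ⟨v, (c.tr_hor e' le_rfl (by simp) (by simp)).1 u1,
      (c.tr_hor e' le_rfl (by simp) (by simp)).1 u2,
      by rw [← c.tr_col e' le_rfl List.mem_cons_self]; exact u3⟩

lemma hh_back (m : VG a) (y : W) : ∃ x, E (GG R a) H (2 * a + 29) [(x, y), (m, c.hh m)] :=
  (c.hh_spec m).back (by omega) y

lemma hh_pair {m m' : VG a} (hm' : Lam R m') :
    E (GG R a) H (2 * a + 29) [(m', c.hh m'), (m, c.hh m)] := by
  obtain ⟨x, e⟩ := c.hh_back m (c.hh m')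
  have := (c.pin_eq hm' e (by omega) List.mem_cons_self).2 rfl
  rwa [this] at e

lemma dH_hh (m : VG a) : c.dH (c.hh m) = dG m :=
  (c.delta (c.hh_spec m) (by omega) List.mem_cons_self).symm

open Classical in
/-- the column above a bottom cell -/
noncomputable def col (y : W) : ℕ → W
  | 0 => y
  | z + 1 => if h : ∃ y', upw H c.dH (col y z) y' then h.choose else col y z

lemma col_succ {y : W} {z : ℕ} (h : ∃ y', upw H c.dH (c.col y z) y') :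
    upw H c.dH (c.col y z) (c.col y (z + 1)) := by
  rw [col, dif_pos h]
  exact h.choose_spec

open Classical in
/-- image of a cell -/
noncomputable def F (w i z : ℕ) : W :=
  c.col (c.hh (if h : w < YY a ∧ i < tw a 3 then vC w i 0 ⟨h.1, h.2, Nat.zero_le _⟩
    else vP 0 (Nat.zero_le _))) z

lemma F_zero {w i : ℕ} (hw : w < YY a) (hi : i < tw a 3) :
    c.F w i 0 = c.hh (vC w i 0 ⟨hw, hi, Nat.zero_le _⟩) := by
  unfold F
  rw [dif_pos ⟨hw, hi⟩]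
  rfl

lemma F_succ {w i z : ℕ} (h : ∃ y', upw H c.dH (c.F w i z) y') :
    upw H c.dH (c.F w i z) (c.F w i (z + 1)) := c.col_succ h

/-- the layer `z` of the window `w` is correct -/
def Lay (w z : ℕ) (hw : w < YY a) (hz : z ≤ tw a 2) : Prop :=
  ∀ i, ∀ hi : i < tw a 3, c.dH (c.F w i z) = some (z % 3, wcol a w i) ∧
    (∀ y, hor H c.dH (c.F w i z) y ↔ ∃ i', wadj a w i i' ∧ y = c.F w i' z) ∧
    (¬ Good R (wadj a w) (wcol a w) i → c.F w i z = c.hh (vC w i z ⟨hw, hi, hz⟩))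

lemma Lay.prop (hR : ¬ HasModel R) {w z : ℕ} {hw : w < YY a} {hz : z ≤ tw a 2} (h : c.Lay w z hw hz)
    (Q : W → Prop) (hQ : ∀ x x', hor H c.dH x x' → Q x → Q x')
    (hc : ∀ i hi, Lam R (vC w i z ⟨hw, hi, hz⟩) → Q (c.hh (vC w i z ⟨hw, hi, hz⟩))) :
    ∀ i < tw a 3, Q (c.F w i z) := by
  intro i hi
  by_contra h0
  refine closed_good_empty hR (A := wadj a w) (fun _ _ => wadj_symm) (wadj_irrefl a w) (wcol a w)
    {i | i < tw a 3 ∧ ¬ Q (c.F w i z)} ((Set.finite_lt_nat _).subset fun _ h => h.1) ?_ ?_ i ⟨hi, h0⟩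
  · rintro x ⟨h1, h2⟩ y hy
    exact ⟨hy.2.1, fun h3 => h2 (hQ _ _ (((h y hy.2.1).2.1 _).2 ⟨x, wadj_symm hy, rfl⟩) h3)⟩
  · rintro x ⟨h1, h2⟩
    by_contra h3
    rw [(h x h1).2.2 h3] at h2
    exact h2 (hc x h1 fun _ => Or.inr h3)

lemma Lay.up (hR : ¬ HasModel R) {w z : ℕ} {hw : w < YY a} {hz : z ≤ tw a 2} (h : c.Lay w z hw hz)
    (hz' : z < tw a 2) : ∀ i < tw a 3, upw H c.dH (c.F w i z) (c.F w i (z + 1)) := by
  intro i hi
  refine c.F_succ (Lay.prop c hR h (fun x => ∃ y, upw H c.dH x y) ?_ ?_ i hi)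
  · rintro x x' e ⟨y, hy⟩
    obtain ⟨y', h1, -⟩ := c.U4 e hy
    exact ⟨y', h1⟩
  · intro i hi hl
    obtain ⟨y, e⟩ := (c.hh_spec (vC w i z ⟨hw, hi, hz⟩)).forth (k' := 2 * a + 29) (by omega)
      (vC w i (z + 1) ⟨hw, hi, hz'⟩)
    exact ⟨y, (c.tr_upw e (by omega) (List.mem_cons_of_mem _ List.mem_cons_self) List.mem_cons_self).1 (upw_vC.2 ⟨hz', rfl⟩)⟩

lemma Lay.top (hR : ¬ HasModel R) {w : ℕ} {hw : w < YY a} (h : c.Lay w (tw a 2) hw le_rfl) :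
    ∀ i < tw a 3, ¬ ∃ y, upw H c.dH (c.F w i (tw a 2)) y := by
  refine Lay.prop c hR h (fun x => ¬ ∃ y, upw H c.dH x y) ?_ ?_
  · rintro x x' e h1 ⟨y, hy⟩
    obtain ⟨y', h2, -⟩ := c.U4 (hor_symm e) hy
    exact h1 ⟨y', h2⟩
  · rintro i hi hl ⟨y, hy⟩
    obtain ⟨x, e⟩ := c.hh_back (vC w i _ ⟨hw, hi, le_rfl⟩) y
    obtain ⟨h1, -⟩ := upw_vC.1 ((c.tr_upw e (by omega) (List.mem_cons_of_mem _ List.mem_cons_self) List.mem_cons_self).2 hy)
    exact lt_irrefl _ h1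

lemma lay (hR : ¬ HasModel R) {w : ℕ} (hw : w < YY a) : ∀ z (hz : z ≤ tw a 2), c.Lay w z hw hz := by
  intro z
  induction z with
  | zero =>
    intro hz i hi
    rw [c.F_zero hw hi]
    refine ⟨c.dH_hh _, fun y => ⟨fun e => ?_, ?_⟩, fun _ => rfl⟩
    · obtain ⟨x, e'⟩ := c.hh_back (vC w i 0 ⟨hw, hi, hz⟩) y
      obtain ⟨i', h1, rfl⟩ := hor_vC.1 ((c.tr_hor e' (by omega) (List.mem_cons_of_mem _ List.mem_cons_self) List.mem_cons_self).2 e)
      refine ⟨i', h1, ?_⟩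
      rw [c.F_zero hw h1.2.1]
      exact (c.pin_eq (fun _ => Or.inl rfl) e' (by omega) List.mem_cons_self).1 rfl
    · rintro ⟨i', h1, rfl⟩
      rw [c.F_zero hw h1.2.1]
      have e := c.hh_pair (m := vC w i 0 ⟨hw, hi, hz⟩) (m' := vC w i' 0 ⟨hw, h1.2.1, hz⟩)
        (fun _ => Or.inl rfl)
      exact (c.tr_hor e (by omega) (List.mem_cons_of_mem _ List.mem_cons_self) List.mem_cons_self).1 (hor_vC.2 ⟨i', h1, rfl⟩)
  | succ z ih =>
    intro hz i hi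
    have h := ih (by omega)
    have hup := Lay.up c hR h hz
    refine ⟨?_, fun y => ⟨fun e => ?_, ?_⟩, fun hg => ?_⟩
    · obtain ⟨-, q, k, h1, h2⟩ := hup i hi
      rw [(h i hi).1] at h1
      simp only [Option.some.injEq, Prod.mk.injEq] at h1
      rw [h2, ← h1.1, ← h1.2]
      simp
    · obtain ⟨x', h1, h2⟩ := c.U5 e (hup i hi)
      obtain ⟨i', h3, rfl⟩ := ((h i hi).2.1 _).1 h2
      exact ⟨i', h3, c.U1 h1 (hup i' h3.2.1)⟩
    · rintro ⟨i', h1, rfl⟩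
      obtain ⟨y', h2, h3⟩ := c.U4 (((h i hi).2.1 _).2 ⟨i', h1, rfl⟩) (hup i hi)
      rwa [c.U1 h2 (hup i' h1.2.1)] at h3
    · have e := c.hh_pair (m := vC w i z ⟨hw, hi, by omega⟩) (m' := vC w i (z + 1) ⟨hw, hi, hz⟩)
        (fun _ => Or.inr hg)
      have h1 := (c.tr_upw e (by omega) (List.mem_cons_of_mem _ List.mem_cons_self) List.mem_cons_self).1 (upw_vC.2 ⟨hz, rfl⟩)
      rw [← (h i hi).2.2 hg] at h1
      exact c.U1 (hup i hi) h1

lemma F_no_down {w i : ℕ} (hw : w < YY a) (hi : i < tw a 3) (y : W) :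
    ¬ upw H c.dH y (c.F w i 0) := by
  rw [c.F_zero hw hi]
  intro hy
  obtain ⟨x, e⟩ := c.hh_back (vC w i 0 ⟨hw, hi, Nat.zero_le _⟩) y
  obtain ⟨z', h1, -⟩ := vC_upw.1 ((c.tr_upw e (by omega) List.mem_cons_self (List.mem_cons_of_mem _ List.mem_cons_self)).2 hy)
  omega

lemma F_inj (hR : ¬ HasModel R) {w i w' i' : ℕ} (hw : w < YY a) (hi : i < tw a 3) (hw' : w' < YY a)
    (hi' : i' < tw a 3) : ∀ z z', z ≤ tw a 2 → z' ≤ tw a 2 → c.F w i z = c.F w' i' z' →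
      w = w' ∧ i = i' ∧ z = z' := by
  intro z
  induction z with
  | zero =>
    rintro (_ | z') hz hz' e
    · rw [c.F_zero hw hi, c.F_zero hw' hi'] at e
      have := (c.pin_eq (m := vC w' i' 0 ⟨hw', hi', hz⟩) (fun _ => Or.inl rfl) (c.hh_spec _) (by omega)
        List.mem_cons_self).2 e
      simpa [Subtype.ext_iff] using this
    · have := Lay.up c hR (c.lay hR hw' z' (by omega)) hz' i' hi'
      rw [← e] at this
      exact absurd this (c.F_no_down hw hi _)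
  | succ z ih =>
    rintro (_ | z') hz hz' e
    · have := Lay.up c hR (c.lay hR hw z (by omega)) hz i hi
      rw [e] at this
      exact absurd this (c.F_no_down hw' hi' _)
    · have h1 := Lay.up c hR (c.lay hR hw z (by omega)) hz i hi
      have h2 := Lay.up c hR (c.lay hR hw' z' (by omega)) hz' i' hi'
      rw [e] at h1
      obtain ⟨a1, a2, a3⟩ := ih z' (by omega) (by omega) (c.U2 h1 h2)
      exact ⟨a1, a2, by rw [a3]⟩

/-- the isomorphism -/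
noncomputable def f (v : VG a) : W :=
  if v.1.1 = 2 then c.F v.1.2.1 v.1.2.2.1 v.1.2.2.2 else c.hh v

lemma f_vC {w i z : ℕ} (h : w < YY a ∧ i < tw a 3 ∧ z ≤ tw a 2) : c.f (vC w i z h) = c.F w i z := rfl

lemma f_Lam (hR : ¬ HasModel R) {v : VG a} (hv : Lam R v) : c.f v = c.hh v := by
  rcases vg_cases v with ⟨i', h', rfl⟩ | ⟨j', b', h', rfl⟩ | ⟨w, i, z, h, rfl⟩
  · rfl
  · rfl
  · rw [f_vC]
    rcases hv rfl with h0 | h0
    · obtain rfl : z = 0 := h0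
      exact c.F_zero h.1 h.2.1
    · exact (c.lay hR h.1 z h.2.2 i h.2.1).2.2 h0

lemma dH_f (hR : ¬ HasModel R) (v : VG a) : c.dH (c.f v) = dG v := by
  rcases vg_cases v with ⟨i', h', rfl⟩ | ⟨j', b', h', rfl⟩ | ⟨w, i, z, h, rfl⟩
  · exact c.dH_hh _
  · exact c.dH_hh _
  · exact (c.lay hR h.1 z h.2.2 i h.2.1).1

lemma f_inj (hR : ¬ HasModel R) : Function.Injective c.f := by
  intro u v e
  have hd : dG u = dG v := by rw [← c.dH_f hR, e, c.dH_f hR]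
  by_cases h : dG u = none
  · have hv : Lam R v := Lam_of_dG (hd ▸ h)
    rw [c.f_Lam hR (Lam_of_dG h), c.f_Lam hR hv] at e
    exact (c.pin_eq hv (c.hh_spec u) (by omega) List.mem_cons_self).2 e
  · obtain ⟨w, i, z, h1, rfl⟩ := cell_of_dG h
    obtain ⟨w', i', z', h2, rfl⟩ := cell_of_dG (v := v) (hd ▸ h)
    obtain ⟨rfl, rfl, rfl⟩ := c.F_inj hR h1.1 h1.2.1 h2.1 h2.2.1 z z' h1.2.2 h2.2.2 e
    rfl

lemma f_gg (hR : ¬ HasModel R) {y : W} (h : Lam R (c.gg y)) : c.f (c.gg y) = y := by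
  rw [c.f_Lam hR h]
  exact ((c.pin_eq h (c.gg_spec y) (by omega) List.mem_cons_self).1 rfl).symm

lemma hor_f (hR : ¬ HasModel R) {u : VG a} {y : W} :
    hor H c.dH (c.f u) y ↔ ∃ v, hor (GG R a) dG u v ∧ c.f v = y := by
  by_cases h : dG u = none
  · refine iff_of_false ?_ ?_
    · rintro ⟨-, q, k, k', h1, -⟩
      rw [c.dH_f hR, h] at h1
      simp at h1
    · rintro ⟨v, ⟨-, q, k, k', h1, -⟩, -⟩
      rw [h] at h1
      simp at h1
  · obtain ⟨w, i, z, h1, rfl⟩ := cell_of_dG h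
    rw [f_vC, (c.lay hR h1.1 z h1.2.2 i h1.2.1).2.1]
    constructor
    · rintro ⟨i', h2, rfl⟩
      exact ⟨_, hor_vC.2 ⟨i', h2, rfl⟩, rfl⟩
    · rintro ⟨v, h2, rfl⟩
      obtain ⟨i', h3, rfl⟩ := hor_vC.1 h2
      exact ⟨i', h3, rfl⟩

lemma upw_f (hR : ¬ HasModel R) {u : VG a} {y : W} :
    upw H c.dH (c.f u) y ↔ ∃ v, upw (GG R a) dG u v ∧ c.f v = y := by
  by_cases h : dG u = none
  · refine iff_of_false ?_ ?_
    · rintro ⟨-, q, k, h1, -⟩
      rw [c.dH_f hR, h] at h1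
      simp at h1
    · rintro ⟨v, ⟨-, q, k, h1, -⟩, -⟩
      rw [h] at h1
      simp at h1
  · obtain ⟨w, i, z, h1, rfl⟩ := cell_of_dG h
    rw [f_vC]
    constructor
    · intro e
      rcases h1.2.2.eq_or_lt with rfl | hz
      · exact absurd ⟨y, e⟩ (Lay.top c hR (c.lay hR h1.1 _ le_rfl) i h1.2.1)
      · exact ⟨_, upw_vC.2 ⟨hz, rfl⟩, c.U1 (Lay.up c hR (c.lay hR h1.1 z hz.le) hz i h1.2.1) e⟩
    · rintro ⟨v, h2, rfl⟩
      obtain ⟨hz, rfl⟩ := upw_vC.1 h2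
      exact Lay.up c hR (c.lay hR h1.1 z hz.le) hz i h1.2.1

lemma f_surj [Finite W] (hR : ¬ HasModel R) : Function.Surjective c.f := by
  intro y
  by_contra h0
  refine closed_good_empty hR (A := hor H c.dH) (fun _ _ => hor_symm) (fun x h => h.1.ne rfl)
    (cOf c.dH) {y | ¬ ∃ v, c.f v = y} (Set.toFinite _) ?_ ?_ y h0
  · rintro x hx y hy ⟨v, rfl⟩
    obtain ⟨u, -, hu⟩ := (c.hor_f hR).1 (hor_symm hy)
    exact hx ⟨u, hu⟩
  · intro x hx
    exact c.U6 fun h => hx ⟨_, c.f_gg hR h⟩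

lemma f_adj_none (hR : ¬ HasModel R) {u v : VG a} (hv : dG v = none) :
    H.Adj (c.f u) (c.f v) ↔ (GG R a).Adj u v := by
  have lv : Lam R v := Lam_of_dG hv
  rw [c.f_Lam hR lv]
  by_cases lu : Lam R u
  · rw [c.f_Lam hR lu]
    exact (c.pin_adj lv (c.hh_spec u) (by omega) List.mem_cons_self).symm
  · have lx : ¬ Lam R (c.gg (c.f u)) := fun h => lu (c.f_inj hR (c.f_gg hR h) ▸ h)
    rw [← c.pin_adj lv (c.gg_spec (c.f u)) (by omega) List.mem_cons_self]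
    exact G_U9 lx lu (c.dH_f hR u) hv

lemma f_adj (hR : ¬ HasModel R) {u v : VG a} : H.Adj (c.f u) (c.f v) ↔ (GG R a).Adj u v := by
  by_cases hv : dG v = none
  · exact c.f_adj_none hR hv
  by_cases hu : dG u = none
  · rw [H.adj_comm, (GG R a).adj_comm]
    exact c.f_adj_none hR hu
  constructor
  · intro e
    rcases c.U0 (by rwa [c.dH_f hR]) (by rwa [c.dH_f hR]) e with h | h | h
    · obtain ⟨v', h1, h2⟩ := (c.hor_f hR).1 h
      rw [← c.f_inj hR h2]; exact h1.1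
    · obtain ⟨v', h1, h2⟩ := (c.upw_f hR).1 h
      rw [← c.f_inj hR h2]; exact h1.1
    · obtain ⟨v', h1, h2⟩ := (c.upw_f hR).1 h
      rw [← c.f_inj hR h2]; exact h1.1.symm
  · intro e
    rcases G_U0 hu hv e with h | h | h
    · exact ((c.hor_f hR).2 ⟨v, h, rfl⟩).1
    · exact ((c.upw_f hR).2 ⟨v, h, rfl⟩).1
    · exact ((c.upw_f hR).2 ⟨u, h, rfl⟩).1.symm

end Ctx

theorem rigid (ha : 40 ≤ a) (hR : ¬ HasModel R) {W : Type} [Finite W] (H : SimpleGraph W)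
    (hE : E (GG R a) H (2 * a + 31) []) : Nonempty (GG R a ≃g H) := by
  choose hh h1 using hE.2.1
  choose gg h2 using hE.2.2
  let c : Ctx R a H := ⟨ha, hh, gg, h1, h2⟩
  exact ⟨⟨Equiv.ofBijective c.f ⟨c.f_inj hR, c.f_surj hR⟩, c.f_adj hR⟩⟩

end Pool.Agent.H431Z.LD
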