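import Mathlib
import Pool.Agent.H431Z.LD.Pin

set_option autoImplicit false
set_option linter.unusedVariables false

namespace Pool.Agent.H431Z.LD

lemma exists_digits (β : ℕ) (hβ : 0 < β) : ∀ (s : ℕ) (g : ℕ → ℕ), (∀ i, g i < β) →
    ∃ w < β ^ s, ∀ q, ∀ i < s, (w + β ^ s * q) / β ^ i % β = g i := by
  intro s
  induction s with
  | zero => intro g _; exact ⟨0, by simp, fun q i hi => absurd hi (Nat.not_lt_zero _)⟩
  | succ s ih =>
    intro g hg
    obtain ⟨w, hw, h⟩ := ih (fun i => g (i + 1)) fun i => hg _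
    have h0 := hg 0
    refine ⟨g 0 + β * w, ?_, fun q i hi => ?_⟩
    · calc g 0 + β * w < β + β * w := by omega
        _ = β * (w + 1) := by ring
        _ ≤ β * β ^ s := Nat.mul_le_mul_left _ hw
        _ = β ^ (s + 1) := by ring
    · have e : g 0 + β * w + β ^ (s + 1) * q = g 0 + β * (w + β ^ s * q) := by ring
      rw [e]
      rcases i with _ | i
      · simp [Nat.mod_eq_of_lt h0]
      · rw [pow_succ', ← Nat.div_div_eq_div_mul, Nat.add_mul_div_left _ _ hβ, Nat.div_eq_of_lt h0,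
          zero_add]
        exact h q i (by omega)

lemma exists_window {a : ℕ} (ha : 40 ≤ a) {C : Type} (Γ : SimpleGraph C) (col : C → ℕ)
    (hcol : ∀ x, col x < a) (S : ℕ → C → Prop) (h1 : ∀ j x, S j x → j < tw a 3)
    (h2 : ∀ j x y, S j x → S j y → x = y) :
    ∃ w < bb a ^ tw a 3, ∀ q, (∀ j x, S j x → wcol a (w + bb a ^ tw a 3 * q) j = col x) ∧
      ∀ i j, wadj a (w + bb a ^ tw a 3 * q) i j ↔ ∃ x y, S i x ∧ S j y ∧ Γ.Adj x y := by
  classical
  let cj : ℕ → ℕ := fun j => if h : ∃ x, S j x then col h.choose else 0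
  let mask : ℕ → ℕ := fun j =>
    Nat.ofBits fun i : Fin (tw a 3) => decide (∃ x y, S j x ∧ S i y ∧ Γ.Adj x y)
  have c1 : ∀ j, cj j < a := by
    intro j
    simp only [cj]
    split_ifs
    · exact hcol _
    · omega
  have c2 : ∀ j x, S j x → cj j = col x := by
    intro j x hx
    have : ∃ x, S j x := ⟨x, hx⟩
    simp only [cj, dif_pos this]
    rw [h2 j _ _ this.choose_spec hx]
  have m1 : ∀ j, mask j < 2 ^ tw a 3 := fun j => Nat.ofBits_lt_two_pow _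
  obtain ⟨w, hw, h⟩ := exists_digits (bb a) (bb_pos ha) (tw a 3) (fun j => cj j + a * mask j) (by
    intro j
    calc cj j + a * mask j < a + a * mask j := by have := c1 j; omega
      _ = a * (mask j + 1) := by ring
      _ ≤ a * 2 ^ tw a 3 := Nat.mul_le_mul_left _ (m1 j)
      _ = bb a := by unfold bb; ring)
  refine ⟨w, hw, fun q => ⟨fun j x hx => ?_, fun i j => ?_⟩⟩
  · unfold wcol dig
    rw [h q j (h1 j x hx), Nat.add_mul_mod_self_left, Nat.mod_eq_of_lt (c1 j), c2 j x hx]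
  · have key : ∀ i < tw a 3, ∀ j < tw a 3, (dig a (w + bb a ^ tw a 3 * q) i / a).testBit j = true ↔
        ∃ x y, S i x ∧ S j y ∧ Γ.Adj x y := by
      intro i hi j hj
      unfold dig
      rw [h q i hi, Nat.add_mul_div_left _ _ (by omega), Nat.div_eq_of_lt (c1 i), zero_add]
      simp only [mask]
      rw [Nat.testBit_ofBits_lt _ _ hj, decide_eq_true_eq]
    constructor
    · rintro ⟨a1, a2, -, a3, -⟩
      exact (key i a1 j a2).1 a3
    · rintro ⟨x, y, a1, a2, a3⟩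
      refine ⟨h1 _ _ a1, h1 _ _ a2, ?_, (key i (h1 _ _ a1) j (h1 _ _ a2)).2 ⟨x, y, a1, a2, a3⟩,
        (key j (h1 _ _ a2) i (h1 _ _ a1)).2 ⟨y, x, a2, a1, a3.symm⟩⟩
      rintro rfl
      exact a3.ne (h2 _ _ _ a1 a2)

lemma exists_avoid (w B : ℕ) (hB : 0 < B) (l : List ℕ) : ∃ q ≤ l.length, w + B * q ∉ l := by
  classical
  by_contra h
  push Not at h
  have h1 : (Finset.range (l.length + 1)).image (fun q => w + B * q) ⊆ l.toFinset := by
    intro x hx
    obtain ⟨q, hq, rfl⟩ := Finset.mem_image.1 hx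
    exact List.mem_toFinset.2 (h q (by have := Finset.mem_range.1 hq; omega))
  have h2 := (Finset.card_le_card h1).trans (List.toFinset_card_le l)
  rw [Finset.card_image_of_injective _ (fun x y e => Nat.eq_of_mul_eq_mul_left hB (by
    simpa using e))] at h2
  simp at h2

/-- successor on a cycle -/
def cyc (Q x y : ℕ) : Prop := y = x + 1 ∨ (y = 0 ∧ x + 1 = Q)

section

variable (R : Rules ℕ) (a : ℕ) {C : Type} (Γ : SimpleGraph C) (col : C → ℕ) (ρ : ℕ)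

/-- adjacency of the extension -/
def hAdj : VG a ⊕ C × Fin (3 * ρ + 3) → VG a ⊕ C × Fin (3 * ρ + 3) → Prop
  | .inl u, .inl v => (GG R a).Adj u v
  | .inl u, .inr p => u.1.1 = 0 ∧ (u.1.2.1 = 2 * (p.2.val % 3) + 2 ∨ u.1.2.1 = 20 + 2 * col p.1)
  | .inr p, .inl u => u.1.1 = 0 ∧ (u.1.2.1 = 2 * (p.2.val % 3) + 2 ∨ u.1.2.1 = 20 + 2 * col p.1)
  | .inr p, .inr q => (p.2.val = q.2.val ∧ Γ.Adj p.1 q.1) ∨
      (p.1 = q.1 ∧ (cyc (3 * ρ + 3) p.2 q.2 ∨ cyc (3 * ρ + 3) q.2 p.2))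

/-- the extension -/
def HH : SimpleGraph (VG a ⊕ C × Fin (3 * ρ + 3)) where
  Adj := hAdj R a Γ col ρ
  symm := ⟨by
    rintro (u | p) (v | q) h
    · exact (GG R a).adj_symm h
    · exact h
    · exact h
    · rcases h with h | h
      · exact Or.inl ⟨h.1.symm, h.2.symm⟩
      · exact Or.inr ⟨h.1.symm, h.2.symm⟩⟩
  loopless := ⟨by
    rintro (u | p) h
    · exact (GG R a).irrefl h
    · rcases h with h | h
      · exact h.2.ne rfl
      · have := h.2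
        simp only [cyc] at this
        omega⟩

/-- cells of the extension -/
def hCell : VG a ⊕ C × Fin (3 * ρ + 3) → Prop
  | .inl u => u.1.1 = 2
  | .inr _ => True

variable {R a Γ col ρ}

lemma cell_step {u : VG a} {b : VG a ⊕ C × Fin (3 * ρ + 3)}
    (h : cellAdj (HH R a Γ col ρ) (hCell a ρ) (.inl u) b) : ∃ w i z h i' z' h', u = vC w i z h ∧
      b = .inl (vC w i' z' h') ∧ ((z' = z ∧ wadj a w i i') ∨ (i' = i ∧ (z' = z + 1 ∨ z = z' + 1))) := by
  obtain ⟨h1, h2, h3⟩ := h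
  rcases b with v | p
  · obtain ⟨w, i, z, h4, rfl⟩ := cell_of_dG (v := u) (by simp [dG, show u.1.1 = 2 from h1])
    obtain ⟨w', i', z', h5, rfl⟩ := cell_of_dG (v := v) (by simp [dG, show v.1.1 = 2 from h2])
    obtain ⟨rfl, h6⟩ := (aj_CC ..).1 h3
    exact ⟨_, _, _, _, _, _, _, rfl, rfl, h6⟩
  · have e1 : u.1.1 = 2 := h1
    have e2 : u.1.1 = 0 := h3.1
    omega

lemma fresh_patch (ha : 40 ≤ a) (hg : ∀ x, Good R Γ.Adj col x) (hρ : 9 * ρ + 9 ≤ tw a 2)
    (c0 : C) (ζ0 : Fin (3 * ρ + 3)) (S : ℕ → C → Prop) (h1 : ∀ j x, S j x → j < tw a 3)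
    (h2 : ∀ j x y, S j x → S j y → x = y) (h3 : ∀ i j x, S i x → S j x → i = j)
    (h4 : ∀ x, Near Γ.Adj (ρ + 2) c0 x → ∃ j, S j x) {w : ℕ} (hw : w < YY a)
    (h5 : ∀ j x, S j x → wcol a w j = col x)
    (h6 : ∀ i j, wadj a w i j ↔ ∃ x y, S i x ∧ S j y ∧ Γ.Adj x y) :
    ∃ j z h, Patch (cellAdj (HH R a Γ col ρ) (hCell a ρ)) (cellLab (HH R a Γ col ρ) (hCell a ρ)) ρ
      (.inl (vC w j z h)) (.inr (c0, ζ0)) := by
  have h7 : ∀ i j x y, S i x → S j y → (wadj a w i j ↔ Γ.Adj x y) := by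
    intro i j x y hx hy
    rw [h6]
    constructor
    · rintro ⟨x', y', a1, a2, a3⟩
      rwa [h2 _ _ _ hx a1, h2 _ _ _ hy a2]
    · intro h; exact ⟨x, y, hx, hy, h⟩
  have h8 : ∀ j x, S j x → Near Γ.Adj ρ c0 x → Good R (wadj a w) (wcol a w) j := by
    intro j x hx hn
    refine (hg x).transfer (fun x j => S j x) (fun u v h => (h5 _ _ h).symm)
      (fun u v u' v' e e' => ⟨(h7 _ _ _ _ e e').symm, by rintro rfl; exact h3 _ _ _ e e'⟩) hx ?_ ?_ ?_
    · intro y' hy'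
      obtain ⟨_, y, -, a2, -⟩ := (h6 _ _).1 hy'
      exact ⟨y, a2⟩
    · intro y hy
      exact h4 y (hn.step hy).succ
    · intro y z hy hz
      exact h4 z ((hn.step hy).step hz)
  obtain ⟨j0, hj0⟩ := h4 c0 (Near.refl _ _)
  have hζ := ζ0.2
  refine ⟨j0, ζ0 + (3 * ρ + 3), ⟨hw, h1 _ _ hj0, by omega⟩, fun i u v => i ≤ ρ ∧
    ∃ j z h x, ∃ ζ : Fin (3 * ρ + 3), u = .inl (vC w j z h) ∧ v = .inr (x, ζ) ∧ S j x ∧
      Near Γ.Adj (ρ - i) c0 x ∧ ζ0 + (3 * ρ + 3) ≤ z + (ρ - i) ∧ z ≤ ζ0 + (3 * ρ + 3) + (ρ - i) ∧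
      (z = ζ ∨ z = ζ + (3 * ρ + 3) ∨ z = ζ + 2 * (3 * ρ + 3)), ⟨?_, ?_, ?_, ?_, ?_⟩, le_rfl,
      j0, _, _, c0, ζ0, rfl, rfl, hj0, Near.refl _ _, by omega, by omega, by omega⟩
  · rintro i u v ⟨hi, j, z, h, x, ζ, a1, a2, a3, a4, a5, a6, a7⟩
    exact ⟨by omega, j, z, h, x, ζ, a1, a2, a3, a4.mono (by omega), by omega, by omega, a7⟩
  · rintro u v u' v' ⟨-, j, z, h, x, ζ, rfl, rfl, a3, a4, a5, a6, a7⟩
      ⟨-, j', z', h', x', ζ', rfl, rfl, b3, b4, b5, b6, b7⟩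
    have e1 := ζ.2
    have e2 := ζ'.2
    have e3 : j = j' ↔ x = x' :=
      ⟨by rintro rfl; exact h2 _ _ _ a3 b3, by rintro rfl; exact h3 _ _ _ a3 b3⟩
    have e4 : z = z' ↔ ζ.val = ζ'.val := by omega
    refine ⟨?_, ?_⟩
    · simp only [Sum.inl.injEq, Sum.inr.injEq, Subtype.ext_iff, vC_val, Prod.mk.injEq, true_and,
        Fin.ext_iff, e3, e4]
    · change (_ ∧ _ ∧ aj R a (2, w, j, z) (2, w, j', z')) ↔ (_ ∧ _ ∧ ((ζ.val = ζ'.val ∧ Γ.Adj x x') ∨
        (x = x' ∧ (cyc (3 * ρ + 3) ζ ζ' ∨ cyc (3 * ρ + 3) ζ' ζ))))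
      rw [aj_CC, h7 _ _ _ _ a3 b3, eq_comm (a := z'), eq_comm (a := j'), e3, e4]
      have e5 : (z' = z + 1 ∨ z = z' + 1) ↔ (cyc (3 * ρ + 3) ζ ζ' ∨ cyc (3 * ρ + 3) ζ' ζ) := by
        simp only [cyc]; omega
      rw [e5]
      simp [hCell]
  · rintro u v ⟨-, j, z, h, x, ζ, rfl, rfl, a3, a4, a5, a6, a7⟩
    funext t
    have l1 : ¬ lbl R a w j z := by
      rintro (l | l)
      · omega
      · exact l (h8 j x a3 a4)
    refine Prod.ext ?_ ?_
    · simp [cellLab, hCell]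
    · simp only [cellLab, eq_iff_iff]
      refine and_congr_right fun ht => ?_
      rcases t with t | t
      · rcases vg_cases t with ⟨p, h', rfl⟩ | ⟨j', b', h', rfl⟩ | ⟨_, _, _, _, rfl⟩
        · change aj R a (2, w, j, z) (0, p, 0, 0) ↔ (0 = 0 ∧ (p = 2 * (ζ.val % 3) + 2 ∨ p = 20 + 2 * col x))
          rw [aj_CP, h5 _ _ a3]
          omega
        · change aj R a (2, w, j, z) (1, j', b', 0) ↔ (1 = 0 ∧ _)
          rw [aj_CL]
          simp [l1]
        · exact absurd rfl ht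
      · exact absurd trivial ht
  · rintro i u v u' ⟨hi, j, z, h, x, ζ, rfl, rfl, a3, a4, a5, a6, a7⟩ hu
    obtain ⟨w', i', z', k, i'', z'', k', e, rfl, e'⟩ := cell_step hu
    simp only [Subtype.ext_iff, vC_val, Prod.mk.injEq, true_and] at e
    obtain ⟨rfl, rfl, rfl⟩ := e
    rcases e' with ⟨rfl, e'⟩ | ⟨rfl, e'⟩
    · obtain ⟨x', y, b1, b2, b3⟩ := (h6 _ _).1 e'
      obtain rfl := h2 _ _ _ a3 b1
      exact ⟨_, by omega, i'', z'', k', y, ζ, rfl, rfl, b2, (a4.step b3).mono (by omega),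
        by omega, by omega, a7⟩
    · obtain ⟨ζ', hζ'⟩ : ∃ ζ' : Fin (3 * ρ + 3),
          z'' = ζ' ∨ z'' = ζ' + (3 * ρ + 3) ∨ z'' = ζ' + 2 * (3 * ρ + 3) := by
        by_cases k1 : z'' < 3 * ρ + 3
        · exact ⟨⟨z'', k1⟩, Or.inl rfl⟩
        · by_cases k2 : z'' < 2 * (3 * ρ + 3)
          · exact ⟨⟨z'' - (3 * ρ + 3), by omega⟩, by simp only; omega⟩
          · exact ⟨⟨z'' - 2 * (3 * ρ + 3), by omega⟩, by simp only; omega⟩
      exact ⟨_, by omega, i'', z'', k', x, ζ', rfl, rfl, a3, a4.mono (by omega),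
        by omega, by omega, hζ'⟩
  · rintro i u v v' ⟨hi, j, z, h, x, ζ, rfl, rfl, a3, a4, a5, a6, a7⟩ ⟨k1, k2, k3⟩
    rcases v' with t | ⟨x', ζ'⟩
    · have e1 : t.1.1 = 2 := k2
      have e2 : t.1.1 = 0 := k3.1
      omega
    · have e1 := ζ.2
      have e2 := ζ'.2
      rcases k3 with ⟨k3, k4⟩ | ⟨k3, k4 | k4⟩
      · have k5 := a4.step k4
        obtain ⟨j', hj'⟩ := h4 x' (k5.mono (by omega))
        simp only at k3
        exact ⟨_, by omega, j', z, ⟨hw, h1 _ _ hj', h.2.2⟩, x', ζ', rfl, rfl, hj', k5.mono (by omega),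
          by omega, by omega, by omega⟩
      · obtain rfl : x = x' := k3
        simp only [cyc] at k4
        exact ⟨_, by omega, j, z + 1, ⟨hw, h.2.1, by omega⟩, x, ζ', rfl, rfl, a3, a4.mono (by omega),
          by omega, by omega, by omega⟩
      · obtain rfl : x = x' := k3
        simp only [cyc] at k4
        exact ⟨_, by omega, j, z - 1, ⟨hw, h.2.1, by omega⟩, x, ζ', rfl, rfl, a3, a4.mono (by omega),
          by omega, by omega, by omega⟩

end

lemma rho_le {a : ℕ} (ha : 40 ≤ a) : 16 * 4 ^ (2 * a + 31) ≤ tw a 2 := by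
  have h := cube_le a (by omega)
  calc 16 * 4 ^ (2 * a + 31) = 2 ^ (4 * a + 66) := by
        rw [show (4 : ℕ) = 2 ^ 2 from rfl, ← pow_mul, show (16 : ℕ) = 2 ^ 4 from rfl, ← pow_add]
        congr 1; ring
    _ ≤ 2 ^ (2 ^ a) := Nat.pow_le_pow_right (by norm_num) (le_trans (by nlinarith) h)

theorem not_rigid {R : Rules ℕ} {a : ℕ} (ha : 40 ≤ a) (hr : R.r ≤ 7) (hun : ∀ c, R.un c → c < a)
    (hM : HasModel R) : ∃ (W : Type) (_ : Finite W) (H : SimpleGraph W),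
      E (GG R a) H (2 * a + 31) [] ∧ ¬ Nonempty (GG R a ≃g H) := by
  classical
  obtain ⟨C, hC1, hC2, Γ, col, hg⟩ := hM
  have hfin := vg_finite ha
  have hρ := rho_le ha
  set k := 2 * a + 31 with hk
  have hρ2 : 2 ≤ 4 ^ k := le_trans (by norm_num) (Nat.le_self_pow (by omega) 4)
  refine ⟨_, inferInstance, HH R a Γ col (4 ^ k), ?_, ?_⟩
  · refine hanf (GG R a) _ ⟨⟨Sum.inl, Sum.inl_injective⟩, Iff.rfl⟩ (hCell a (4 ^ k)) ?_ k ?_
    · rintro x y h1 h2 h3 ⟨u, rfl⟩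
      obtain ⟨_, _, _, _, _, _, _, -, rfl, -⟩ := cell_step (R := R) (u := u) ⟨h1, h2, h3⟩
      exact ⟨_, rfl⟩
    · rintro (c | ⟨c0, ζ0⟩) hc u hu
      · exact absurd ⟨c, rfl⟩ hc
      obtain ⟨s, hs1, hs2⟩ := ball_bound hg c0 (4 ^ k + 2)
      have hs3 : s.card ≤ tw a 3 := by
        calc s.card ≤ 8 ^ (4 ^ k + 2) := hs1.trans (Nat.pow_le_pow_left (by omega) _)
          _ = 2 ^ (3 * (4 ^ k + 2)) := by rw [pow_mul, show (2 : ℕ) ^ 3 = 8 from rfl]
          _ ≤ 2 ^ tw a 2 := Nat.pow_le_pow_right (by norm_num) (by omega)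
      have h1 : ∀ j x, s.toList[j]? = some x → j < tw a 3 := by
        intro j x h
        have := (List.getElem?_eq_some_iff.1 h).1
        rw [Finset.length_toList] at this
        omega
      have h2 : ∀ (j : ℕ) x y, s.toList[j]? = some x → s.toList[j]? = some y → x = y :=
        fun j x y e e' => Option.some.inj (e.symm.trans e')
      obtain ⟨w0, hw0, hw⟩ := exists_window ha Γ col (fun x => hun _ (hg x).1)
        (fun j x => s.toList[j]? = some x) h1 h2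
      have hB : 0 < bb a ^ tw a 3 := pow_pos (bb_pos ha) _
      obtain ⟨q, hq1, hq2⟩ := exists_avoid w0 _ hB (u.map (Sum.elim (fun v => v.1.2.1) fun _ => 0))
      rw [List.length_map] at hq1
      have hq3 : q < bb a := by
        have e0 : tw a 2 < tw a 3 := tw_lt _ _
        have e1 : tw a 3 < 2 ^ tw a 3 := Nat.lt_two_pow_self
        have e2 : k < 4 ^ k := Nat.lt_pow_self (by norm_num)
        have e3 : 2 ^ tw a 3 ≤ bb a := Nat.le_mul_of_pos_right _ (by omega)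
        omega
      have hw1 : w0 + bb a ^ tw a 3 * q < YY a := by
        calc w0 + bb a ^ tw a 3 * q < bb a ^ tw a 3 + bb a ^ tw a 3 * q := by omega
          _ = bb a ^ tw a 3 * (q + 1) := by ring
          _ ≤ bb a ^ tw a 3 * bb a := Nat.mul_le_mul_left _ hq3
          _ = YY a := by unfold YY; rw [pow_succ]
      obtain ⟨j, z, h, hp⟩ := fresh_patch ha hg (ρ := 4 ^ k) (by omega) c0 ζ0
        (fun j x => s.toList[j]? = some x) h1 h2
        (fun i j x e e' => (List.getElem?_inj (List.getElem?_eq_some_iff.1 e).1 s.nodup_toList).1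
          (e.trans e'.symm))
        (fun x hx => List.mem_iff_getElem?.1 (Finset.mem_toList.2 (hs2 x hx))) hw1 (hw q).1 (hw q).2
      refine ⟨_, ⟨_, rfl⟩, hp, fun p hp n hn => hq2 (List.mem_map.2 ⟨p, hp, ?_⟩)⟩
      have := (hn.symm fun x y h => ⟨h.2.1, h.1, h.2.2.symm⟩).inv
        (fun v => ∃ v', v = Sum.inl v' ∧ v'.1.2.1 = w0 + bb a ^ tw a 3 * q) (by
          rintro x y e ⟨v, rfl, e'⟩
          obtain ⟨_, _, _, _, _, _, _, rfl, rfl, -⟩ := cell_step e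
          exact ⟨_, rfl, e'⟩) ⟨_, rfl, rfl⟩
      obtain ⟨v, rfl, e⟩ := this
      exact e
  · rintro ⟨e⟩
    have := Nat.card_congr e.toEquiv
    rw [Nat.card_sum] at this
    have h0 : 0 < Nat.card (C × Fin (3 * 4 ^ k + 3)) := Nat.card_pos
    omega

theorem depth_iff {R : Rules ℕ} {a : ℕ} (ha : 40 ≤ a) (hr : R.r ≤ 7) (hun : ∀ c, R.un c → c < a)
    {U : Type} [Finite U] {F : SimpleGraph U} (e : F ≃g GG R a) :
    logicalDepth F ≤ 2 * a + 31 ↔ ¬ HasModel R := by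
  have hfin := vg_finite ha
  rw [depth_le_iff_of_iso e]
  constructor
  · intro h hM
    obtain ⟨W, _, H, h1, h2⟩ := not_rigid ha hr hun hM
    exact h2 (h W H h1)
  · intro h W _ H hE
    exact rigid ha h H hE

end Pool.Agent.H431Z.LD
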