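import Mathlib
import Pool.Agent.H431Z.LD.Fresh

set_option autoImplicit false
set_option linter.unusedVariables false

namespace Pool.Agent.H431Z.LD

attribute [fun_prop] Primrec

section basic

variable {α β γ : Type} [Primcodable α] [Primcodable β] [Primcodable γ]

@[fun_prop] theorem p_id : Primrec (fun x : α => x) := Primrec.id
@[fun_prop] theorem p_const (b : β) : Primrec (fun _ : α => b) := Primrec.const b
@[fun_prop] theorem p_comp {f : β → γ} {g : α → β} (hf : Primrec f) (hg : Primrec g) :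
    Primrec (fun x => f (g x)) := hf.comp hg
@[fun_prop] theorem p_fst {f : α → β × γ} (hf : Primrec f) :
    Primrec (fun x => (f x).1) := Primrec.fst.comp hf
@[fun_prop] theorem p_snd {f : α → β × γ} (hf : Primrec f) :
    Primrec (fun x => (f x).2) := Primrec.snd.comp hf
@[fun_prop] theorem p_pair {f : α → β} {g : α → γ} (hf : Primrec f) (hg : Primrec g) :
    Primrec (fun x => (f x, g x)) := hf.pair hg
@[fun_prop] theorem p_add {f g : α → ℕ} (hf : Primrec f) (hg : Primrec g) :
    Primrec (fun x => f x + g x) := Primrec.nat_add.comp hf hg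
@[fun_prop] theorem p_sub {f g : α → ℕ} (hf : Primrec f) (hg : Primrec g) :
    Primrec (fun x => f x - g x) := Primrec.nat_sub.comp hf hg
@[fun_prop] theorem p_mul {f g : α → ℕ} (hf : Primrec f) (hg : Primrec g) :
    Primrec (fun x => f x * g x) := Primrec.nat_mul.comp hf hg
@[fun_prop] theorem p_div {f g : α → ℕ} (hf : Primrec f) (hg : Primrec g) :
    Primrec (fun x => f x / g x) := Primrec.nat_div.comp hf hg
@[fun_prop] theorem p_mod {f g : α → ℕ} (hf : Primrec f) (hg : Primrec g) :
    Primrec (fun x => f x % g x) := Primrec.nat_mod.comp hf hg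
@[fun_prop] theorem p_min {f g : α → ℕ} (hf : Primrec f) (hg : Primrec g) :
    Primrec (fun x => min (f x) (g x)) := Primrec.nat_min.comp hf hg
@[fun_prop] theorem p_pow {f g : α → ℕ} (hf : Primrec f) (hg : Primrec g) :
    Primrec (fun x => f x ^ g x) := (Primrec₂.unpaired'.1 Nat.Primrec.pow).comp hf hg
@[fun_prop] theorem p_natpair {f g : α → ℕ} (hf : Primrec f) (hg : Primrec g) :
    Primrec (fun x => Nat.pair (f x) (g x)) := Primrec₂.natPair.comp hf hg
@[fun_prop] theorem p_unpair {f : α → ℕ} (hf : Primrec f) :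
    Primrec (fun x => (f x).unpair) := Primrec.unpair.comp hf

lemma tw_eq (a j : ℕ) : tw a j = (fun x => 2 ^ x)^[j] a := by
  induction j with
  | zero => rfl
  | succ j ih => rw [Function.iterate_succ_apply', ← ih]; rfl

@[fun_prop] theorem p_tw {f g : α → ℕ} (hf : Primrec f) (hg : Primrec g) :
    Primrec (fun x => tw (f x) (g x)) := by
  have h : Primrec₂ fun (_ : α) (x : ℕ) => 2 ^ x := by unfold Primrec₂; fun_prop
  exact (Primrec.nat_iterate hg hf h).of_eq fun x => (tw_eq _ _).symm
@[fun_prop] theorem p_bb {f : α → ℕ} (hf : Primrec f) : Primrec (fun x => bb (f x)) := by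
  unfold bb; fun_prop
@[fun_prop] theorem p_YY {f : α → ℕ} (hf : Primrec f) : Primrec (fun x => YY (f x)) := by
  unfold YY; fun_prop
@[fun_prop] theorem p_dig {f g h : α → ℕ} (hf : Primrec f) (hg : Primrec g) (hh : Primrec h) :
    Primrec (fun x => dig (f x) (g x) (h x)) := by
  unfold dig; fun_prop
@[fun_prop] theorem p_wcol {f g h : α → ℕ} (hf : Primrec f) (hg : Primrec g) (hh : Primrec h) :
    Primrec (fun x => wcol (f x) (g x) (h x)) := by
  unfold wcol; fun_prop

variable {p q : α → Prop}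

lemma pp_imp (hp : PrimrecPred p) (hq : PrimrecPred q) : PrimrecPred fun x => p x → q x :=
  (hp.not.or hq).of_eq fun x => by tauto
lemma pp_eq {f g : α → β} (hf : Primrec f) (hg : Primrec g) : PrimrecPred fun x => f x = g x :=
  Primrec.eq.comp hf hg
lemma pp_ne {f g : α → β} (hf : Primrec f) (hg : Primrec g) : PrimrecPred fun x => f x ≠ g x :=
  (pp_eq hf hg).not
lemma pp_le {f g : α → ℕ} (hf : Primrec f) (hg : Primrec g) : PrimrecPred fun x => f x ≤ g x :=
  Primrec.nat_le.comp hf hg
lemma pp_lt {f g : α → ℕ} (hf : Primrec f) (hg : Primrec g) : PrimrecPred fun x => f x < g x :=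
  Primrec.nat_lt.comp hf hg
lemma pp_bit {f g : α → ℕ} (hf : Primrec f) (hg : Primrec g) :
    PrimrecPred fun x => (f x).testBit (g x) = true :=
  (pp_eq (f := fun x => f x / 2 ^ g x % 2) (g := fun _ => 1) (by fun_prop) (by fun_prop)).of_eq
    fun x => by rw [Nat.testBit_eq_decide_div_mod_eq, decide_eq_true_eq]
lemma pp_all {f : α → ℕ} {r : α → ℕ → Prop} (hf : Primrec f)
    (hr : PrimrecPred fun x : α × ℕ => r x.1 x.2) : PrimrecPred fun x => ∀ y < f x, r x y := by
  have h : PrimrecRel fun (y : ℕ) (x : α) => r x y := PrimrecRel.swap (r := r) hr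
  exact (h.forall_mem_list.comp (Primrec.list_range.comp hf) Primrec.id).of_eq (by simp)
lemma pp_ex {f : α → ℕ} {r : α → ℕ → Prop} (hf : Primrec f)
    (hr : PrimrecPred fun x : α × ℕ => r x.1 x.2) : PrimrecPred fun x => ∃ y < f x, r x y := by
  have h : PrimrecRel fun (y : ℕ) (x : α) => r x y := PrimrecRel.swap (r := r) hr
  exact (h.exists_mem_list.comp (Primrec.list_range.comp hf) Primrec.id).of_eq (by simp)
lemma pp_dom [Finite β] (Φ : β → Prop) {f : α → β} (hf : Primrec f) :
    PrimrecPred fun x => Φ (f x) := by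
  classical
  exact PrimrecPred.comp (Primrec.dom_finite fun b => decide (Φ b)).primrecPred hf
lemma pp_dom2 [Finite β] (Φ : β → β → Prop) {f g : α → β} (hf : Primrec f) (hg : Primrec g) :
    PrimrecPred fun x => Φ (f x) (g x) :=
  pp_dom (fun b : β × β => Φ b.1 b.2) (hf.pair hg)

lemma pp_wadj {f g h k : α → ℕ} (hf : Primrec f) (hg : Primrec g) (hh : Primrec h) (hk : Primrec k) :
    PrimrecPred fun x => wadj (f x) (g x) (h x) (k x) := by
  unfold wadj
  exact (pp_lt hh (by fun_prop)).and ((pp_lt hk (by fun_prop)).and ((pp_ne hh hk).and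
    ((pp_bit (by fun_prop) hk).and (pp_bit (by fun_prop) hh))))

lemma pp_valid {f : α → ℕ} {v : α → Vx} (hf : Primrec f) (hv : Primrec v) :
    PrimrecPred fun x => valid (f x) (v x) := by
  unfold valid
  repeat' first
    | with_reducible refine PrimrecPred.or ?_ ?_
    | with_reducible refine PrimrecPred.and ?_ ?_
    | with_reducible refine pp_eq ?_ ?_
    | with_reducible refine pp_le ?_ ?_
    | with_reducible refine pp_lt ?_ ?_
  all_goals fun_prop

end basic

/-- primitive recursive families of rules -/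
structure PR {C : Type} [Primcodable C] (R : ℕ → Rules C) : Prop where
  r : ∀ N, (R N).r = 7
  un : PrimrecPred fun p : ℕ × C => (R p.1).un p.2
  rel : PrimrecPred fun p : ℕ × ℕ × C × C => (R p.1).rel p.2.1 p.2.2.1 p.2.2.2
  nd : PrimrecPred fun p : ℕ × C × ℕ => (R p.1).nd p.2.1 p.2.2
  sq : PrimrecPred fun p : ℕ × C × C × C => (R p.1).sq p.2.1 p.2.2.1 p.2.2.2
  fin : PrimrecPred fun p : ℕ × C × C × C × C => (R p.1).fin p.2.1 p.2.2.1 p.2.2.2.1 p.2.2.2.2

namespace PR

variable {α C C' : Type} [Primcodable α] [Primcodable C] [Primcodable C'] {R : ℕ → Rules C}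
  (h : PR R) {n d : α → ℕ} {a b c e : α → C}
include h

lemma un' (hn : Primrec n) (ha : Primrec a) : PrimrecPred fun x => (R (n x)).un (a x) :=
  h.un.comp (hn.pair ha)
lemma rel' (hn : Primrec n) (hd : Primrec d) (ha : Primrec a) (hb : Primrec b) :
    PrimrecPred fun x => (R (n x)).rel (d x) (a x) (b x) :=
  h.rel.comp (hn.pair (hd.pair (ha.pair hb)))
lemma nd' (hn : Primrec n) (ha : Primrec a) (hd : Primrec d) :
    PrimrecPred fun x => (R (n x)).nd (a x) (d x) :=
  h.nd.comp (hn.pair (ha.pair hd))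
lemma sq' (hn : Primrec n) (ha : Primrec a) (hb : Primrec b) (hc : Primrec c) :
    PrimrecPred fun x => (R (n x)).sq (a x) (b x) (c x) :=
  h.sq.comp (hn.pair (ha.pair (hb.pair hc)))
lemma fin' (hn : Primrec n) (ha : Primrec a) (hb : Primrec b) (hc : Primrec c) (he : Primrec e) :
    PrimrecPred fun x => (R (n x)).fin (a x) (b x) (c x) (e x) :=
  h.fin.comp (hn.pair (ha.pair (hb.pair (hc.pair he))))

lemma comap {f : C' → C} (hf : Primrec f) : PR fun N => (R N).comap f where
  r := h.r
  un := h.un' (by fun_prop) (by fun_prop)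
  rel := h.rel' (by fun_prop) (by fun_prop) (by fun_prop) (by fun_prop)
  nd := h.nd' (by fun_prop) (by fun_prop) (by fun_prop)
  sq := h.sq' (by fun_prop) (by fun_prop) (by fun_prop) (by fun_prop)
  fin := h.fin' (by fun_prop) (by fun_prop) (by fun_prop) (by fun_prop) (by fun_prop)

end PR

lemma good_bounded {R : Rules ℕ} (hr : R.r = 7) (a w i : ℕ) : Good R (wadj a w) (wcol a w) i ↔
    R.un (wcol a w i) ∧
    (∀ y < tw a 3, wadj a w i y → ∃ d < 7, R.rel d (wcol a w i) (wcol a w y)) ∧
    (∀ d < 7, R.nd (wcol a w i) d → ∃ y < tw a 3, wadj a w i y ∧ R.rel d (wcol a w i) (wcol a w y)) ∧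
    (∀ d < 7, ∀ y < tw a 3, ∀ y' < tw a 3, wadj a w i y → wadj a w i y' →
      R.rel d (wcol a w i) (wcol a w y) → R.rel d (wcol a w i) (wcol a w y') → y = y') ∧
    (∀ y < tw a 3, ∀ y' < tw a 3, wadj a w i y → wadj a w i y' →
      R.sq (wcol a w i) (wcol a w y) (wcol a w y') → ∃ z < tw a 3, wadj a w y z ∧ wadj a w y' z ∧
        R.fin (wcol a w i) (wcol a w y) (wcol a w y') (wcol a w z)) := by
  rw [Good, hr]
  refine and_congr_right fun _ => and_congr ?_ (and_congr ?_ (and_congr ?_ ?_))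
  · exact ⟨fun h y _ => h y, fun h y hy => h y hy.2.1 hy⟩
  · refine ⟨fun h d hd hn => ?_, fun h d hd hn => ?_⟩
    · obtain ⟨y, h1, h2⟩ := h d hd hn
      exact ⟨y, h1.2.1, h1, h2⟩
    · obtain ⟨y, -, h1⟩ := h d hd hn
      exact ⟨y, h1⟩
  · exact ⟨fun h d hd y _ y' _ => h d hd y y', fun h d hd y y' h1 h2 => h d hd y h1.2.1 y' h2.2.1 h1 h2⟩
  · refine ⟨fun h y _ y' _ h1 h2 h3 => ?_, fun h y y' h1 h2 h3 => ?_⟩
    · obtain ⟨z, h4, h5⟩ := h y y' h1 h2 h3
      exact ⟨z, h4.2.1, h4, h5⟩
    · obtain ⟨z, -, h4⟩ := h y h1.2.1 y' h2.2.1 h1 h2 h3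
      exact ⟨z, h4⟩

section

variable {α : Type} [Primcodable α] {R : ℕ → Rules ℕ} (h : PR R)
include h

lemma pp_good0 : PrimrecPred fun x : ℕ × ℕ × ℕ × ℕ =>
    Good (R x.1) (wadj x.2.1 x.2.2.1) (wcol x.2.1 x.2.2.1) x.2.2.2 := by
  refine PrimrecPred.of_eq ?_ fun x => (good_bounded (h.r _) _ _ _).symm
  repeat' first
    | with_reducible refine PrimrecPred.and ?_ ?_
    | with_reducible refine pp_all ?_ ?_
    | with_reducible refine pp_ex ?_ ?_
    | with_reducible refine pp_imp ?_ ?_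
    | with_reducible refine pp_eq ?_ ?_
    | with_reducible refine pp_wadj ?_ ?_ ?_ ?_
    | with_reducible refine h.un' ?_ ?_
    | with_reducible refine h.rel' ?_ ?_ ?_ ?_
    | with_reducible refine h.nd' ?_ ?_ ?_
    | with_reducible refine h.sq' ?_ ?_ ?_ ?_
    | with_reducible refine h.fin' ?_ ?_ ?_ ?_ ?_
  all_goals fun_prop

lemma pp_lbl {n a w i z : α → ℕ} (hn : Primrec n) (ha : Primrec a) (hw : Primrec w) (hi : Primrec i)
    (hz : Primrec z) : PrimrecPred fun x => lbl (R (n x)) (a x) (w x) (i x) (z x) :=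
  (pp_eq hz (Primrec.const 0)).or ((pp_good0 h).comp (hn.pair (ha.pair (hw.pair hi)))).not

lemma pp_arc {n a : α → ℕ} {u v : α → Vx} (hn : Primrec n) (ha : Primrec a) (hu : Primrec u)
    (hv : Primrec v) : PrimrecPred fun x => arcG (R (n x)) (a x) (u x) (v x) := by
  have e : ∀ u : Vx, Encodable.encode u = Nat.pair u.1 (Nat.pair u.2.1 (Nat.pair u.2.2.1 u.2.2.2)) :=
    fun u => rfl
  simp only [arcG, e]
  repeat' first
    | with_reducible refine PrimrecPred.or ?_ ?_
    | with_reducible refine PrimrecPred.and ?_ ?_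
    | with_reducible refine pp_bit ?_ ?_
    | with_reducible refine pp_eq ?_ ?_
    | with_reducible refine pp_le ?_ ?_
    | with_reducible refine pp_wadj ?_ ?_ ?_ ?_
    | with_reducible refine pp_lbl h ?_ ?_ ?_ ?_ ?_
  all_goals fun_prop

lemma pp_aj {n a : α → ℕ} {u v : α → Vx} (hn : Primrec n) (ha : Primrec a) (hu : Primrec u)
    (hv : Primrec v) : PrimrecPred fun x => aj (R (n x)) (a x) (u x) (v x) :=
  (pp_arc h hn ha hu hv).or (pp_arc h hn ha hv hu)

end

/-- decoding of raw vertices -/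
def unp (n : ℕ) : Vx :=
  (n.unpair.1, n.unpair.2.unpair.1, n.unpair.2.unpair.2.unpair.1, n.unpair.2.unpair.2.unpair.2)

lemma unp_encode (v : Vx) : unp (Encodable.encode v) = v := by
  change unp (Nat.pair v.1 (Nat.pair v.2.1 (Nat.pair v.2.2.1 v.2.2.2))) = v
  simp [unp]

lemma unp_inj : Function.Injective unp := by
  refine Function.LeftInverse.injective
    (g := fun v : Vx => Nat.pair v.1 (Nat.pair v.2.1 (Nat.pair v.2.2.1 v.2.2.2))) fun n => ?_
  simp [unp, Nat.pair_unpair]

open Classical in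
/-- the list of vertices -/
noncomputable def vs (a : ℕ) : List Vx :=
  ((List.range ((YY a + 1) ^ 8)).map unp).filter fun v => valid a v

lemma vs_nodup (a : ℕ) : (vs a).Nodup := (List.nodup_range.map unp_inj).filter _

lemma mem_vs {a : ℕ} (ha : 40 ≤ a) (v : Vx) : v ∈ vs a ↔ valid a v := by
  simp only [vs, List.mem_filter, List.mem_map, List.mem_range, decide_eq_true_eq]
  exact ⟨fun h => h.2, fun h => ⟨⟨_, encode_lt ha h, unp_encode v⟩, h⟩⟩

lemma p_vs : Primrec vs := by
  classical
  have h1 : PrimrecRel fun (v : Vx) (a : ℕ) => valid a v := pp_valid Primrec.snd Primrec.fst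
  have h2 : Primrec fun a => (List.range ((YY a + 1) ^ 8)).map unp := by
    refine Primrec.list_map (Primrec.list_range.comp (by fun_prop)) ?_
    unfold Primrec₂ unp
    fun_prop
  exact h1.listFilter.comp h2 Primrec.id

open Classical in
/-- the adjacency matrix -/
noncomputable def mat (R : Rules ℕ) (a : ℕ) : List (List Bool) :=
  (vs a).map fun u => (vs a).map fun v => decide (aj R a u v)

lemma p_mat {R : ℕ → Rules ℕ} (h : PR R) {A : ℕ → ℕ} (hA : Primrec A) :
    Primrec fun N => mat (R N) (A N) := by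
  classical
  refine Primrec.list_map (p_vs.comp hA) ?_
  refine Primrec.list_map (p_vs.comp (hA.comp Primrec.fst)) ?_
  exact (pp_aj h (α := (ℕ × Vx) × Vx) (by fun_prop) (by fun_prop) (by fun_prop) (by fun_prop)).decide

lemma exists_graph (R : Rules ℕ) {a : ℕ} (ha : 40 ≤ a) : ∃ (n : ℕ) (F : SimpleGraph (Fin n)),
    0 < n ∧ adjRows F = mat R a ∧ Nonempty (F ≃g GG R a) := by
  classical
  let e : Fin (vs a).length ≃ VG a :=
    ((vs_nodup a).getEquiv _).trans (Equiv.subtypeEquivRight (mem_vs ha))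
  refine ⟨_, (GG R a).comap e, ?_, ?_, ⟨SimpleGraph.Iso.comap e _⟩⟩
  · exact List.length_pos_of_mem ((mem_vs ha _).2 (vP (a := a) 0 (Nat.zero_le _)).2)
  · unfold adjRows mat
    refine List.ext_getElem (by simp) fun i h1 h2 => ?_
    rw [List.getElem_ofFn, List.getElem_map]
    refine List.ext_getElem (by simp) fun j h3 h4 => ?_
    rw [List.getElem_ofFn, List.getElem_map]
    rfl

theorem not_computable {R : ℕ → Rules ℕ} (h : PR R) {A : ℕ → ℕ} (hA : Primrec A)
    (h1 : ∀ N, 40 ≤ A N) (h2 : ∀ N c, (R N).un c → c < A N) {N : ℕ → ℕ} (hN : Computable N)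
    (hu : ¬ ComputablePred fun n => HasModel (R (N n))) :
    ¬ ∃ f : List (List Bool) →. ℕ, Partrec f ∧
      ∀ (n : ℕ) (G : SimpleGraph (Fin n)), 0 < n → logicalDepth G ∈ f (adjRows G) := by
  classical
  rintro ⟨f, hf, hD⟩
  apply hu
  choose m F a1 a2 a3 using fun n => exists_graph (R (N n)) (h1 (N n))
  have c1 : Computable fun n => logicalDepth (F n) :=
    (hf.comp ((p_mat h hA).to_comp.comp hN)).of_eq_tot fun n => by
      rw [← a2]; exact hD _ _ (a1 n)
  have c2 : Computable fun n => 2 * A (N n) + 31 :=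
    (show Primrec fun n => 2 * A n + 31 by fun_prop).to_comp.comp hN
  have c3 : Computable fun n => decide (2 * A (N n) + 31 < logicalDepth (F n)) :=
    Primrec.nat_lt.decide.to_comp.comp c2 c1
  refine c3.computablePred.of_eq fun n => ?_
  obtain ⟨e⟩ := a3 n
  rw [← not_le, depth_iff (h1 _) (h.r _).le (h2 _) e, not_not]

end Pool.Agent.H431Z.LD
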