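import Mathlib
import Pool.Agent.H431Z.LD.Comp
import Pool.Agent.H431Z.LD.Complete

set_option autoImplicit false
set_option linter.unusedVariables false

namespace Pool.Agent.H431Z.LD

open Pool.Agent.Helper948.Erode

section

variable {P J : Type} {D : ℕ} [Finite P] [Finite J] [Primcodable (K0 P J D)] (M : DM P J) (p0 : P)
  (j0 : J) {α : Type} [Primcodable α]

lemma pp_relN {n d : α → ℕ} {a b : α → K0 P J D × ℕ} (hn : Primrec n) (hd : Primrec d)
    (ha : Primrec a) (hb : Primrec b) : PrimrecPred fun x => relN M (n x) (d x) (a x) (b x) := by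
  have ha1 : Primrec fun x => (a x).1 := by fun_prop
  have hb1 : Primrec fun x => (b x).1 := by fun_prop
  have e : ∀ k : ℕ, PrimrecPred fun x => d x = k := fun k => pp_eq hd (Primrec.const k)
  unfold relN rel0
  refine PrimrecPred.and ?_ ((pp_imp (e 2) (pp_eq (by fun_prop) (by fun_prop))).and
    (pp_imp (e 3) (pp_eq (by fun_prop) (by fun_prop))))
  exact ((e 0).and (pp_dom2 (relT M) ha1 hb1)).or (((e 1).and (pp_dom2 (relT M) hb1 ha1)).or
    (((e 2).and (pp_dom2 relV ha1 hb1)).or (((e 3).and (pp_dom2 relV hb1 ha1)).or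
    (((e 4).and (pp_dom2 (relC false) ha1 hb1)).or (((e 5).and (pp_dom2 (relC true) ha1 hb1)).or
    ((e 6).and (pp_dom2 (fun u v => ∃ s, relC s u v) hb1 ha1)))))))

lemma pr_src : PR fun N => srcRules D M p0 j0 N where
  r N := rfl
  un := by
    have h1 : Primrec fun p : ℕ × K0 P J D × ℕ => p.2.1 := by fun_prop
    have h2 : PrimrecPred fun p : ℕ × K0 P J D × ℕ => p.2.2 < p.1 := pp_lt (by fun_prop) (by fun_prop)
    refine (pp_dom (un0 M p0) h1).and ((pp_le (by fun_prop) (by fun_prop)).and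
      ((pp_imp (pp_dom (fun a : K0 P J D => a.hV' = false ∧ a.side = none) h1)
        (pp_eq (by fun_prop) (by fun_prop))).and ?_))
    refine ((h2.and (pp_dom (ini0 j0 True) h1)).or (h2.not.and (pp_dom (ini0 j0 False) h1))).of_eq
      fun p => ?_
    by_cases h : p.2.2 < p.1 <;> simp [h]
  rel := pp_relN M (by fun_prop) (by fun_prop) (by fun_prop) (by fun_prop)
  nd := by
    have h1 : Primrec fun p : ℕ × (K0 P J D × ℕ) × ℕ => p.2.1.1 := by fun_prop
    have e : ∀ k : ℕ, PrimrecPred fun p : ℕ × (K0 P J D × ℕ) × ℕ => p.2.2 = k :=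
      fun k => pp_eq (by fun_prop) (Primrec.const k)
    exact ((e 0).and (pp_dom (fun a : K0 P J D => a.side = none ∧ a.hT = true) h1)).or
      (((e 1).and (pp_dom (fun a : K0 P J D => a.side = none ∧ a.hT' = true) h1)).or
      (((e 2).and (pp_dom (fun a : K0 P J D => a.hV = true) h1)).or
      (((e 3).and (pp_dom (fun a : K0 P J D => a.hV' = true) h1)).or
      (((e 4).and (pp_dom (fun a : K0 P J D => a.hV' = true) h1)).or
      (((e 5).and (pp_dom (fun a : K0 P J D => a.hV' = true) h1)).or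
      ((e 6).and (pp_dom (fun a : K0 P J D => a.side ≠ none) h1)))))))
  sq := by
    simp only [srcRules]
    repeat' first
      | with_reducible refine PrimrecPred.or ?_ ?_
      | with_reducible refine PrimrecPred.and ?_ ?_
      | with_reducible refine pp_relN M ?_ ?_ ?_ ?_
    all_goals fun_prop
  fin := by
    simp only [srcRules]
    repeat' first
      | with_reducible refine PrimrecPred.and ?_ ?_
      | with_reducible refine pp_imp ?_ ?_
      | with_reducible refine pp_relN M ?_ ?_ ?_ ?_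
    all_goals fun_prop

end

theorem depth_not_computable : ¬ ∃ f : List (List Bool) →. ℕ, Partrec f ∧
    ∀ (n : ℕ) (G : SimpleGraph (Fin n)), 0 < n → logicalDepth G ∈ f (adjRows G) := by
  classical
  obtain ⟨Q, hQ, S, q0, N, -, hN, hu⟩ := exists_sys
  let M := dm S q0 0
  obtain ⟨D, hD⟩ : ∃ D : ℕ, ∀ p b i, vec' M p b i ≤ D + 1 := by
    obtain ⟨B, hB⟩ := (Set.finite_range fun x : RS S × Bool × Option (Bool × Bool) =>
      vec' M x.1 x.2.1 x.2.2).bddAbove
    refine ⟨B.toNat, fun p b i => ?_⟩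
    have := hB ⟨(p, b, i), rfl⟩
    simp only at this
    omega
  obtain ⟨κ, ⟨e⟩⟩ := Finite.exists_equiv_fin (K0 (RS S) (Bool × Bool) D)
  have hκ : 0 < κ := (e ⟨0, 0, 0, none, true, true, true, true, true, none, true, fun _ _ => true⟩).pos
  let _ : Primcodable (K0 (RS S) (Bool × Bool) D) := Primcodable.ofEquiv _ e
  let dec : ℕ → K0 (RS S) (Bool × Bool) D × ℕ := fun c => (e.symm ⟨c % κ, Nat.mod_lt _ hκ⟩, c / κ)
  have hdec : Primrec dec := by
    refine Primrec.pair (Primrec.of_equiv_symm.comp (Primrec.fin_val_iff.1 ?_)) ?_ <;> fun_prop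
  have hsurj : Function.Surjective dec := by
    rintro ⟨x, m⟩
    have h0 := (e x).2
    refine ⟨(e x).1 + κ * m, Prod.ext ?_ ?_⟩
    · simp only [dec]
      rw [Equiv.symm_apply_eq]
      exact Fin.ext (by simp [Nat.mod_eq_of_lt h0])
    · simp only [dec]
      rw [Nat.add_mul_div_left _ _ hκ, Nat.div_eq_of_lt h0, zero_add]
  refine not_computable ((pr_src M (.d1 q0 (z0 S)) (false, true)).comap hdec)
    (A := fun n => κ * (n + 1) + 40) (by fun_prop) (fun n => by omega) ?_ hN ?_
  · intro n c hc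
    have h1 : c / κ ≤ n := hc.2.1
    have h2 : c < κ * (c / κ + 1) := Nat.lt_mul_div_succ c hκ
    have h3 : κ * (c / κ + 1) ≤ κ * (n + 1) := Nat.mul_le_mul_left _ (by omega)
    omega
  · refine fun h => hu (h.of_eq fun n => ?_)
    rw [hasModel_comap _ hsurj, src_iff _ _ _ _ hD, ← dm_halts_iff S q0 0]
    have : (Pi.single (false, true) (N n : ℤ) : Bool × Bool → ℤ) =
        v4 (ini (N n) true) (ini (N n) false) 0 0 := by
      funext ⟨j1, j2⟩
      cases j1 <;> cases j2 <;> simp [v4, ini]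
    rw [this]

end Pool.Agent.H431Z.LD
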